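import Mathlib

/-!
# The algebraic part: two families of integers indexed by `ZMod p`
-/

set_option autoImplicit false

namespace Pool.Agent.Q100.HK

variable {p : ℕ} [NeZero p]

/-- functions invariant under the shift are constant -/
lemma const_of_shift {f : ZMod p → ℤ} (h : ∀ i, f (i + 1) = f i) : ∀ i, f i = f 0 := by
  have h1 : ∀ k : ℕ, f (k : ZMod p) = f 0 := by
    intro k
    induction k with
    | zero => rw [Nat.cast_zero]
    | succ k ih => rw [Nat.cast_succ, h, ih]
  intro i
  have h2 := h1 i.val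
  rwa [ZMod.natCast_zmod_val] at h2

/-- functions of sum zero are differences -/
lemma exists_prim {f : ZMod p → ℤ} (hf : ∑ i, f i = 0) : ∃ F : ZMod p → ℤ, ∀ i,
    F (i + 1) - F i = f i := by
  refine ⟨fun i => ∑ l ∈ Finset.range i.val, f (l : ZMod p), fun i => ?_⟩
  have hp : 0 < p := Nat.pos_of_ne_zero (NeZero.ne p)
  have hsum : ∑ l ∈ Finset.range p, f (l : ZMod p) = 0 := by
    rw [← hf]
    refine Finset.sum_bij (fun l _ => (l : ZMod p)) (fun _ _ => Finset.mem_univ _) ?_ ?_
      (fun _ _ => rfl)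
    · intro a ha b hb hab
      rw [Finset.mem_range] at ha hb
      have := congrArg ZMod.val hab
      rwa [ZMod.val_cast_of_lt ha, ZMod.val_cast_of_lt hb] at this
    · intro i _
      exact ⟨i.val, Finset.mem_range.2 (ZMod.val_lt i), ZMod.natCast_zmod_val i⟩
  have hi := ZMod.val_lt i
  show ∑ l ∈ Finset.range (i + 1).val, f (l : ZMod p) - ∑ l ∈ Finset.range i.val, f (l : ZMod p) =
    f i
  rcases lt_or_ge (i.val + 1) p with h | h
  · have h1 : (i + 1).val = i.val + 1 := by
      have h2 : i + 1 = ((i.val + 1 : ℕ) : ZMod p) := by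
        push_cast
        rw [ZMod.natCast_zmod_val]
      rw [h2, ZMod.val_cast_of_lt h]
    rw [h1, Finset.sum_range_succ, ZMod.natCast_zmod_val]
    ring
  · have h1 : i.val + 1 = p := by omega
    have h2 : i + 1 = 0 := by
      have h3 : i + 1 = ((i.val + 1 : ℕ) : ZMod p) := by
        push_cast
        rw [ZMod.natCast_zmod_val]
      rw [h3, h1, ZMod.natCast_self]
    rw [h2, ZMod.val_zero, Finset.sum_range_zero]
    have h5 : Finset.range p = Finset.range (i.val + 1) := by rw [h1]
    rw [h5, Finset.sum_range_succ, ZMod.natCast_zmod_val] at hsum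
    linarith

theorem alg (κ μ : ZMod p → ℤ) (c : ZMod p → ZMod p → ℤ)
    (h1 : ∀ i, κ (i + 1) - κ i = -∑ j, c i j) (h2 : ∀ j, μ (j + 1) - μ j = ∑ i, c i j)
    (h3 : ∀ i j, ∑ s, c (i + s) (j + s) = 0) : (p : ℤ) ∣ ∑ i, κ i + ∑ j, μ j := by
  have h4 : ∀ e : ZMod p, ∃ F : ZMod p → ℤ, ∀ i, F (i + 1) - F i = c i (i + e) := by
    intro e
    apply exists_prim
    have := h3 0 e
    simp only [zero_add] at this
    rw [← this]
    exact Finset.sum_congr rfl fun s _ => by rw [add_comm]
  choose F hF using h4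
  have k1 : ∀ i, κ i + ∑ e, F e i = κ 0 + ∑ e, F e 0 := by
    refine const_of_shift (f := fun i => κ i + ∑ e, F e i) fun i => ?_
    have e1 : ∑ e, F e (i + 1) - ∑ e, F e i = ∑ j, c i j := by
      rw [← Finset.sum_sub_distrib, Finset.sum_congr rfl fun e _ => hF e i]
      exact Fintype.sum_equiv (Equiv.addLeft i) _ _ fun e => rfl
    have := h1 i
    linarith
  have k2 : ∀ j, μ j - ∑ e, F e (j - e) = μ 0 - ∑ e, F e (0 - e) := by
    refine const_of_shift (f := fun j => μ j - ∑ e, F e (j - e)) fun j => ?_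
    have e1 : ∑ e, F e (j + 1 - e) - ∑ e, F e (j - e) = ∑ i, c i j := by
      rw [← Finset.sum_sub_distrib]
      have e2 : ∀ e, F e (j + 1 - e) - F e (j - e) = c (j - e) j := by
        intro e
        have := hF e (j - e)
        rw [sub_add_cancel] at this
        rw [← this]
        congr 2
        ring
      rw [Finset.sum_congr rfl fun e _ => e2 e]
      exact Fintype.sum_equiv (Equiv.subLeft j) _ _ fun e => rfl
    have := h2 j
    linarith
  have e1 : ∑ i, κ i + ∑ i, ∑ e, F e i = p * (κ 0 + ∑ e, F e 0) := by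
    rw [← Finset.sum_add_distrib, Finset.sum_congr rfl fun i _ => k1 i, Finset.sum_const,
      Finset.card_univ, ZMod.card, nsmul_eq_mul]
  have e2 : ∑ j, μ j - ∑ j, ∑ e, F e (j - e) = p * (μ 0 - ∑ e, F e (0 - e)) := by
    rw [← Finset.sum_sub_distrib, Finset.sum_congr rfl fun j _ => k2 j, Finset.sum_const,
      Finset.card_univ, ZMod.card, nsmul_eq_mul]
  have e3 : ∑ j, ∑ e, F e (j - e) = ∑ i, ∑ e, F e i := by
    rw [Finset.sum_comm, Finset.sum_comm (f := fun i e => F e i)]
    refine Finset.sum_congr rfl fun e _ => ?_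
    exact Fintype.sum_equiv (Equiv.subRight e) _ _ fun j => rfl
  refine ⟨κ 0 + ∑ e, F e 0 + (μ 0 - ∑ e, F e (0 - e)), ?_⟩
  rw [e3] at e2
  linarith

end Pool.Agent.Q100.HK
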