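import Pool.Agent.Q100.HK.Deg

/-!
# The local degree: interpolation and composition
-/

set_option autoImplicit false

open MeasureTheory Set Metric Filter Topology
open scoped ENNReal NNReal ContDiff

noncomputable section

namespace Pool.Agent.Q100.HK

open Pool.Agent.Y485.HS Pool.Agent.Y489.SP

/-- a positive lower bound on a compact set -/
lemma exists_min_pos {α : Type} [TopologicalSpace α] {K : Set α} (hK : IsCompact K) {f : α → ℝ}
    (hf : ContinuousOn f K) (hpos : ∀ x ∈ K, 0 < f x) : ∃ m : ℝ, 0 < m ∧ ∀ x ∈ K, m ≤ f x := by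
  rcases K.eq_empty_or_nonempty with rfl | hne
  · exact ⟨1, one_pos, fun x hx => absurd hx (notMem_empty _)⟩
  · obtain ⟨x0, hx0, hmin⟩ := hK.exists_isMinOn hne hf
    exact ⟨f x0, hpos x0 hx0, fun x hx => isMinOn_iff.1 hmin x hx⟩

/-- smooth approximation of functions with values in the unit interval -/
lemma approx_unit {n : ℕ} {c : E n → ℝ} (hc : ContinuousOn c (closedBall 0 3))
    (hc01 : ∀ x ∈ closedBall (0 : E n) 3, c x ∈ Icc (0 : ℝ) 1) {ε : ℝ} (hε : 0 < ε) :
    ∃ c0 : E n → ℝ, ContDiff ℝ 1 c0 ∧ (∀ x, c0 x ∈ Icc (0 : ℝ) 1) ∧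
      ∀ x ∈ closedBall (0 : E n) 3, |c0 x - c x| ≤ ε := by
  have hcl : IsClosed (closedBall (0 : E n) 3) := isClosed_closedBall
  obtain ⟨C, hC⟩ := ContinuousMap.exists_restrict_eq hcl
    (⟨(closedBall (0 : E n) 3).domRestrict c, continuousOn_iff_continuous_domRestrict.1 hc⟩ :
      C(closedBall (0 : E n) 3, ℝ))
  have hC' : ∀ x ∈ closedBall (0 : E n) 3, C x = c x := fun x hx =>
    congrArg (fun g : C(closedBall (0 : E n) 3, ℝ) => g ⟨x, hx⟩) hC
  let χ : ContDiffBump (0 : E n) := ⟨3, 4, by norm_num, by norm_num⟩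
  let c1 : E n → ℝ := fun x => χ x * max 0 (min 1 (C x))
  have hcl01 : ∀ x, max 0 (min 1 (C x)) ∈ Icc (0 : ℝ) 1 := fun x =>
    ⟨le_max_left _ _, max_le zero_le_one (min_le_left _ _)⟩
  have hc1c : Continuous c1 := by
    refine χ.continuous.mul ?_
    exact continuous_const.max (continuous_const.min (map_continuous C))
  have hc101 : ∀ x, c1 x ∈ Icc (0 : ℝ) 1 := by
    intro x
    have h1 := hcl01 x
    have h2 := χ.nonneg (x := x)
    have h3 := χ.le_one (x := x)
    refine ⟨mul_nonneg h2 h1.1, ?_⟩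
    calc χ x * max 0 (min 1 (C x)) ≤ 1 * 1 := mul_le_mul h3 h1.2 h1.1 zero_le_one
      _ = 1 := one_mul 1
  have hc1s : HasCompactSupport c1 := by
    refine HasCompactSupport.intro (isCompact_closedBall (0 : E n) 4) fun z hz => ?_
    rw [mem_closedBall, dist_zero_right, not_le] at hz
    have h1 : χ z = 0 := χ.zero_of_le_dist (by rw [dist_zero_right]; exact hz.le)
    show χ z * _ = 0
    rw [h1, zero_mul]
  have hc1 : ∀ x ∈ closedBall (0 : E n) 3, c1 x = c x := by
    intro x hx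
    have h1 : χ x = 1 := χ.one_of_mem_closedBall hx
    have h2 := hc01 x hx
    show χ x * max 0 (min 1 (C x)) = c x
    rw [h1, one_mul, hC' x hx, min_eq_right h2.2, max_eq_right h2.1]
  obtain ⟨g, hgC, hg⟩ := (hc1s.uniformContinuous_of_continuous hc1c).exists_contDiff_dist_le
    (show (0 : ℝ) < ε / 2 by positivity)
  have hg' : ∀ x, |g x - c1 x| ≤ ε / 2 := by
    intro x
    have := (hg x).le
    rwa [Real.dist_eq] at this
  refine ⟨fun x => (g x + ε / 2) / (1 + ε), ?_, ?_, ?_⟩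
  · have h1 : ContDiff ℝ ∞ fun x => (g x + ε / 2) / (1 + ε) :=
      (hgC.add contDiff_const).div_const _
    exact h1.of_le (by exact_mod_cast le_top)
  · intro x
    have h1 := abs_le.1 (hg' x)
    have h2 := hc101 x
    constructor
    · apply div_nonneg
      · linarith [h1.1, h2.1]
      · linarith
    · rw [div_le_one (by linarith)]
      linarith [h1.2, h2.2]
  · intro x hx
    have h1 := abs_le.1 (hg' x)
    have h2 := hc101 x
    rw [hc1 x hx] at h1 h2
    have h3 : (g x + ε / 2) / (1 + ε) - c x = (g x - c x + ε / 2 - ε * c x) / (1 + ε) := by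
      field_simp
      ring
    show |(g x + ε / 2) / (1 + ε) - c x| ≤ ε
    rw [h3, abs_div, abs_of_pos (show (0 : ℝ) < 1 + ε by linarith), div_le_iff₀ (by linarith),
      abs_le]
    have h4 : 0 ≤ ε * c x := mul_nonneg hε.le h2.1
    have h5 : ε * c x ≤ ε * 1 := mul_le_mul_of_nonneg_left h2.2 hε.le
    constructor <;> nlinarith [h1.1, h1.2]

/-- interpolation -/
lemma mix {n : ℕ} {G G' : E n → E n} (hG : AdS G) (hG' : AdS G') {c : E n → ℝ}
    (hc : ContinuousOn c (closedBall 0 3))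
    (hc01 : ∀ x ∈ closedBall (0 : E n) 3, c x ∈ Icc (0 : ℝ) 1) :
    AdS (fun x => G x + c x • (G' x - G x)) := by
  refine ⟨hG.1.add (hc.smul (hG'.1.sub hG.1)), fun ε hε => ?_⟩
  obtain ⟨ε', hε'0, hε'ε, hε'1⟩ : ∃ ε' : ℝ, 0 < ε' ∧ ε' ≤ ε / 5 ∧ ε' ≤ 1 :=
    ⟨min (ε / 5) 1, by positivity, min_le_left _ _, min_le_right _ _⟩
  obtain ⟨A, hA, hAG⟩ := hG.2 ε' hε'0
  obtain ⟨B, hB, hBG⟩ := hG'.2 ε' hε'0
  obtain ⟨c0, hc0, hc01', hc0c⟩ := approx_unit hc hc01 hε'0
  refine ⟨fun x => A x + c0 x • (B x - A x), ⟨?_, ?_, ?_⟩, ?_⟩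
  · exact hA.smooth.add (hc0.smul (hB.smooth.sub hA.smooth))
  · intro x hx
    show A x + c0 x • (B x - A x) = x
    rw [hA.out x hx, hB.out x hx, sub_self, smul_zero, add_zero]
  · intro x
    have h1 := hA.disp x
    have h2 := hB.disp x
    have h3 := hc01' x
    show dist (A x + c0 x • (B x - A x)) x ≤ 1
    rw [dist_eq_norm] at h1 h2 ⊢
    have h4 : A x + c0 x • (B x - A x) - x = (1 - c0 x) • (A x - x) + c0 x • (B x - x) := by
      module
    rw [h4]
    calc ‖(1 - c0 x) • (A x - x) + c0 x • (B x - x)‖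
        ≤ ‖(1 - c0 x) • (A x - x)‖ + ‖c0 x • (B x - x)‖ := norm_add_le _ _
      _ = (1 - c0 x) * ‖A x - x‖ + c0 x * ‖B x - x‖ := by
          rw [norm_smul, norm_smul, Real.norm_of_nonneg (by linarith [h3.2]),
            Real.norm_of_nonneg h3.1]
      _ ≤ (1 - c0 x) * 1 + c0 x * 1 :=
          add_le_add (mul_le_mul_of_nonneg_left h1 (by linarith [h3.2]))
            (mul_le_mul_of_nonneg_left h2 h3.1)
      _ = 1 := by ring
  · intro x hx
    have h1 := hA.disp x
    have h2 := hB.disp x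
    have h3 := hc01' x
    have h5 := hAG x hx
    have h6 := hBG x hx
    have h7 := hc0c x hx
    show dist (A x + c0 x • (B x - A x)) (G x + c x • (G' x - G x)) ≤ ε
    rw [dist_eq_norm] at h1 h2 h5 h6 ⊢
    have h8 : ‖B x - A x‖ ≤ 2 := by
      calc ‖B x - A x‖ = ‖(B x - x) - (A x - x)‖ := by congr 1; abel
        _ ≤ ‖B x - x‖ + ‖A x - x‖ := norm_sub_le _ _
        _ ≤ 2 := by linarith
    have h9 : ‖G' x - G x‖ ≤ 4 := by
      calc ‖G' x - G x‖ = ‖(B x - A x) - (B x - G' x) + (A x - G x)‖ := by congr 1; abel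
        _ ≤ ‖(B x - A x) - (B x - G' x)‖ + ‖A x - G x‖ := norm_add_le _ _
        _ ≤ ‖B x - A x‖ + ‖B x - G' x‖ + ‖A x - G x‖ := by
            gcongr
            exact norm_sub_le _ _
        _ ≤ 4 := by linarith
    have h4 : A x + c0 x • (B x - A x) - (G x + c x • (G' x - G x)) =
        ((1 - c0 x) • (A x - G x) + c0 x • (B x - G' x)) + (c0 x - c x) • (G' x - G x) := by
      module
    rw [h4]
    calc ‖((1 - c0 x) • (A x - G x) + c0 x • (B x - G' x)) + (c0 x - c x) • (G' x - G x)‖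
        ≤ ‖(1 - c0 x) • (A x - G x)‖ + ‖c0 x • (B x - G' x)‖ + ‖(c0 x - c x) • (G' x - G x)‖ :=
          (norm_add_le _ _).trans (add_le_add (norm_add_le _ _) le_rfl)
      _ = (1 - c0 x) * ‖A x - G x‖ + c0 x * ‖B x - G' x‖ + |c0 x - c x| * ‖G' x - G x‖ := by
          rw [norm_smul, norm_smul, norm_smul, Real.norm_of_nonneg (by linarith [h3.2]),
            Real.norm_of_nonneg h3.1, Real.norm_eq_abs]
      _ ≤ (1 - c0 x) * ε' + c0 x * ε' + ε' * 4 := by
          refine add_le_add (add_le_add (mul_le_mul_of_nonneg_left h5 (by linarith [h3.2]))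
            (mul_le_mul_of_nonneg_left h6 h3.1)) ?_
          exact mul_le_mul h7 h9 (norm_nonneg _) hε'0.le
      _ = 5 * ε' := by ring
      _ ≤ ε := by linarith

/-- smooth approximations of a composition -/
lemma comp_approx {n : ℕ} {G τ : E n → E n} (hG : AdS G) (hτ : ContinuousOn τ (BB n))
    (hτd : ∀ x ∈ BB n, dist (τ x) x ≤ 1 / 4) {ε : ℝ} (hε : 0 < ε) :
    ∃ G0 τ0 : E n → E n, Ap 1 G0 ∧ (∀ x ∈ closedBall (0 : E n) 3, dist (G0 x) (G x) ≤ ε) ∧
      ContDiff ℝ 1 τ0 ∧ (∀ x, 8 ≤ ‖x‖ → τ0 x = x) ∧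
      (∀ x ∈ closedBall (0 : E n) 3, dist (τ0 x) (τ x) ≤ ε) ∧ (∀ x, dist (τ0 x) x ≤ 1 / 2) ∧
      Ap (3 / 2) (fun x => G0 (τ0 x)) ∧
      ∀ x ∈ closedBall (0 : E n) (11 / 4), dist (G0 (τ0 x)) (G (τ x)) ≤ ε := by
  obtain ⟨G0, hG0, hG0G⟩ := hG.2 (ε / 2) (by positivity)
  obtain ⟨ε1, hε1, hu⟩ := Metric.uniformContinuousOn_iff.mp
    ((isCompact_closedBall (0 : E n) 4).uniformContinuousOn_of_continuous
      hG0.smooth.continuous.continuousOn) (ε / 2) (by positivity)
  obtain ⟨τ0, hτ0s, hτ06, hτ0τ, hτ0d⟩ := Pool.Agent.Y739.SP.t_APX n τ hτ hτd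
    (min (ε1 / 2) ε) (lt_min (by positivity) hε)
  refine ⟨G0, τ0, hG0, fun x hx => (hG0G x hx).trans (by linarith), hτ0s,
    fun x hx => hτ06 x (by linarith), fun x hx => (hτ0τ x hx).trans (min_le_right _ _), hτ0d,
    ⟨hG0.smooth.comp hτ0s, ?_, ?_⟩, ?_⟩
  · intro x hx
    show G0 (τ0 x) = x
    rw [hτ06 x (by linarith), hG0.out x hx]
  · intro x
    have h1 := hG0.disp (τ0 x)
    have h2 := hτ0d x
    have h3 := dist_triangle (G0 (τ0 x)) (τ0 x) x
    show dist (G0 (τ0 x)) x ≤ 3 / 2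
    linarith
  · intro x hx
    have hx' : ‖x‖ ≤ 11 / 4 := by simpa using hx
    have hx3 : x ∈ closedBall (0 : E n) 3 := closedBall_subset_closedBall (by norm_num) hx
    have hx4 : x ∈ BB n := closedBall_subset_closedBall (by norm_num) hx
    have h1 := hτd x hx4
    have h2 := hτ0τ x hx3
    have hτx : τ x ∈ closedBall (0 : E n) 3 := by
      have h3 := dist_triangle (τ x) x 0
      rw [dist_zero_right x] at h3
      rw [mem_closedBall]
      linarith
    have hτ0x : τ0 x ∈ closedBall (0 : E n) 4 := by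
      have h3 := dist_triangle (τ0 x) x 0
      rw [dist_zero_right x] at h3
      rw [mem_closedBall]
      have := hτ0d x
      linarith
    have h3 := hu (τ0 x) hτ0x (τ x) (closedBall_subset_closedBall (by norm_num) hτx) (by
      have := min_le_left (ε1 / 2) ε
      linarith)
    have h4 := hG0G (τ x) hτx
    have h5 := dist_triangle (G0 (τ0 x)) (G0 (τ x)) (G (τ x))
    linarith

lemma AdS.comp {n : ℕ} {G τ : E n → E n} (hG : AdS G) (hτ : ContinuousOn τ (BB n))
    (hτd : ∀ x ∈ BB n, dist (τ x) x ≤ 1 / 4) : AdW (fun x => G (τ x)) := by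
  refine ⟨?_, fun ε hε => ?_⟩
  · refine hG.1.comp (hτ.mono (closedBall_subset_closedBall (by norm_num))) ?_
    intro x hx
    have hx' : ‖x‖ ≤ 11 / 4 := by simpa using hx
    have h1 := hτd x (closedBall_subset_closedBall (by norm_num) hx)
    have h3 := dist_triangle (τ x) x 0
    rw [dist_zero_right x] at h3
    rw [mem_closedBall]
    linarith
  · obtain ⟨G0, τ0, -, -, -, -, -, -, h1, h2⟩ := comp_approx hG hτ hτd hε
    exact ⟨_, h1, h2⟩

/-- the degree of a composition -/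
theorem dg_comp {n : ℕ} {y : E n} (hy : ‖y‖ < 1) {G τ : E n → E n} (hG : AdS G)
    (hτ : ContinuousOn τ (BB n)) (hτd : ∀ x ∈ BB n, dist (τ x) x ≤ 1 / 4) {U U' : Set (E n)}
    (hU : Ok y (fun x => G (τ x)) U) (hU' : Ok y G U')
    (hz : ∀ x ∈ closedBall (0 : E n) (11 / 4), G (τ x) = y → (x ∈ U ↔ τ x ∈ U')) :
    dg y (fun x => G (τ x)) U = dg y G U' := by
  have hGW := hG.adW
  have hcW := hG.comp hτ hτd
  obtain ⟨ε1, hε1, h1⟩ := dg_spec hGW.1 hU'
  obtain ⟨ε2, hε2, h2⟩ := dg_spec hcW.1 hU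
  have hτ3 : ∀ x ∈ closedBall (0 : E n) (11 / 4), τ x ∈ closedBall (0 : E n) 3 := by
    intro x hx
    have hx' : ‖x‖ ≤ 11 / 4 := by simpa using hx
    have h1 := hτd x (closedBall_subset_closedBall (by norm_num) hx)
    have h3 := dist_triangle (τ x) x 0
    rw [dist_zero_right x] at h3
    rw [mem_closedBall]
    linarith
  -- the margin of `U'`
  obtain ⟨m1, hm1, hm1'⟩ : ∃ m : ℝ, 0 < m ∧ ∀ x ∈ closure U' \ U', m ≤ dist (G x) y := by
    have hcl : closure U' ⊆ closedBall (0 : E n) 2 :=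
      closure_minimal (hU'.sub.trans ball_subset_closedBall) isClosed_closedBall
    refine exists_min_pos (((isCompact_closedBall (0 : E n) 2).of_isClosed_subset
      isClosed_closure hcl).diff hU'.opn) ?_ ?_
    · have h2 : Continuous (fun z : E n => dist z y) := by fun_prop
      exact h2.comp_continuousOn (hGW.1.mono (diff_subset.trans (hcl.trans
        (closedBall_subset_closedBall (by norm_num)))))
    · intro x hx
      rw [dist_pos]
      exact fun h => hx.2 (hU'.bd x hx.1 h)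
  -- the margin of the equivalence
  obtain ⟨m2, hm2, hm2'⟩ : ∃ m : ℝ, 0 < m ∧ ∀ x ∈ closedBall (0 : E n) (11 / 4), ∀ w ∈
      closedBall (0 : E n) 4, ¬ (x ∈ U ↔ w ∈ U') →
        m ≤ max (dist (G (τ x)) y) (dist w (τ x)) := by
    set Bad : Set (E n × E n) := {q | q.1 ∈ closedBall (0 : E n) (11 / 4) ∧
      q.2 ∈ closedBall (0 : E n) 4 ∧ ¬ (q.1 ∈ U ↔ q.2 ∈ U')} with hBad
    have hsub : closure Bad ⊆ closedBall (0 : E n) (11 / 4) ×ˢ closedBall (0 : E n) 4 := by
      refine closure_minimal ?_ (isClosed_closedBall.prod isClosed_closedBall)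
      rintro q ⟨h1, h2, -⟩
      exact ⟨h1, h2⟩
    have hKc : IsCompact (closure Bad) :=
      ((isCompact_closedBall (0 : E n) (11 / 4)).prod
        (isCompact_closedBall (0 : E n) 4)).of_isClosed_subset isClosed_closure hsub
    have hf : ContinuousOn (fun q : E n × E n => max (dist (G (τ q.1)) y) (dist q.2 (τ q.1)))
        (closure Bad) := by
      have h4 : Continuous (fun w : ℝ × ℝ => max w.1 w.2) := continuous_fst.max continuous_snd
      have h5 : ContinuousOn (fun q : E n × E n => dist (G (τ q.1)) y) (closure Bad) := by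
        have h2 : Continuous (fun z : E n => dist z y) := by fun_prop
        exact h2.comp_continuousOn (hcW.1.comp continuousOn_fst fun q hq => (hsub hq).1)
      have h6 : ContinuousOn (fun q : E n × E n => dist q.2 (τ q.1)) (closure Bad) := by
        have h7 : ContinuousOn (fun q : E n × E n => τ q.1) (closure Bad) :=
          hτ.comp continuousOn_fst fun q hq =>
            closedBall_subset_closedBall (by norm_num) (hsub hq).1
        exact continuous_dist.comp_continuousOn (continuousOn_snd.prodMk h7)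
      exact h4.comp_continuousOn (h5.prodMk h6)
    obtain ⟨m, hm, hmin⟩ := exists_min_pos hKc hf (by
      rintro ⟨x, w⟩ hq
      obtain ⟨hx, hw⟩ := hsub hq
      by_contra hcon
      have hcon' := not_lt.1 hcon
      have e1 : G (τ x) = y := by
        have : dist (G (τ x)) y ≤ 0 := (le_max_left _ _).trans hcon'
        exact dist_le_zero.1 this
      have e2 : w = τ x := by
        have : dist w (τ x) ≤ 0 := (le_max_right _ _).trans hcon'
        exact dist_le_zero.1 this
      subst e2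
      have hiff := hz x hx e1
      by_cases hxU : x ∈ U
      · have h3 : U ×ˢ U' ∈ 𝓝 (x, τ x) :=
          (hU.opn.prod hU'.opn).mem_nhds ⟨hxU, hiff.1 hxU⟩
        obtain ⟨q, hqU, hqB⟩ := mem_closure_iff_nhds.1 hq _ h3
        exact hqB.2.2 ⟨fun _ => hqU.2, fun _ => hqU.1⟩
      · have h3 : x ∉ closure U := fun h => hxU (hU.bd x h e1)
        have h4 : τ x ∉ closure U' := fun h => hxU (hiff.2 (hU'.bd _ h e1))
        have h5 : (closure U)ᶜ ×ˢ (closure U')ᶜ ∈ 𝓝 (x, τ x) :=
          (isClosed_closure.isOpen_compl.prod isClosed_closure.isOpen_compl).mem_nhds ⟨h3, h4⟩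
        obtain ⟨q, hqU, hqB⟩ := mem_closure_iff_nhds.1 hq _ h5
        exact hqB.2.2 ⟨fun h => absurd (subset_closure h) hqU.1,
          fun h => absurd (subset_closure h) hqU.2⟩)
    exact ⟨m, hm, fun x hx w hw hb => hmin (x, w) (subset_closure ⟨hx, hw, hb⟩)⟩
  obtain ⟨ε, hε, hεa, hεb, hεc, hεd, hεe⟩ : ∃ ε : ℝ, 0 < ε ∧ ε ≤ ε1 ∧ ε ≤ ε2 ∧ ε ≤ m1 / 4 ∧
      ε ≤ m2 / 4 ∧ ε ≤ 1 / 4 :=
    ⟨min (min ε1 ε2) (min (min (m1 / 4) (m2 / 4)) (1 / 4)), by positivity,
      (min_le_left _ _).trans (min_le_left _ _), (min_le_left _ _).trans (min_le_right _ _),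
      (min_le_right _ _).trans ((min_le_left _ _).trans (min_le_left _ _)),
      (min_le_right _ _).trans ((min_le_left _ _).trans (min_le_right _ _)),
      (min_le_right _ _).trans (min_le_right _ _)⟩
  obtain ⟨G0, τ0, hG0, hG0G, hτ0s, hτ08, hτ0τ, hτ0d, hc0, hc0c⟩ := comp_approx hG hτ hτd hε
  obtain ⟨φ, hφ, hφ0, hφp, hφs⟩ := exists_bump y hε
  have hφn : ∀ w, φ w ≠ 0 → dist w y < ε := fun w hw => by
    by_contra hcon
    exact hw (hφ0 w (not_lt.1 hcon))
  have hcl2 : closure U' ⊆ closedBall (0 : E n) 2 :=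
    closure_minimal (hU'.sub.trans ball_subset_closedBall) isClosed_closedBall
  have hC := Pool.Agent.Y236.SP.t_COMPT n G0 τ0 8 hG0.smooth hτ0s hG0.out hτ08 U U'
    (closure U' ∩ {x | dist (G0 x) y ≤ ε}) φ hU.opn hU'.opn
    (isClosed_closure.inter (isClosed_le (hG0.smooth.continuous.dist continuous_const)
      continuous_const)) (by
      rintro x ⟨hx1, hx2⟩
      by_contra hxU
      have h3 := hm1' x ⟨hx1, hxU⟩
      have h4 := hG0G x (closedBall_subset_closedBall (by norm_num) (hcl2 hx1))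
      have h5 := dist_triangle_left (G x) y (G0 x)
      have h6 : dist (G0 x) y ≤ ε := hx2
      linarith) (isBounded_ball.subset hU'.sub) hφ
    (fun x hx hφx => ⟨subset_closure hx, (hφn _ hφx).le⟩) (by
      intro x hφx
      have h3 := hφn _ hφx
      have h4 : dist (G0 (τ0 x)) x ≤ 3 / 2 := hc0.disp x
      have h5 : x ∈ closedBall (0 : E n) (11 / 4) := by
        rw [mem_closedBall, dist_zero_right]
        have h6 := dist_triangle_left x y (G0 (τ0 x))
        have h7 : ‖x‖ ≤ ‖y‖ + dist x y := by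
          rw [dist_eq_norm]
          calc ‖x‖ = ‖y + (x - y)‖ := by congr 1; abel
            _ ≤ ‖y‖ + ‖x - y‖ := norm_add_le _ _
        linarith
      have h6 := hc0c x h5
      have h7 := dist_triangle_left (G (τ x)) y (G0 (τ0 x))
      have h8 := hτ0τ x (closedBall_subset_closedBall (by norm_num) h5)
      have h9 : τ0 x ∈ closedBall (0 : E n) 4 := by
        have h10 := dist_triangle (τ0 x) x 0
        have h11 := hτ0d x
        rw [mem_closedBall] at h5 ⊢
        linarith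
      by_contra hcon
      rcases le_max_iff.1 (hm2' x h5 (τ0 x) h9 hcon) with h10 | h10 <;> linarith)
  have e1 := h2 _ hc0 (fun x hx => (hc0c x hx).trans hεb) φ hφ (fun w hw => hφ0 w (hεb.trans hw))
  have e2 := h1 G0 ⟨hG0.smooth, hG0.out, fun x => (hG0.disp x).trans (by norm_num)⟩
    (fun x hx => (hG0G x (closedBall_subset_closedBall (by norm_num) hx)).trans hεa) φ hφ
    (fun w hw => hφ0 w (hεa.trans hw))
  have e3 : (dg y (fun x => G (τ x)) U : ℝ) * ∫ w, φ w = (dg y G U' : ℝ) * ∫ w, φ w := by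
    rw [← e1, ← e2]
    exact hC
  have e4 : (dg y (fun x => G (τ x)) U : ℝ) = dg y G U' := mul_right_cancel₀ hφp.ne' e3
  exact_mod_cast e4

end Pool.Agent.Q100.HK
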