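import Pool.Agent.Q100.HK.Clo
import Pool.Agent.Q100.HK.Deg2
import Pool.Agent.Y532.SP.LOCS
import Pool.Agent.Y523.PH.RES

/-!
# Averages over closed subgroups
-/

set_option autoImplicit false

open MeasureTheory Set Metric Filter Topology
open scoped ENNReal NNReal

noncomputable section

namespace Pool.Agent.Q100.HK

open Pool.Agent.Y485.HS Pool.Agent.Y532.SP.LOCS

/-! ### countably many functions which separate points from compact sets -/

/-- the function `i` -/
def bumpF (n i : ℕ) (w : E n) : ℝ :=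
  max 0 (1 / ((i.unpair.2 : ℝ) + 1) - dist w (TopologicalSpace.denseSeq (E n) i.unpair.1))

lemma bumpF_nonneg (n i : ℕ) (w : E n) : 0 ≤ bumpF n i w := le_max_left _ _

lemma bumpF_lip (n i : ℕ) (w w' : E n) : dist (bumpF n i w) (bumpF n i w') ≤ dist w w' := by
  unfold bumpF
  rw [Real.dist_eq]
  set c := TopologicalSpace.denseSeq (E n) i.unpair.1
  set ρ : ℝ := 1 / ((i.unpair.2 : ℝ) + 1)
  have h1 := abs_max_sub_max_le_abs (ρ - dist w c) (ρ - dist w' c) 0
  rw [max_comm 0 (ρ - dist w c), max_comm 0 (ρ - dist w' c)]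
  refine h1.trans ?_
  have h2 : ρ - dist w c - (ρ - dist w' c) = dist w' c - dist w c := by ring
  rw [h2]
  have h3 := abs_dist_sub_le w' w c
  rw [dist_comm w w']
  exact h3

lemma bumpF_sep (n : ℕ) {O : Set (E n)} (hO : IsCompact O) {v : E n} (hv : v ∉ O) :
    ∃ i, 0 < bumpF n i v ∧ ∀ w ∈ O, bumpF n i w = 0 := by
  obtain ⟨ρ0, hρ0, hρ⟩ : ∃ ρ0 : ℝ, 0 < ρ0 ∧ ∀ w ∈ O, ρ0 ≤ dist w v := by
    refine exists_min_pos hO (f := fun w => dist w v) (by fun_prop) ?_
    intro w hw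
    rw [dist_pos]
    rintro rfl
    exact hv hw
  obtain ⟨b, hb⟩ := exists_nat_gt (2 / ρ0)
  have hb' : 1 / ((b : ℝ) + 1) < ρ0 / 2 := by
    rw [div_lt_iff₀ (by positivity)]
    rw [div_lt_iff₀ hρ0] at hb
    nlinarith
  obtain ⟨a, hd⟩ := (TopologicalSpace.denseRange_denseSeq (E n)).exists_dist_lt v
    (show (0 : ℝ) < 1 / ((b : ℝ) + 1) by positivity)
  refine ⟨Nat.pair a b, ?_, fun w hw => ?_⟩
  · unfold bumpF
    rw [Nat.unpair_pair]
    exact lt_max_of_lt_right (by simpa using hd)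
  · unfold bumpF
    rw [Nat.unpair_pair]
    refine max_eq_left ?_
    have h1 := hρ w hw
    have h2 := dist_triangle_right w v (TopologicalSpace.denseSeq (E n) a)
    simp only
    linarith

/-! ### averages -/

section

variable {V : Type} [NormedAddCommGroup V] [NormedSpace ℝ V]
variable {n : ℕ} {H : Type} [Group H] [TopologicalSpace H] [IsTopologicalGroup H]

/-- the average over the closed subgroup `M` of the composition of `φ` with translates -/
def avg (T : H → E n → E n) (h0 : H) (M : Subgroup H) [CompactSpace M] (φ : E n → V) (s : H)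
    (x : E n) : V :=
  letI : MeasurableSpace M := borel M
  haveI : BorelSpace M := ⟨rfl⟩
  ∫ k : M, φ (T (h0 * (k : H)⁻¹ * s) x) ∂(Measure.haarMeasure ⊤)

variable {T : H → E n → E n} (hT : LocAct n H T) (h0 : H) (M : Subgroup H) [CompactSpace M]

include hT in
lemma avg_contOn {φ : E n → V} (hφ : Continuous φ) (s : H) :
    ContinuousOn (fun q : M × E n => φ (T (h0 * ((q.1 : M) : H)⁻¹ * s) q.2))
      (univ ×ˢ BB n) := by
  have hc : Continuous (fun q : M × E n => (h0 * (((q.1 : M) : H))⁻¹ * s, q.2)) := by fun_prop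
  refine hφ.comp_continuousOn (hT.cont.comp hc.continuousOn ?_)
  rintro ⟨k, x⟩ ⟨-, hx⟩
  exact ⟨mem_univ _, hx⟩

include hT in
lemma avg_cont [CompleteSpace V] {φ : E n → V} (hφ : Continuous φ) (s : H) :
    ContinuousOn (avg T h0 M φ s) (BB n) := by
  let _ : MeasurableSpace M := borel M
  have _ : BorelSpace M := ⟨rfl⟩
  have hμ1 : IsProbabilityMeasure (Measure.haarMeasure (⊤ : TopologicalSpace.PositiveCompacts M)) :=
    ⟨by
      have := Measure.haarMeasure_self (K₀ := (⊤ : TopologicalSpace.PositiveCompacts M))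
      simpa using this⟩
  exact ave_cont _ (avg_contOn hT h0 M hφ s)

include hT in
lemma avg_en [CompleteSpace V] {φ : E n → V} (hφ : Continuous φ)
    (hφl : ∀ w w', dist (φ w) (φ w') ≤ dist w w') (s : H) {e N : ℕ} {S : Set (E n)}
    (hE : ∀ k ∈ M, EnV e N (T (h0 * k * s)) S) : EnV e N (avg T h0 M φ s) S := by
  let _ : MeasurableSpace M := borel M
  have _ : BorelSpace M := ⟨rfl⟩
  have hμ1 : IsProbabilityMeasure (Measure.haarMeasure (⊤ : TopologicalSpace.PositiveCompacts M)) :=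
    ⟨by
      have := Measure.haarMeasure_self (K₀ := (⊤ : TopologicalSpace.PositiveCompacts M))
      simpa using this⟩
  refine ave _ (avg_contOn hT h0 M hφ s) fun k => ?_
  exact en_of_dist (hT.cont_right _) (fun x _ y _ => hφl _ _) (hE _ (M.inv_mem k.2))

include hT in
lemma avg_act {φ : E n → V} (s c : H) {x : E n} (hx : x ∈ BB n) (hcx : T c x ∈ BB n) :
    avg T h0 M φ s (T c x) = avg T h0 M φ (s * c) x := by
  let _ : MeasurableSpace M := borel M
  have _ : BorelSpace M := ⟨rfl⟩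
  have h1 : ∀ k : M, φ (T (h0 * (k : H)⁻¹ * s) (T c x)) = φ (T (h0 * (k : H)⁻¹ * (s * c)) x) := by
    intro k
    rw [← hT.mul _ _ x hx hcx, mul_assoc (h0 * (k : H)⁻¹) s c]
  show ∫ k : M, φ (T (h0 * (k : H)⁻¹ * s) (T c x)) ∂(Measure.haarMeasure ⊤) =
    ∫ k : M, φ (T (h0 * (k : H)⁻¹ * (s * c)) x) ∂(Measure.haarMeasure ⊤)
  simp_rw [h1]

lemma avg_mem {φ : E n → V} (s : H) {c : H} (hc : c ∈ M) (x : E n) :
    avg T h0 M φ (c * s) x = avg T h0 M φ s x := by
  let _ : MeasurableSpace M := borel M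
  have _ : BorelSpace M := ⟨rfl⟩
  have h1 : ∀ k : M, φ (T (h0 * (k : H)⁻¹ * (c * s)) x) =
      φ (T (h0 * ((((⟨c, hc⟩ : M)⁻¹ * k : M) : H))⁻¹ * s) x) := by
    intro k
    congr 2
    simp [mul_assoc]
  show ∫ k : M, φ (T (h0 * (k : H)⁻¹ * (c * s)) x) ∂(Measure.haarMeasure ⊤) =
    ∫ k : M, φ (T (h0 * (k : H)⁻¹ * s) x) ∂(Measure.haarMeasure ⊤)
  simp_rw [h1]
  exact integral_mul_left_eq_self (fun k : M => φ (T (h0 * (k : H)⁻¹ * s) x)) (⟨c, hc⟩ : M)⁻¹

include hT in
lemma avg_cont_k {φ : E n → V} (hφ : Continuous φ) (s : H) {x : E n} (hx : x ∈ BB n) :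
    Continuous (fun k : M => φ (T (h0 * (k : H)⁻¹ * s) x)) := by
  have hc : Continuous (fun k : M => (k, x)) := by fun_prop
  exact (avg_contOn hT h0 M hφ s).comp_continuous hc (fun k => ⟨mem_univ _, hx⟩)

include hT in
lemma avg_dist [CompleteSpace V] {φ : E n → V} (hφ : Continuous φ) (s : H) {x : E n}
    (hx : x ∈ BB n) {v : V} {δ : ℝ} (hδ : ∀ k ∈ M, dist (φ (T (h0 * k * s) x)) v ≤ δ) :
    dist (avg T h0 M φ s x) v ≤ δ := by
  let _ : MeasurableSpace M := borel M
  have _ : BorelSpace M := ⟨rfl⟩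
  have hμ1 : IsProbabilityMeasure (Measure.haarMeasure (⊤ : TopologicalSpace.PositiveCompacts M)) :=
    ⟨by
      have := Measure.haarMeasure_self (K₀ := (⊤ : TopologicalSpace.PositiveCompacts M))
      simpa using this⟩
  have hint : Integrable (fun k : M => φ (T (h0 * (k : H)⁻¹ * s) x))
      (Measure.haarMeasure (⊤ : TopologicalSpace.PositiveCompacts M)) :=
    (avg_cont_k hT h0 M hφ s hx).integrable_of_hasCompactSupport
      (HasCompactSupport.of_compactSpace _)
  show dist (∫ k : M, φ (T (h0 * (k : H)⁻¹ * s) x) ∂(Measure.haarMeasure ⊤)) v ≤ δ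
  have h1 : (∫ k : M, φ (T (h0 * (k : H)⁻¹ * s) x) ∂(Measure.haarMeasure ⊤)) - v =
      ∫ k : M, (φ (T (h0 * (k : H)⁻¹ * s) x) - v) ∂(Measure.haarMeasure ⊤) := by
    rw [integral_sub hint (integrable_const _)]
    simp
  rw [dist_eq_norm, h1]
  have h2 := norm_integral_le_of_norm_le_const
    (μ := Measure.haarMeasure (⊤ : TopologicalSpace.PositiveCompacts M))
    (f := fun k : M => φ (T (h0 * (k : H)⁻¹ * s) x) - v) (C := δ)
    (Eventually.of_forall fun k => by
      have := hδ ((k : H))⁻¹ (M.inv_mem k.2)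
      rwa [dist_eq_norm] at this)
  simpa using h2

include hT in
lemma avg_pos {φ : E n → ℝ} (hφ : Continuous φ) (hφ0 : ∀ w, 0 ≤ φ w) (s : H) {x : E n}
    (hx : x ∈ BB n) (hpos : 0 < φ (T (h0 * s) x)) : 0 < avg T h0 M φ s x := by
  let _ : MeasurableSpace M := borel M
  have _ : BorelSpace M := ⟨rfl⟩
  show 0 < ∫ k : M, φ (T (h0 * (k : H)⁻¹ * s) x) ∂(Measure.haarMeasure ⊤)
  refine (avg_cont_k hT h0 M hφ s hx).integral_pos_of_hasCompactSupport_nonneg_nonzero
    (x := (1 : M)) (HasCompactSupport.of_compactSpace _) (fun k => hφ0 _) ?_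
  have h1 : h0 * (((1 : M) : H))⁻¹ * s = h0 * s := by simp
  rw [h1]
  exact hpos.ne'

end

end Pool.Agent.Q100.HK
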