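import Pool.Agent.Q100.HK.Clo
import Pool.Agent.Y485.HS.Loc

/-!
# The Baire argument
-/

set_option autoImplicit false

open MeasureTheory Set Metric Filter Topology
open scoped ENNReal NNReal

noncomputable section

namespace Pool.Agent.Q100.HK

open Pool.Agent.Y485.HS Pool.Agent.Y475.HS
open Pool.Agent.Q100.HS (netS closedBall_sub_three r_le_one ball_sub_BB rpow_mono)

theorem isOpen_triv {n : ℕ} {H : Type} [Group H] [TopologicalSpace H] (T : H → E n → E n) :
    IsOpen {x : E n | Triv T x} := by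
  rw [isOpen_iff_eventually]
  rintro x ⟨K, hK, h⟩
  filter_upwards [eventually_eventually_nhds.2 h] with y hy
  exact ⟨K, hK, hy⟩

theorem closed_enH {n : ℕ} {H : Type} [Group H] [TopologicalSpace H] {T : H → E n → E n}
    (hT : LocAct n H T) (m : ℕ) (S : Set (E n)) : IsClosed {h : H | EnV (n + 1) m (T h) S} := by
  have h1 : {h : H | EnV (n + 1) m (T h) S} =
      (resV T hT.cont) ⁻¹' {f : C(BB n, E n) | EnV (n + 1) m (extV f) S} := by
    ext h
    simp only [mem_ofPred_eq, mem_preimage]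
    constructor
    · exact en_congr fun x hx => by rw [extV_of_mem _ hx, resV_apply]
    · exact en_congr fun x hx => by rw [extV_of_mem _ hx, resV_apply]
  rw [h1]
  exact (closed_en (n + 1) m S).preimage (resV T hT.cont).continuous

/-- uniform bounds along the bad set, near a bad point -/
theorem baire_en {n : ℕ} {H : Type} [Group H] [TopologicalSpace H] [IsTopologicalGroup H]
    [CompactSpace H] [T2Space H] [TotallyDisconnectedSpace H] {T : H → E n → E n}
    (hT : LocAct n H T) (hP : ∀ h, SEn (T h)) (hex : ∃ y ∈ ball (0 : E n) 1, ¬ Triv T y) :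
    ∃ y ∈ ball (0 : E n) 1, ¬ Triv T y ∧ ∃ ρ : ℝ, 0 < ρ ∧ ball y ρ ⊆ ball (0 : E n) 1 ∧
      ∃ (h0 : H) (K : Subgroup H) (N : ℕ), IsOpen (K : Set H) ∧
        ∀ k ∈ K, EnV (n + 1) N (T (h0 * k)) {x | x ∈ ball y ρ ∧ ¬ Triv T x} := by
  set Q0 : Set (E n) := {x | x ∈ ball (0 : E n) 1 ∧ ¬ Triv T x} with hQ0
  have hlc : IsLocallyClosed Q0 := by
    have h1 : IsLocallyClosed (ball (0 : E n) 1) := isOpen_ball.isLocallyClosed
    have h2 : IsLocallyClosed {x : E n | ¬ Triv T x} := by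
      apply IsClosed.isLocallyClosed
      exact (isOpen_triv T).isClosed_compl
    exact h1.inter h2
  have hl : LocallyCompactSpace Q0 := hlc.locallyCompactSpace
  obtain ⟨y0, hy0, hy0'⟩ := hex
  have hne : Nonempty Q0 := ⟨⟨y0, hy0, hy0'⟩⟩
  -- one group element
  have hone : ∀ h : H, ∃ (b : TopologicalSpace.countableBasis Q0) (N : ℕ),
      EnV (n + 1) N (T h) (Subtype.val '' (b : Set Q0)) := by
    intro h
    obtain ⟨S, hSc, hSu, hSE⟩ := hP h
    have hcl : ∀ i, IsClosed ((Subtype.val : Q0 → E n) ⁻¹' S i) := fun i =>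
      (hSc i).preimage continuous_subtype_val
    have hU : ⋃ i, ((Subtype.val : Q0 → E n) ⁻¹' S i) = univ := by
      ext q
      simp only [mem_iUnion, mem_univ, iff_true, mem_preimage]
      have h1 : (q : E n) ∈ closedBall (0 : E n) 2 := by
        have := q.2.1
        rw [mem_ball_zero_iff] at this
        rw [mem_closedBall_zero_iff]
        linarith
      exact mem_iUnion.1 (hSu h1)
    obtain ⟨i, q, hq⟩ := nonempty_interior_of_iUnion_of_closed hcl hU
    obtain ⟨b, hb, hqb, hbs⟩ := (TopologicalSpace.isBasis_countableBasis Q0).exists_subset_of_mem_open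
      hq isOpen_interior
    obtain ⟨N, hN⟩ := hSE i
    refine ⟨⟨b, hb⟩, N, en_mono le_rfl ?_ hN⟩
    rintro _ ⟨q', hq', rfl⟩
    have h5 : q' ∈ (Subtype.val : Q0 → E n) ⁻¹' S i := interior_subset (hbs hq')
    exact h5
  have hUH : ⋃ i : (TopologicalSpace.countableBasis Q0) × ℕ,
      {h : H | EnV (n + 1) i.2 (T h) (Subtype.val '' (i.1 : Set Q0))} = univ := by
    ext h
    simp only [mem_iUnion, mem_ofPred_eq, mem_univ, iff_true]
    obtain ⟨b, N, hb⟩ := hone h
    exact ⟨(b, N), hb⟩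
  obtain ⟨⟨b, N⟩, h0, hh0⟩ := nonempty_interior_of_iUnion_of_closed
    (fun i : (TopologicalSpace.countableBasis Q0) × ℕ =>
      closed_enH hT i.2 (Subtype.val '' (i.1 : Set Q0))) hUH
  obtain ⟨q, hq⟩ := TopologicalSpace.nonempty_of_mem_countableBasis b.2
  have hbo : IsOpen (b : Set Q0) := TopologicalSpace.isOpen_of_mem_countableBasis b.2
  obtain ⟨O, hO, hOq⟩ := isOpen_induced_iff.1 hbo
  have hqO : (q : E n) ∈ O ∩ ball (0 : E n) 1 := by
    refine ⟨?_, q.2.1⟩
    have : q ∈ Subtype.val ⁻¹' O := by rw [hOq]; exact hq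
    exact this
  obtain ⟨ρ, hρ, hρs⟩ := Metric.isOpen_iff.1 (hO.inter isOpen_ball) _ hqO
  have hopen : IsOpen ((fun k : H => h0 * k) ⁻¹'
      (interior {h : H | EnV (n + 1) N (T h) (Subtype.val '' (b : Set Q0))})) :=
    isOpen_interior.preimage (continuous_const_mul h0)
  obtain ⟨K, hK⟩ := ProfiniteGrp.exist_openNormalSubgroup_sub_open_nhds_of_one hopen (by
    rw [mem_preimage, mul_one]; exact hh0)
  refine ⟨q, q.2.1, q.2.2, ρ, hρ, fun x hx => (hρs hx).2, h0, K.toSubgroup, N, K.isOpen',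
    fun k hk => ?_⟩
  have h1 : h0 * k ∈ {h : H | EnV (n + 1) N (T h) (Subtype.val '' (b : Set Q0))} :=
    interior_subset (hK hk)
  refine en_mono le_rfl ?_ h1
  rintro x ⟨hx, hxt⟩
  refine ⟨⟨x, (hρs hx).2, hxt⟩, ?_, rfl⟩
  rw [← hOq]
  exact (hρs hx).1

end Pool.Agent.Q100.HK
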