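import Pool.Agent.Q100.HK.Sep
import Pool.Agent.Q100.HS.Clo

/-!
# The set of maps of small energy is closed and convex; averages
-/

set_option autoImplicit false

open MeasureTheory Set Metric Filter Topology
open scoped ENNReal NNReal

noncomputable section

namespace Pool.Agent.Q100.HK

open Pool.Agent.Y485.HS Pool.Agent.Y475.HS
open Pool.Agent.Q100.HS (netS closedBall_sub_three r_le_one ball_sub_BB rpow_mono)

variable {V : Type} [NormedAddCommGroup V]

/-- extension by zero -/
def extV {n : ℕ} (f : C(BB n, V)) (x : E n) : V := by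
  classical exact if h : x ∈ BB n then f ⟨x, h⟩ else 0

lemma extV_of_mem {n : ℕ} (f : C(BB n, V)) {x : E n} (h : x ∈ BB n) :
    extV f x = f ⟨x, h⟩ := by
  unfold extV; rw [dif_pos h]

/-- the restriction of the maps `T k` to the ball, as a continuous map -/
def resV {n : ℕ} {K : Type} [TopologicalSpace K] (T : K → E n → V)
    (hT : ContinuousOn (fun q : K × E n => T q.1 q.2) (univ ×ˢ BB n)) : C(K, C(BB n, V)) :=
  ContinuousMap.curry ⟨fun q : K × BB n => T q.1 q.2, by
    have h2 : Continuous (fun q : K × BB n => ((q.1, (q.2 : E n)) : K × E n)) :=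
      continuous_fst.prodMk (continuous_subtype_val.comp continuous_snd)
    exact hT.comp_continuous h2 (fun q => ⟨mem_univ _, q.2.2⟩)⟩

lemma resV_apply {n : ℕ} {K : Type} [TopologicalSpace K] (T : K → E n → V)
    (hT : ContinuousOn (fun q : K × E n => T q.1 q.2) (univ ×ˢ BB n)) (k : K) (x : BB n) :
    resV T hT k x = T k x := rfl

lemma bdd_img {n : ℕ} {u : E n → V} (hu : ContinuousOn u (BB n)) {s : Set (E n)}
    (hs : s ⊆ BB n) : Bornology.IsBounded (u '' s) :=
  ((isCompact_closedBall (0 : E n) 4).image_of_continuousOn hu).isBounded.subset (image_mono hs)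

lemma extV_cont {n : ℕ} (f : C(BB n, V)) : ContinuousOn (extV f) (BB n) := by
  rw [continuousOn_iff_continuous_domRestrict]
  have : (BB n).domRestrict (extV f) = f := by
    ext1 x
    exact extV_of_mem f x.2
  rw [this]
  exact f.continuous

lemma diam_lip {n : ℕ} {s : Set (E n)} (hs : s ⊆ BB n) :
    LipschitzWith 2 (fun f : C(BB n, V) => Metric.diam (extV f '' s)) := by
  refine LipschitzWith.of_le_add_mul 2 fun f g => ?_
  have hd : 0 ≤ dist f g := dist_nonneg
  have h0 : 0 ≤ Metric.diam (extV g '' s) := Metric.diam_nonneg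
  refine Metric.diam_le_of_forall_dist_le (by positivity) ?_
  rintro _ ⟨x, hx, rfl⟩ _ ⟨y, hy, rfl⟩
  have h1 : dist (extV f x) (extV g x) ≤ dist f g := by
    rw [extV_of_mem f (hs hx), extV_of_mem g (hs hx)]
    exact ContinuousMap.dist_apply_le_dist _
  have h2 : dist (extV g y) (extV f y) ≤ dist f g := by
    rw [dist_comm, extV_of_mem f (hs hy), extV_of_mem g (hs hy)]
    exact ContinuousMap.dist_apply_le_dist _
  have h3 : dist (extV g x) (extV g y) ≤ Metric.diam (extV g '' s) :=
    Metric.dist_le_diam_of_mem (bdd_img (extV_cont g) hs) (mem_image_of_mem _ hx)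
      (mem_image_of_mem _ hy)
  have h4 := dist_triangle4 (extV f x) (extV g x) (extV g y) (extV f y)
  have h5 : ((2 : ℝ≥0) : ℝ) = 2 := by norm_num
  rw [h5]
  linarith

lemma closed_en {n : ℕ} (e N : ℕ) (S : Set (E n)) :
    IsClosed {f : C(BB n, V) | EnV e N (extV f) S} := by
  by_cases hN : 0 < N
  · have h1 : {f : C(BB n, V) | EnV e N (extV f) S} =
        ⋂ (r : ℝ) (_ : 0 < r) (_ : N * r < 1) (A : Finset (E n))
          (_ : ∀ a ∈ A, a ∈ S ∧ a ∈ closedBall (0 : E n) 2)
          (_ : ∀ a ∈ A, ∀ b ∈ A, a ≠ b → r ≤ dist a b),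
          {f : C(BB n, V) | ∑ a ∈ A, Metric.diam (extV f '' closedBall a r) ^ e ≤
            N * r ^ (1 / (N : ℝ) - 1)} := by
      ext f
      simp only [mem_iInter, mem_ofPred_eq, EnV, hN, true_and]
    rw [h1]
    refine isClosed_iInter fun r => isClosed_iInter fun hr => isClosed_iInter fun hNr =>
      isClosed_iInter fun A => isClosed_iInter fun hA => isClosed_iInter fun _ => ?_
    refine isClosed_le ?_ continuous_const
    exact continuous_finsetSum _ fun a ha =>
      ((diam_lip (ball_sub_BB (hA a ha).2 (r_le_one hN hr hNr))).continuous).pow e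
  · have h1 : {f : C(BB n, V) | EnV e N (extV f) S} = ∅ := by
      ext f
      simp only [mem_ofPred_eq, mem_empty_iff_false, iff_false]
      exact fun h => hN h.1
    rw [h1]
    exact isClosed_empty

lemma en_congr {n e N : ℕ} {u v : E n → V} {S : Set (E n)} (h : ∀ x ∈ BB n, u x = v x)
    (hu : EnV e N u S) : EnV e N v S := by
  refine ⟨hu.1, fun r hr hNr A hA hAs => ?_⟩
  have h1 : ∀ a ∈ A, v '' closedBall a r = u '' closedBall a r := fun a ha =>
    image_congr fun x hx => (h x (ball_sub_BB (hA a ha).2 (r_le_one hu.1 hr hNr) hx)).symm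
  have h2 := hu.2 r hr hNr A hA hAs
  calc ∑ a ∈ A, Metric.diam (v '' closedBall a r) ^ e
      = ∑ a ∈ A, Metric.diam (u '' closedBall a r) ^ e :=
        Finset.sum_congr rfl fun a ha => by rw [h1 a ha]
    _ ≤ _ := h2

lemma en_mono {n e N M : ℕ} {u : E n → V} {S S' : Set (E n)} (hNM : N ≤ M) (hS : S' ⊆ S)
    (hu : EnV e N u S) : EnV e M u S' := by
  obtain ⟨hN, hu⟩ := hu
  refine ⟨hN.trans_le hNM, fun r hr hMr A hA hAs => ?_⟩
  have hM' : (N : ℝ) ≤ M := by exact_mod_cast hNM
  have hNr : N * r < 1 := lt_of_le_of_lt (by gcongr) hMr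
  exact (hu r hr hNr A (fun a ha => ⟨hS (hA a ha).1, (hA a ha).2⟩) hAs).trans
    (rpow_mono hN hNM hr (r_le_one hN hr hNr))

/-- comparison of diameters -/
lemma en_of_dist {n e N : ℕ} {W : Type} [PseudoMetricSpace W] {u : E n → V} {v : E n → W}
    {S : Set (E n)} (huc : ContinuousOn u (BB n))
    (h : ∀ x ∈ BB n, ∀ y ∈ BB n, dist (v x) (v y) ≤ dist (u x) (u y))
    (hu : EnV e N u S) : EnV e N v S := by
  refine ⟨hu.1, fun r hr hNr A hA hAs => ?_⟩
  refine le_trans (Finset.sum_le_sum fun a ha => ?_) (hu.2 r hr hNr A hA hAs)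
  refine pow_le_pow_left₀ Metric.diam_nonneg ?_ e
  have hsub := ball_sub_BB (hA a ha).2 (r_le_one hu.1 hr hNr)
  refine Metric.diam_le_of_forall_dist_le Metric.diam_nonneg ?_
  rintro _ ⟨x, hx, rfl⟩ _ ⟨y, hy, rfl⟩
  exact (h x (hsub hx) y (hsub hy)).trans (Metric.dist_le_diam_of_mem (bdd_img huc hsub)
    (mem_image_of_mem _ hx) (mem_image_of_mem _ hy))

/-- pairs of maps -/
lemma en_pair {n e N : ℕ} {W : Type} [NormedAddCommGroup W] {u : E n → V} {v : E n → W}
    {S : Set (E n)} (huc : ContinuousOn u (BB n)) (hvc : ContinuousOn v (BB n))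
    (hu : EnV e N u S) (hv : EnV e N v S) : EnV e (2 * N) (fun x => (u x, v x)) S := by
  have hN := hu.1
  refine ⟨by omega, fun r hr hNr A hA hAs => ?_⟩
  have hNr' : (N : ℝ) * r < 1 := by
    refine lt_of_le_of_lt ?_ hNr
    have : (N : ℝ) ≤ ((2 * N : ℕ) : ℝ) := by exact_mod_cast (by omega : N ≤ 2 * N)
    gcongr
  have hr1 := r_le_one hN hr hNr'
  have h1 := hu.2 r hr hNr' A hA hAs
  have h2 := hv.2 r hr hNr' A hA hAs
  have h3 : ∀ a ∈ A, Metric.diam ((fun x => (u x, v x)) '' closedBall a r) ^ e ≤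
      Metric.diam (u '' closedBall a r) ^ e + Metric.diam (v '' closedBall a r) ^ e := by
    intro a ha
    have hsub := ball_sub_BB (hA a ha).2 hr1
    have h4 : Metric.diam ((fun x => (u x, v x)) '' closedBall a r) ≤
        max (Metric.diam (u '' closedBall a r)) (Metric.diam (v '' closedBall a r)) := by
      refine Metric.diam_le_of_forall_dist_le (le_max_of_le_left Metric.diam_nonneg) ?_
      rintro _ ⟨x, hx, rfl⟩ _ ⟨y, hy, rfl⟩
      rw [Prod.dist_eq]
      exact max_le_max (Metric.dist_le_diam_of_mem (bdd_img huc hsub)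
        (mem_image_of_mem _ hx) (mem_image_of_mem _ hy))
        (Metric.dist_le_diam_of_mem (bdd_img hvc hsub)
        (mem_image_of_mem _ hx) (mem_image_of_mem _ hy))
    refine (pow_le_pow_left₀ Metric.diam_nonneg h4 e).trans ?_
    have h5 : 0 ≤ Metric.diam (u '' closedBall a r) ^ e := pow_nonneg Metric.diam_nonneg e
    have h6 : 0 ≤ Metric.diam (v '' closedBall a r) ^ e := pow_nonneg Metric.diam_nonneg e
    rcases max_choice (Metric.diam (u '' closedBall a r)) (Metric.diam (v '' closedBall a r))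
      with h | h
    · rw [h]; linarith
    · rw [h]; linarith
  calc ∑ a ∈ A, Metric.diam ((fun x => (u x, v x)) '' closedBall a r) ^ e
      ≤ ∑ a ∈ A, (Metric.diam (u '' closedBall a r) ^ e +
          Metric.diam (v '' closedBall a r) ^ e) := Finset.sum_le_sum h3
    _ ≤ N * r ^ (1 / (N : ℝ) - 1) + N * r ^ (1 / (N : ℝ) - 1) := by
        rw [Finset.sum_add_distrib]
        exact add_le_add h1 h2
    _ = ((2 * N : ℕ) : ℝ) * r ^ (1 / (N : ℝ) - 1) := by push_cast; ring
    _ ≤ ((2 * N : ℕ) : ℝ) * r ^ (1 / ((2 * N : ℕ) : ℝ) - 1) := by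
        have hN' : (0 : ℝ) < N := by exact_mod_cast hN
        have h7 : (1 : ℝ) / ((2 * N : ℕ) : ℝ) ≤ 1 / N :=
          one_div_le_one_div_of_le hN' (by exact_mod_cast (by omega : N ≤ 2 * N))
        have h8 : r ^ (1 / (N : ℝ) - 1) ≤ r ^ (1 / ((2 * N : ℕ) : ℝ) - 1) :=
          Real.rpow_le_rpow_of_exponent_ge hr hr1 (by linarith)
        gcongr

variable [NormedSpace ℝ V]

lemma diam_conv {n : ℕ} (f g : C(BB n, V)) (a b : ℝ) (ha : 0 ≤ a) (hb : 0 ≤ b)
    {s : Set (E n)} (hs : s ⊆ BB n) :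
    Metric.diam (extV (a • f + b • g) '' s) ≤
      a * Metric.diam (extV f '' s) + b * Metric.diam (extV g '' s) := by
  have h0 : 0 ≤ Metric.diam (extV g '' s) := Metric.diam_nonneg
  have h0' : 0 ≤ Metric.diam (extV f '' s) := Metric.diam_nonneg
  refine Metric.diam_le_of_forall_dist_le (by positivity) ?_
  rintro _ ⟨x, hx, rfl⟩ _ ⟨y, hy, rfl⟩
  have hf : dist (extV f x) (extV f y) ≤ Metric.diam (extV f '' s) :=
    Metric.dist_le_diam_of_mem (bdd_img (extV_cont f) hs) (mem_image_of_mem _ hx)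
      (mem_image_of_mem _ hy)
  have hg : dist (extV g x) (extV g y) ≤ Metric.diam (extV g '' s) :=
    Metric.dist_le_diam_of_mem (bdd_img (extV_cont g) hs) (mem_image_of_mem _ hx)
      (mem_image_of_mem _ hy)
  have hval : ∀ z (hz : z ∈ s), extV (a • f + b • g) z = a • extV f z + b • extV g z := by
    intro z hz
    rw [extV_of_mem _ (hs hz), extV_of_mem _ (hs hz), extV_of_mem _ (hs hz)]
    rfl
  rw [hval x hx, hval y hy]
  refine (dist_add_add_le _ _ _ _).trans ?_
  rw [dist_smul₀, dist_smul₀, Real.norm_of_nonneg ha, Real.norm_of_nonneg hb]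
  gcongr

lemma convex_en {n : ℕ} (e N : ℕ) (S : Set (E n)) :
    Convex ℝ {f : C(BB n, V) | EnV e N (extV f) S} := by
  intro f hf g hg a b ha hb hab
  refine ⟨hf.1, fun r hr hNr A hA hAs => ?_⟩
  have h1 := hf.2 r hr hNr A hA hAs
  have h2 := hg.2 r hr hNr A hA hAs
  calc ∑ c ∈ A, Metric.diam (extV (a • f + b • g) '' closedBall c r) ^ e
      ≤ ∑ c ∈ A, (a * Metric.diam (extV f '' closedBall c r) ^ e +
          b * Metric.diam (extV g '' closedBall c r) ^ e) := by
        refine Finset.sum_le_sum fun c hc => ?_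
        have h3 : Metric.diam (extV (a • f + b • g) '' closedBall c r) ^ e ≤
            (a * Metric.diam (extV f '' closedBall c r) +
              b * Metric.diam (extV g '' closedBall c r)) ^ e :=
          pow_le_pow_left₀ Metric.diam_nonneg
            (diam_conv f g a b ha hb (ball_sub_BB (hA c hc).2 (r_le_one hf.1 hr hNr))) e
        have h4 := (convexOn_pow (𝕜 := ℝ) e).2
          (show Metric.diam (extV f '' closedBall c r) ∈ Ici (0 : ℝ) from Metric.diam_nonneg)
          (show Metric.diam (extV g '' closedBall c r) ∈ Ici (0 : ℝ) from Metric.diam_nonneg)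
          ha hb hab
        simp only [smul_eq_mul] at h4
        exact h3.trans h4
    _ = a * ∑ c ∈ A, Metric.diam (extV f '' closedBall c r) ^ e +
          b * ∑ c ∈ A, Metric.diam (extV g '' closedBall c r) ^ e := by
        rw [Finset.sum_add_distrib, Finset.mul_sum, Finset.mul_sum]
    _ ≤ a * (N * r ^ (1 / (N : ℝ) - 1)) + b * (N * r ^ (1 / (N : ℝ) - 1)) := by
        gcongr
    _ = N * r ^ (1 / (N : ℝ) - 1) := by rw [← add_mul, hab, one_mul]

variable [CompleteSpace V]

/-- averages of maps of small energy have small energy -/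
theorem ave {n : ℕ} {Ω : Type} [TopologicalSpace Ω] [CompactSpace Ω] [MeasurableSpace Ω]
    [BorelSpace Ω] (μ : Measure Ω) [IsProbabilityMeasure μ] {T : Ω → E n → V}
    (hT : ContinuousOn (fun q : Ω × E n => T q.1 q.2) (univ ×ˢ BB n)) {e N : ℕ}
    {S : Set (E n)} (hTN : ∀ ω, EnV e N (T ω) S) : EnV e N (fun x => ∫ ω, T ω x ∂μ) S := by
  let Φ : C(Ω, C(BB n, V)) := resV T hT
  have hint : Integrable (fun ω => Φ ω) μ :=
    Φ.continuous.integrable_of_hasCompactSupport (HasCompactSupport.of_compactSpace _)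
  have hae : ∀ᵐ ω ∂μ, Φ ω ∈ {f : C(BB n, V) | EnV e N (extV f) S} := by
    refine Eventually.of_forall fun ω => ?_
    exact en_congr (fun x hx => by rw [extV_of_mem _ hx, resV_apply]) (hTN ω)
  have hconv := convex_en (V := V) (n := n) e N S
  have hclos := closed_en (V := V) (n := n) e N S
  have hmem : ∫ ω, Φ ω ∂μ ∈ {f : C(BB n, V) | EnV e N (extV f) S} :=
    Convex.integral_mem hconv hclos hae hint
  have heval : ∀ x : BB n, ∫ ω, T ω x.1 ∂μ = (∫ ω, Φ ω ∂μ : C(BB n, V)) x := by
    intro x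
    have := (ContinuousMap.evalCLM ℝ x : C(BB n, V) →L[ℝ] V).integral_comp_comm hint
    exact this
  refine en_congr (fun x hx => ?_) hmem
  rw [extV_of_mem _ hx]
  exact (heval ⟨x, hx⟩).symm

/-- averages are continuous -/
theorem ave_cont {n : ℕ} {Ω : Type} [TopologicalSpace Ω] [CompactSpace Ω] [MeasurableSpace Ω]
    [BorelSpace Ω] (μ : Measure Ω) [IsProbabilityMeasure μ] {T : Ω → E n → V}
    (hT : ContinuousOn (fun q : Ω × E n => T q.1 q.2) (univ ×ˢ BB n)) :
    ContinuousOn (fun x => ∫ ω, T ω x ∂μ) (BB n) := by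
  let Φ : C(Ω, C(BB n, V)) := resV T hT
  have hint : Integrable (fun ω => Φ ω) μ :=
    Φ.continuous.integrable_of_hasCompactSupport (HasCompactSupport.of_compactSpace _)
  have heval : ∀ x : BB n, ∫ ω, T ω x.1 ∂μ = (∫ ω, Φ ω ∂μ : C(BB n, V)) x := by
    intro x
    have := (ContinuousMap.evalCLM ℝ x : C(BB n, V) →L[ℝ] V).integral_comp_comm hint
    exact this
  rw [continuousOn_iff_continuous_domRestrict]
  have : (BB n).domRestrict (fun x => ∫ ω, T ω x ∂μ) = (∫ ω, Φ ω ∂μ : C(BB n, V)) := by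
    ext1 x
    exact heval x
  rw [this]
  exact (∫ ω, Φ ω ∂μ : C(BB n, V)).continuous

end Pool.Agent.Q100.HK
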