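import Pool.Agent.Q100.HK.Clo
import Pool.Agent.Q100.HS.CtEn

/-!
# Controlled points have small energy
-/

set_option autoImplicit false

open MeasureTheory Set Metric Filter Topology
open scoped ENNReal NNReal

noncomputable section

namespace Pool.Agent.Q100.HK

open Pool.Agent.Y485.HS
open Pool.Agent.Q100.HS (netS closedBall_sub_three r_le_one ball_sub_BB rpow_mono card_sep
  img_ball exists_sphere)

/-- controlled points have small energy -/
theorem en_of_ct {n : ℕ} (hn : 1 ≤ n) {H : Type} [Group H] [TopologicalSpace H]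
    {T : H → E n → E n} (hT : LocAct n H T) (h : H) {N : ℕ} (hN : 0 < N) {S : Set (E n)}
    (hS : ∀ x ∈ S, x ∈ closedBall (0 : E n) 2 → CtE N (T h) x) :
    EnV (n + 1) (N * N + 2 ^ (n + 1) * N * ((5 * N) ^ n + (4 * (2 * N + 1)) ^ n)) (T h) S := by
  classical
  set M : ℕ := N * N + 2 ^ (n + 1) * N * ((5 * N) ^ n + (4 * (2 * N + 1)) ^ n) with hM
  have hM0 : 0 < M := by positivity
  have hNM : N ≤ M := by
    have : N * 1 ≤ N * N := Nat.mul_le_mul_left N hN
    omega
  refine ⟨hM0, fun s hs hMs A hA hAs => ?_⟩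
  have hN' : (0 : ℝ) < N := by exact_mod_cast hN
  have hN1 : (1 : ℝ) ≤ N := by exact_mod_cast hN
  have hs1 : s ≤ 1 := r_le_one hM0 hs hMs
  set r : ℝ := N * s with hr
  have hr0 : 0 < r := by positivity
  have hsr : s ≤ r := by rw [hr]; nlinarith
  have hNr : N * r < 1 := by
    have h1 : ((N * N : ℕ) : ℝ) ≤ (M : ℝ) := by
      have : N * N ≤ M := by omega
      exact_mod_cast this
    have h2 : (N : ℝ) * r = ((N * N : ℕ) : ℝ) * s := by rw [hr]; push_cast; ring
    rw [h2]
    exact lt_of_le_of_lt (by gcongr) hMs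
  have hr1 : r ≤ 1 := r_le_one hN hr0 hNr
  set u := T h with hu
  have haB : ∀ a ∈ A, a ∈ BB n := fun a ha =>
    closedBall_subset_closedBall (by norm_num) (hA a ha).2
  have hcB : ∀ a ∈ A, closedBall a r ⊆ BB n := fun a ha => ball_sub_BB (hA a ha).2 hr1
  have huc : ContinuousOn u (BB n) := hT.cont_right h
  -- the farthest point of the small ball and the closest point of the large sphere
  have hmax : ∀ a ∈ A, ∃ y ∈ closedBall a s, ∀ y' ∈ closedBall a s,
      dist (u y') (u a) ≤ dist (u y) (u a) := by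
    intro a ha
    have h1 : ContinuousOn (fun y => dist (u y) (u a)) (closedBall a s) :=
      continuous_dist.comp_continuousOn ((huc.mono ((closedBall_subset_closedBall hsr).trans
        (hcB a ha))).prodMk continuousOn_const)
    obtain ⟨y, hy, hy'⟩ := (isCompact_closedBall a s).exists_isMaxOn
      ⟨a, mem_closedBall_self hs.le⟩ h1
    exact ⟨y, hy, fun y' hy'' => hy' hy''⟩
  have hmin : ∀ a ∈ A, ∃ z ∈ sphere a r, ∀ z' ∈ sphere a r,
      dist (u z) (u a) ≤ dist (u z') (u a) := by
    intro a ha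
    have h1 : ContinuousOn (fun y => dist (u y) (u a)) (sphere a r) :=
      continuous_dist.comp_continuousOn ((huc.mono (sphere_subset_closedBall.trans
        (hcB a ha))).prodMk continuousOn_const)
    obtain ⟨y, hy, hy'⟩ := (isCompact_sphere a r).exists_isMinOn
      (exists_sphere hn a hr0.le) h1
    exact ⟨y, hy, fun y' hy'' => hy' hy''⟩
  choose! Y hY1 hY2 using hmax
  choose! Z hZ1 hZ2 using hmin
  set l : E n → ℝ := fun a => dist (u (Z a)) (u a) with hl
  -- one ball
  have hball : ∀ a ∈ A, Metric.diam (u '' closedBall a s) ^ (n + 1) ≤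
      2 ^ (n + 1) * (N * r ^ (1 / (N : ℝ) - 1) * (r ^ n + l a ^ n)) := by
    intro a ha
    have h1 : Metric.diam (u '' closedBall a s) ≤ 2 * dist (u (Y a)) (u a) := by
      refine Metric.diam_le_of_forall_dist_le (by positivity) ?_
      rintro _ ⟨x, hx, rfl⟩ _ ⟨x', hx', rfl⟩
      have h2 := dist_triangle_right (u x) (u x') (u a)
      have h3 := hY2 a ha x hx
      have h4 := hY2 a ha x' hx'
      linarith
    have h2 : Metric.diam (u '' closedBall a s) ^ (n + 1) ≤
        (2 * dist (u (Y a)) (u a)) ^ (n + 1) :=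
      pow_le_pow_left₀ diam_nonneg h1 (n + 1)
    have h3 : dist (Z a) a = r := hZ1 a ha
    have h4 := hS a (hA a ha).1 (hA a ha).2 (Y a) (hcB a ha
      (closedBall_subset_closedBall hsr (hY1 a ha))) (Z a)
      (hcB a ha (sphere_subset_closedBall (hZ1 a ha))) (by
        rw [h3, hr]
        have : dist (Y a) a ≤ s := hY1 a ha
        gcongr) (by rw [h3]; exact hNr)
    rw [h3] at h4
    have h5 : dist (u (Y a)) (u a) ^ (n + 1) ≤ N * r ^ (1 / (N : ℝ) - 1) * (r ^ n + l a ^ n) := by
      rw [Real.rpow_sub_one hr0.ne']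
      have h6 : (N : ℝ) * (r ^ (1 / (N : ℝ)) / r) * (r ^ n + l a ^ n) =
          (N * r ^ (1 / (N : ℝ)) * (r ^ n + l a ^ n)) / r := by ring
      rw [h6, le_div_iff₀ hr0, mul_comm]
      exact h4
    calc Metric.diam (u '' closedBall a s) ^ (n + 1) ≤
          (2 * dist (u (Y a)) (u a)) ^ (n + 1) := h2
      _ = 2 ^ (n + 1) * dist (u (Y a)) (u a) ^ (n + 1) := mul_pow _ _ _
      _ ≤ _ := by gcongr
  -- the number of balls
  have hcard : (A.card : ℝ) * r ^ n ≤ (5 * N : ℝ) ^ n := by
    have h1 := card_sep hs (by norm_num : (0 : ℝ) ≤ 2) 0 A (fun a ha => (hA a ha).2) hAs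
    calc (A.card : ℝ) * r ^ n = N ^ n * ((A.card : ℝ) * s ^ n) := by rw [hr, mul_pow]; ring
      _ ≤ N ^ n * (2 * 2 + s) ^ n := by gcongr
      _ ≤ N ^ n * 5 ^ n := by
          have h2 : (2 * 2 + s) ^ n ≤ 5 ^ n := pow_le_pow_left₀ (by positivity) (by linarith) n
          gcongr
      _ = (5 * N : ℝ) ^ n := by rw [mul_pow]; ring
  -- the images
  have hvol : ∑ a ∈ A, l a ^ n ≤ (4 * (2 * N + 1) : ℝ) ^ n := by
    set κ := volume (ball (0 : E n) 1) with hκ
    have hκt : κ ≠ ∞ := measure_ball_lt_top.ne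
    have hκ0 : κ ≠ 0 := (measure_ball_pos volume (0 : E n) one_pos).ne'
    have hl0 : ∀ a, 0 ≤ l a := fun a => dist_nonneg
    have hl32 : ∀ a ∈ A, l a ≤ 3 / 2 := by
      intro a ha
      have h1 := hT.disp h (Z a) (hcB a ha (sphere_subset_closedBall (hZ1 a ha)))
      have h2 := hT.disp h a (haB a ha)
      have h3 : dist (Z a) a = r := hZ1 a ha
      have h4 := dist_triangle4 (u (Z a)) (Z a) a (u a)
      rw [dist_comm a (u a)] at h4
      show dist (u (Z a)) (u a) ≤ 3 / 2
      linarith
    have hsubB : ∀ a ∈ A, ball (u a) (l a) ⊆ BB n := fun a ha q hq =>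
      (img_ball hT h (hA a ha).2 hr0 hr1 (hl32 a ha) (hZ2 a ha) hq).1
    have h1 : ∑ a ∈ A, volume (ball (u a) (l a)) ≤
        ((2 * N + 1 : ℕ) : ℝ≥0∞) ^ n * volume (BB n) := by
      have h2 : ∑ a ∈ A, volume (ball (u a) (l a)) =
          ∫⁻ q, ∑ a ∈ A, (ball (u a) (l a)).indicator (fun _ => (1 : ℝ≥0∞)) q := by
        rw [lintegral_finsetSum _ fun a _ => measurable_const.indicator measurableSet_ball]
        refine Finset.sum_congr rfl fun a _ => ?_
        rw [lintegral_indicator measurableSet_ball, lintegral_const,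
          Measure.restrict_apply MeasurableSet.univ, univ_inter, one_mul]
      rw [h2]
      calc ∫⁻ q, ∑ a ∈ A, (ball (u a) (l a)).indicator (fun _ => (1 : ℝ≥0∞)) q
          ≤ ∫⁻ q, (BB n).indicator (fun _ => ((2 * N + 1 : ℕ) : ℝ≥0∞) ^ n) q := by
            refine lintegral_mono fun q => ?_
            have h3 : ∑ a ∈ A, (ball (u a) (l a)).indicator (fun _ => (1 : ℝ≥0∞)) q =
                ((A.filter (fun a => q ∈ ball (u a) (l a))).card : ℝ≥0∞) := by
              simp only [Set.indicator_apply]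
              rw [← Finset.sum_filter, Finset.sum_const, nsmul_eq_mul, mul_one]
            rw [h3]
            rcases (A.filter (fun a => q ∈ ball (u a) (l a))).eq_empty_or_nonempty with h4 | h4
            · rw [h4]
              simp
            · obtain ⟨a0, ha0⟩ := h4
              rw [Finset.mem_filter] at ha0
              have hqB := hsubB a0 ha0.1 ha0.2
              rw [Set.indicator_of_mem hqB]
              have h5 := card_sep hs hr0.le (T h⁻¹ q)
                (A.filter (fun a => q ∈ ball (u a) (l a))) (fun a ha => by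
                  rw [Finset.mem_filter] at ha
                  have h6 := (img_ball hT h (hA a ha.1).2 hr0 hr1 (hl32 a ha.1)
                    (hZ2 a ha.1) ha.2).2
                  rw [mem_closedBall] at h6 ⊢
                  rw [dist_comm]
                  exact h6) (fun a ha b hb => hAs a (Finset.mem_filter.1 ha).1 b
                    (Finset.mem_filter.1 hb).1)
              have h7 : (2 * r + s) ^ n = (2 * N + 1) ^ n * s ^ n := by
                rw [hr, ← mul_pow]
                congr 1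
                ring
              rw [h7] at h5
              have h8 : ((A.filter (fun a => q ∈ ball (u a) (l a))).card : ℝ) ≤
                  (2 * N + 1) ^ n := le_of_mul_le_mul_right h5 (by positivity)
              have h9 : (A.filter (fun a => q ∈ ball (u a) (l a))).card ≤ (2 * N + 1) ^ n := by
                exact_mod_cast h8
              rw [← Nat.cast_pow]
              exact Nat.cast_le.2 h9
        _ = ((2 * N + 1 : ℕ) : ℝ≥0∞) ^ n * volume (BB n) := by
            have hBm : MeasurableSet (BB n) := measurableSet_closedBall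
            rw [lintegral_indicator hBm, lintegral_const,
              Measure.restrict_apply MeasurableSet.univ, univ_inter]
    have h2 : ∀ a : E n, volume (ball (u a) (l a)) = ENNReal.ofReal (l a ^ n) * κ := by
      intro a
      rcases (hl0 a).eq_or_lt with h3 | h3
      · rw [← h3, ball_zero, measure_empty, zero_pow (by omega)]
        simp
      · rw [Measure.addHaar_ball_of_pos volume _ h3, finrank_euclideanSpace_fin]
    have h3 : volume (BB n) = ENNReal.ofReal (4 ^ n) * κ := by
      unfold BB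
      rw [Measure.addHaar_closedBall volume _ (by norm_num), finrank_euclideanSpace_fin]
    simp only [h2] at h1
    rw [← Finset.sum_mul, h3, ← mul_assoc] at h1
    have h4 := (ENNReal.mul_le_mul_iff_left hκ0 hκt).1 h1
    have h5 : ((2 * N + 1 : ℕ) : ℝ≥0∞) ^ n * ENNReal.ofReal (4 ^ n) =
        ENNReal.ofReal ((4 * (2 * N + 1) : ℝ) ^ n) := by
      rw [← ENNReal.ofReal_natCast, ← ENNReal.ofReal_pow (by positivity),
        ← ENNReal.ofReal_mul (by positivity), ← mul_pow]
      congr 2
      push_cast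
      ring
    rw [h5, ← ENNReal.ofReal_sum_of_nonneg fun a _ => pow_nonneg (hl0 a) n] at h4
    exact (ENNReal.ofReal_le_ofReal_iff (by positivity)).1 h4
  -- the sum
  have hrs : r ^ (1 / (N : ℝ) - 1) ≤ s ^ (1 / (N : ℝ) - 1) := by
    refine Real.rpow_le_rpow_of_nonpos hs hsr ?_
    have : 1 / (N : ℝ) ≤ 1 := by
      rw [div_le_one hN']
      exact hN1
    linarith
  have hsM : s ^ (1 / (N : ℝ) - 1) ≤ s ^ (1 / (M : ℝ) - 1) := by
    refine Real.rpow_le_rpow_of_exponent_ge hs hs1 ?_
    have : (1 : ℝ) / M ≤ 1 / N := one_div_le_one_div_of_le hN' (by exact_mod_cast hNM)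
    linarith
  calc ∑ a ∈ A, Metric.diam (u '' closedBall a s) ^ (n + 1)
      ≤ ∑ a ∈ A, 2 ^ (n + 1) * (N * r ^ (1 / (N : ℝ) - 1) * (r ^ n + l a ^ n)) :=
        Finset.sum_le_sum hball
    _ = 2 ^ (n + 1) * (N * r ^ (1 / (N : ℝ) - 1)) * ((A.card : ℝ) * r ^ n + ∑ a ∈ A, l a ^ n) := by
        rw [← Finset.mul_sum, ← Finset.mul_sum, Finset.sum_add_distrib, Finset.sum_const,
          nsmul_eq_mul]
        ring
    _ ≤ 2 ^ (n + 1) * (N * s ^ (1 / (M : ℝ) - 1)) * ((5 * N) ^ n + (4 * (2 * N + 1)) ^ n) := by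
        have h1 : r ^ (1 / (N : ℝ) - 1) ≤ s ^ (1 / (M : ℝ) - 1) := hrs.trans hsM
        have h2 : 0 ≤ ∑ a ∈ A, l a ^ n := Finset.sum_nonneg fun a _ => pow_nonneg dist_nonneg n
        gcongr
    _ = ((2 ^ (n + 1) * N * ((5 * N) ^ n + (4 * (2 * N + 1)) ^ n) : ℕ) : ℝ) *
          s ^ (1 / (M : ℝ) - 1) := by
        push_cast
        ring
    _ ≤ M * s ^ (1 / (M : ℝ) - 1) := by
        gcongr
        omega

end Pool.Agent.Q100.HK
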