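import Pool.Agent.Y489.SP.Stm
import Pool.Agent.Y438.HS.DL
import Pool.Agent.Y983.SP.DEGP
import Pool.Agent.Y489.SP.Final

/-!
# The local degree of maps close to the identity
-/

set_option autoImplicit false

open MeasureTheory Set Metric Filter Topology
open scoped ENNReal NNReal

noncomputable section

namespace Pool.Agent.Q100.HK

open Pool.Agent.Y485.HS Pool.Agent.Y489.SP

/-- smooth maps which are the identity outside a ball, with displacement at most `c` -/
structure Ap {n : ℕ} (c : ℝ) (G : E n → E n) : Prop where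
  smooth : ContDiff ℝ 1 G
  out : ∀ x, 8 ≤ ‖x‖ → G x = x
  disp : ∀ x, dist (G x) x ≤ c

/-- limits of smooth maps on the ball of radius three -/
def AdS {n : ℕ} (G : E n → E n) : Prop :=
  ContinuousOn G (closedBall 0 3) ∧
    ∀ ε : ℝ, 0 < ε → ∃ G0, Ap 1 G0 ∧ ∀ x ∈ closedBall (0 : E n) 3, dist (G0 x) (G x) ≤ ε

/-- limits of smooth maps on a smaller ball -/
def AdW {n : ℕ} (G : E n → E n) : Prop :=
  ContinuousOn G (closedBall 0 (11 / 4)) ∧
    ∀ ε : ℝ, 0 < ε → ∃ G0, Ap (3 / 2) G0 ∧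
      ∀ x ∈ closedBall (0 : E n) (11 / 4), dist (G0 x) (G x) ≤ ε

/-- the local degree of `G` over `y` on `U` is `d` -/
def IsDeg {n : ℕ} (y : E n) (G : E n → E n) (U : Set (E n)) (d : ℤ) : Prop :=
  ∃ ε : ℝ, 0 < ε ∧ ∀ G0 : E n → E n, Ap (3 / 2) G0 →
    (∀ x ∈ closedBall (0 : E n) (11 / 4), dist (G0 x) (G x) ≤ ε) →
    ∀ φ : E n → ℝ, Continuous φ → (∀ w, ε ≤ dist w y → φ w = 0) →
      ∫ x in U, φ (G0 x) * (fderiv ℝ G0 x).det = d * ∫ w, φ w

/-- admissible regions -/
structure Ok {n : ℕ} (y : E n) (G : E n → E n) (U : Set (E n)) : Prop where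
  opn : IsOpen U
  sub : U ⊆ ball 0 2
  bd : ∀ x ∈ closure U, G x = y → x ∈ U

lemma AdS.adW {n : ℕ} {G : E n → E n} (h : AdS G) : AdW G := by
  have hsub : closedBall (0 : E n) (11 / 4) ⊆ closedBall 0 3 :=
    closedBall_subset_closedBall (by norm_num)
  refine ⟨h.1.mono hsub, fun ε hε => ?_⟩
  obtain ⟨G0, h1, h2⟩ := h.2 ε hε
  exact ⟨G0, ⟨h1.smooth, h1.out, fun x => (h1.disp x).trans (by norm_num)⟩,
    fun x hx => h2 x (hsub hx)⟩

/-- a bump function -/
lemma exists_bump {n : ℕ} (y : E n) {ε : ℝ} (hε : 0 < ε) :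
    ∃ φ : E n → ℝ, Continuous φ ∧ (∀ w, ε ≤ dist w y → φ w = 0) ∧ 0 < ∫ w, φ w ∧
      HasCompactSupport φ := by
  let φ : E n → ℝ := fun w => max 0 (ε - dist w y)
  have hφc : Continuous φ := by fun_prop
  have hφ0 : ∀ w, ε ≤ dist w y → φ w = 0 := fun w hw => max_eq_left (by linarith)
  have hφn : ∀ w, φ w ≠ 0 → dist w y < ε := by
    intro w hw
    by_contra hcon
    exact hw (hφ0 w (not_lt.mp hcon))
  have hφs : HasCompactSupport φ := by
    apply HasCompactSupport.of_support_subset_isCompact (isCompact_closedBall y ε)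
    intro w hw
    exact mem_closedBall.mpr (hφn w hw).le
  refine ⟨φ, hφc, hφ0, ?_, hφs⟩
  apply hφc.integral_pos_of_hasCompactSupport_nonneg_nonzero (x := y) hφs
  · intro w
    exact le_max_left _ _
  · change max 0 (ε - dist y y) ≠ 0
    rw [dist_self, sub_zero, max_eq_right hε.le]
    exact hε.ne'

lemma IsDeg.unique {n : ℕ} {y : E n} {G : E n → E n} {U : Set (E n)} {d d' : ℤ} (hG : AdW G)
    (h : IsDeg y G U d) (h' : IsDeg y G U d') : d = d' := by
  obtain ⟨ε, hε, h⟩ := h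
  obtain ⟨ε', hε', h'⟩ := h'
  obtain ⟨G0, hG0, hG0G⟩ := hG.2 (min ε ε') (lt_min hε hε')
  obtain ⟨φ, hφ, hφ0, hφp, -⟩ := exists_bump y (lt_min hε hε')
  have h1 := h G0 hG0 (fun x hx => (hG0G x hx).trans (min_le_left _ _)) φ hφ
    (fun w hw => hφ0 w ((min_le_left _ _).trans hw))
  have h2 := h' G0 hG0 (fun x hx => (hG0G x hx).trans (min_le_right _ _)) φ hφ
    (fun w hw => hφ0 w ((min_le_right _ _).trans hw))
  rw [h1] at h2
  have h3 : (d : ℝ) = d' := mul_right_cancel₀ hφp.ne' h2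
  exact_mod_cast h3

/-- the margin of a homotopy -/
lemma margin {n : ℕ} {y : E n} {U : Set (E n)} (hUo : IsOpen U) (hU : U.Nonempty)
    {Γ : E n × ℝ → E n}
    (hΓ : ContinuousOn Γ (closedBall (0 : E n) (11 / 4) ×ˢ Icc (0 : ℝ) 1))
    (hz : ∀ x ∈ closure U, ∀ t ∈ Icc (0 : ℝ) 1, Γ (x, t) = y → x ∈ U) :
    ∃ m : ℝ, 0 < m ∧ ∀ x ∈ closedBall (0 : E n) (11 / 4), x ∉ U → infDist x U < m →
      ∀ t ∈ Icc (0 : ℝ) 1, m ≤ dist (Γ (x, t)) y := by
  set K : Set (E n × ℝ) := (closedBall (0 : E n) (11 / 4) \ U) ×ˢ Icc (0 : ℝ) 1 with hK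
  have hKc : IsCompact K :=
    ((isCompact_closedBall (0 : E n) (11 / 4)).diff hUo).prod isCompact_Icc
  rcases K.eq_empty_or_nonempty with he | hne
  · refine ⟨1, one_pos, fun x hx hxU _ t ht => ?_⟩
    have h1 : (x, t) ∈ K := ⟨⟨hx, hxU⟩, ht⟩
    rw [he] at h1
    exact absurd h1 (notMem_empty _)
  · have hf : ContinuousOn (fun q : E n × ℝ => max (infDist q.1 U) (dist (Γ q) y)) K := by
      have h1 : ContinuousOn Γ K := hΓ.mono (prod_mono diff_subset subset_rfl)
      have h2 : Continuous (fun z : E n => dist z y) := by fun_prop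
      have h3 : Continuous (fun q : E n × ℝ => infDist q.1 U) :=
        (continuous_infDist_pt U).comp continuous_fst
      have h4 : Continuous (fun w : ℝ × ℝ => max w.1 w.2) := continuous_fst.max continuous_snd
      exact h4.comp_continuousOn (h3.continuousOn.prodMk (h2.comp_continuousOn h1))
    obtain ⟨⟨x0, t0⟩, hx0, hmin⟩ := hKc.exists_isMinOn hne hf
    obtain ⟨M, hM⟩ : ∃ M : ℝ, M = max (infDist x0 U) (dist (Γ (x0, t0)) y) := ⟨_, rfl⟩
    have hM1 : infDist x0 U ≤ M := by rw [hM]; exact le_max_left _ _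
    have hM2 : dist (Γ (x0, t0)) y ≤ M := by rw [hM]; exact le_max_right _ _
    refine ⟨M, ?_, ?_⟩
    · by_contra hcon
      have hcon' : M ≤ 0 := not_lt.1 hcon
      have h1 : infDist x0 U = 0 := le_antisymm (hM1.trans hcon') infDist_nonneg
      have h2 : dist (Γ (x0, t0)) y = 0 := le_antisymm (hM2.trans hcon') dist_nonneg
      have h3 : x0 ∈ closure U := (mem_closure_iff_infDist_zero hU).2 h1
      rw [hK, mem_prod] at hx0
      obtain ⟨⟨_, hx0U⟩, ht0⟩ := hx0
      have h4 : Γ (x0, t0) = y := dist_eq_zero.1 h2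
      have h5 := hz x0 h3 t0 ht0 h4
      exact hx0U h5
    · intro x hx hxU hxm t ht
      have h0 : (x, t) ∈ K := ⟨⟨hx, hxU⟩, ht⟩
      have h1 := isMinOn_iff.1 hmin _ h0
      simp only at h1
      rw [← hM] at h1
      rcases le_max_iff.1 h1 with h2 | h2
      · exact absurd hxm (not_lt.2 h2)
      · exact h2

/-- comparison of two smooth maps -/
lemma compare {n : ℕ} {y : E n} {U : Set (E n)} (hUo : IsOpen U) (hU2 : U ⊆ ball 0 2)
    (hU : U.Nonempty) {G G' : E n → E n} {m ε : ℝ} (hm : 0 < m) (hε : 0 < ε) (hεm : ε ≤ m / 4)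
    (hmar : ∀ x ∈ closedBall (0 : E n) (11 / 4), x ∉ U → infDist x U < m →
      ∀ t ∈ Icc (0 : ℝ) 1, m ≤ dist (G x + t • (G' x - G x)) y)
    {F0 F1 : E n → E n} {c c' : ℝ} (hF0 : Ap c F0) (hF1 : Ap c' F1)
    (h0 : ∀ x ∈ closedBall (0 : E n) (11 / 4), dist (F0 x) (G x) ≤ ε)
    (h1 : ∀ x ∈ closedBall (0 : E n) (11 / 4), dist (F1 x) (G' x) ≤ ε)
    (φ : E n → ℝ) (hφ : Continuous φ) (hφ0 : ∀ w, ε ≤ dist w y → φ w = 0) :
    ∫ x in U, φ (F1 x) * (fderiv ℝ F1 x).det = ∫ x in U, φ (F0 x) * (fderiv ℝ F0 x).det := by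
  set η : ℝ := min (m / 2) (1 / 4) with hη
  have hη0 : 0 < η := by positivity
  refine homt n F0 F1 8 hF0.smooth hF1.smooth hF0.out U (thickening η U) η (m / 4) y
    hUo ((isBounded_ball.subset hU2).thickening) hη0 (by positivity) subset_rfl ?_ φ hφ
    (fun w hw => hφ0 w (hεm.trans hw))
  rintro x ⟨hxV, hxU⟩ t ht
  have h2 : infDist x U < m := by
    rw [mem_thickening_iff_infDist_lt hU] at hxV
    have := min_le_left (m / 2) (1 / 4)
    linarith
  have h3 : x ∈ closedBall (0 : E n) (11 / 4) := by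
    obtain ⟨z, hz, hxz⟩ := mem_thickening_iff.1 hxV
    have h4 := hU2 hz
    rw [mem_ball] at h4
    rw [mem_closedBall]
    have := min_le_right (m / 2) (1 / 4)
    have := dist_triangle x z 0
    linarith
  have h4 := hmar x h3 hxU h2 t ht
  have h5 := h0 x h3
  have h6 := h1 x h3
  have h7 : dist (F0 x + t • (F1 x - F0 x)) (G x + t • (G' x - G x)) ≤ ε := by
    rw [dist_eq_norm] at h5 h6 ⊢
    have h8 : F0 x + t • (F1 x - F0 x) - (G x + t • (G' x - G x)) =
        (1 - t) • (F0 x - G x) + t • (F1 x - G' x) := by module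
    rw [h8]
    calc ‖(1 - t) • (F0 x - G x) + t • (F1 x - G' x)‖
        ≤ ‖(1 - t) • (F0 x - G x)‖ + ‖t • (F1 x - G' x)‖ := norm_add_le _ _
      _ = (1 - t) * ‖F0 x - G x‖ + t * ‖F1 x - G' x‖ := by
          rw [norm_smul, norm_smul, Real.norm_of_nonneg (by linarith [ht.2]),
            Real.norm_of_nonneg ht.1]
      _ ≤ (1 - t) * ε + t * ε :=
          add_le_add (mul_le_mul_of_nonneg_left h5 (by linarith [ht.2]))
            (mul_le_mul_of_nonneg_left h6 ht.1)
      _ = ε := by ring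
  have h8 := dist_triangle_left (G x + t • (G' x - G x)) y (F0 x + t • (F1 x - F0 x))
  linarith

lemma isDeg_empty {n : ℕ} (y : E n) (G : E n → E n) : IsDeg y G ∅ 0 :=
  ⟨1, one_pos, fun G0 _ _ φ _ _ => by simp⟩

/-- existence of the degree -/
lemma exists_deg {n : ℕ} {y : E n} {G : E n → E n} {U : Set (E n)}
    (hG : ContinuousOn G (closedBall 0 (11 / 4))) (hU : Ok y G U) : ∃ d, IsDeg y G U d := by
  rcases U.eq_empty_or_nonempty with rfl | hne
  · exact ⟨0, isDeg_empty y G⟩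
  obtain ⟨m, hm, hmar⟩ := margin (y := y) (Γ := fun q => G q.1) hU.opn hne
    (hG.comp continuousOn_fst fun q hq => hq.1) (fun x hx t _ h => hU.bd x hx h)
  have hmar' : ∀ x ∈ closedBall (0 : E n) (11 / 4), x ∉ U → infDist x U < m →
      ∀ t ∈ Icc (0 : ℝ) 1, m ≤ dist (G x + t • (G x - G x)) y := by
    intro x hx hxU hxm t ht
    rw [sub_self, smul_zero, add_zero]
    exact hmar x hx hxU hxm t ht
  by_cases hex : ∃ G0 : E n → E n, Ap (3 / 2) G0 ∧
      ∀ x ∈ closedBall (0 : E n) (11 / 4), dist (G0 x) (G x) ≤ m / 8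
  · obtain ⟨G0, hG0, hG0G⟩ := hex
    set η : ℝ := min (m / 2) (1 / 4) with hη
    have hη0 : 0 < η := by positivity
    obtain ⟨d, hd⟩ := Pool.Agent.Y147.SP.t_INT homt n G0 8 hG0.smooth hG0.out U (thickening η U)
      η (m / 4) y hU.opn ((isBounded_ball.subset hU.sub).thickening) hη0 (by positivity)
      subset_rfl (by
        rintro x ⟨hxV, hxU⟩
        have h2 : infDist x U < m := by
          rw [mem_thickening_iff_infDist_lt hne] at hxV
          have := min_le_left (m / 2) (1 / 4)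
          linarith
        have h3 : x ∈ closedBall (0 : E n) (11 / 4) := by
          obtain ⟨z, hz, hxz⟩ := mem_thickening_iff.1 hxV
          have h4 := hU.sub hz
          rw [mem_ball] at h4
          rw [mem_closedBall]
          have := min_le_right (m / 2) (1 / 4)
          have := dist_triangle x z 0
          linarith
        have h4 := hmar x h3 hxU h2 0 (by simp)
        have h5 := hG0G x h3
        have h6 := dist_triangle_left (G x) y (G0 x)
        simp only at h4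
        linarith)
    refine ⟨d, m / 8, by positivity, fun G1 hG1 hG1G φ hφ hφ0 => ?_⟩
    rw [compare hU.opn hU.sub hne hm (show (0 : ℝ) < m / 8 by positivity) (by linarith) hmar' hG0
      hG1 hG0G hG1G φ hφ hφ0]
    exact hd φ hφ (fun w hw => hφ0 w (by linarith))
  · exact ⟨0, m / 8, by positivity, fun G1 hG1 hG1G => absurd ⟨G1, hG1, hG1G⟩ hex⟩

/-- the degree -/
def dg {n : ℕ} (y : E n) (G : E n → E n) (U : Set (E n)) : ℤ := by
  classical exact if h : ∃ d, IsDeg y G U d then h.choose else 0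

lemma dg_spec {n : ℕ} {y : E n} {G : E n → E n} {U : Set (E n)}
    (hG : ContinuousOn G (closedBall 0 (11 / 4))) (hU : Ok y G U) : IsDeg y G U (dg y G U) := by
  have h := exists_deg hG hU
  unfold dg
  rw [dif_pos h]
  exact h.choose_spec

lemma dg_eq {n : ℕ} {y : E n} {G : E n → E n} {U : Set (E n)} {d : ℤ} (hG : AdW G)
    (h : IsDeg y G U d) : dg y G U = d := by
  have h' : ∃ d, IsDeg y G U d := ⟨d, h⟩
  unfold dg
  rw [dif_pos h']
  exact IsDeg.unique hG h'.choose_spec h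

/-- homotopy invariance -/
lemma dg_hom {n : ℕ} {y : E n} {G G' : E n → E n} {U : Set (E n)} (hG : AdW G) (hG' : AdW G')
    (hUo : IsOpen U) (hU2 : U ⊆ ball 0 2)
    (hz : ∀ x ∈ closure U, ∀ t ∈ Icc (0 : ℝ) 1, G x + t • (G' x - G x) = y → x ∈ U) :
    dg y G U = dg y G' U := by
  rcases U.eq_empty_or_nonempty with rfl | hne
  · rw [dg_eq hG (isDeg_empty y G), dg_eq hG' (isDeg_empty y G')]
  have hok : Ok y G U := ⟨hUo, hU2, fun x hx h => hz x hx 0 (by simp) (by simpa using h)⟩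
  obtain ⟨ε, hε, h⟩ := dg_spec hG.1 hok
  obtain ⟨m, hm, hmar⟩ := margin (y := y) (Γ := fun q => G q.1 + q.2 • (G' q.1 - G q.1)) hUo hne
    (by
      have h1 : ContinuousOn (fun q : E n × ℝ => G q.1)
          (closedBall (0 : E n) (11 / 4) ×ˢ Icc (0 : ℝ) 1) :=
        hG.1.comp continuousOn_fst fun q hq => hq.1
      have h2 : ContinuousOn (fun q : E n × ℝ => G' q.1)
          (closedBall (0 : E n) (11 / 4) ×ˢ Icc (0 : ℝ) 1) :=
        hG'.1.comp continuousOn_fst fun q hq => hq.1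
      exact h1.add (continuousOn_snd.smul (h2.sub h1)))
    (fun x hx t ht h => hz x hx t ht h)
  symm
  apply dg_eq hG'
  set ε' : ℝ := min ε (m / 4) with hε'
  have hε'0 : 0 < ε' := lt_min hε (by positivity)
  refine ⟨ε', hε'0, fun G1 hG1 hG1G φ hφ hφ0 => ?_⟩
  obtain ⟨G0, hG0, hG0G⟩ := hG.2 ε' hε'0
  rw [compare hUo hU2 hne hm hε'0 (min_le_right _ _) hmar hG0 hG1 hG0G hG1G φ hφ hφ0]
  exact h G0 hG0 (fun x hx => (hG0G x hx).trans (min_le_left _ _)) φ hφ
    (fun w hw => hφ0 w ((min_le_left _ _).trans hw))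

/-- the degree depends only on the values on the ball -/
lemma dg_congr {n : ℕ} {y : E n} {G G' : E n → E n} {U : Set (E n)} (hG : AdW G) (hG' : AdW G')
    (hU : Ok y G U) (h : ∀ x ∈ closedBall (0 : E n) 2, G x = G' x) : dg y G U = dg y G' U := by
  refine dg_hom hG hG' hU.opn hU.sub fun x hx t _ hxt => hU.bd x hx ?_
  have h2 : x ∈ closedBall (0 : E n) 2 :=
    closure_minimal (hU.sub.trans ball_subset_closedBall) isClosed_closedBall hx
  rw [← h x h2, sub_self, smul_zero, add_zero] at hxt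
  exact hxt

lemma int_on {n : ℕ} {G0 : E n → E n} (h : ContDiff ℝ 1 G0) {φ : E n → ℝ} (hφ : Continuous φ)
    {s : Set (E n)} (hs : s ⊆ ball 0 2) :
    IntegrableOn (fun x => φ (G0 x) * (fderiv ℝ G0 x).det) s := by
  have hG : Continuous (fun x => φ (G0 x) * (fderiv ℝ G0 x).det) :=
    (hφ.comp h.continuous).mul
      (ContinuousLinearMap.continuous_det.comp (h.continuous_fderiv one_ne_zero))
  have h1 : IntegrableOn (fun x => φ (G0 x) * (fderiv ℝ G0 x).det) (closedBall 0 2) :=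
    hG.continuousOn.integrableOn_compact (isCompact_closedBall _ _)
  exact h1.mono_set (hs.trans ball_subset_closedBall)

lemma ok_part {n : ℕ} {y : E n} {G : E n → E n} {U : Set (E n)} {ι : Type}
    {V : ι → Set (E n)} (hU : Ok y G U) (hVo : ∀ i, IsOpen (V i)) (hVU : ∀ i, V i ⊆ U)
    (hVd : ∀ i j, i ≠ j → Disjoint (V i) (V j)) (hz : ∀ x ∈ U, G x = y → ∃ i, x ∈ V i) (i : ι) :
    Ok y G (V i) := by
  refine ⟨hVo i, (hVU i).trans hU.sub, fun x hx hxy => ?_⟩
  obtain ⟨j, hj⟩ := hz x (hU.bd x (closure_mono (hVU i) hx) hxy) hxy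
  by_cases hij : i = j
  · rw [hij]; exact hj
  · have h1 : Disjoint (closure (V i)) (V j) := (hVd i j hij).closure_left (hVo j)
    exact absurd hj (Set.disjoint_left.1 h1 hx)

/-- additivity -/
lemma dg_add {n : ℕ} {y : E n} {G : E n → E n} {U : Set (E n)} (hG : AdW G) {ι : Type}
    [Fintype ι] {V : ι → Set (E n)} (hU : Ok y G U) (hVo : ∀ i, IsOpen (V i))
    (hVU : ∀ i, V i ⊆ U) (hVd : ∀ i j, i ≠ j → Disjoint (V i) (V j))
    (hz : ∀ x ∈ U, G x = y → ∃ i, x ∈ V i) : dg y G U = ∑ i, dg y G (V i) := by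
  classical
  apply dg_eq hG
  have hsp := fun i => dg_spec hG.1 (ok_part hU hVo hVU hVd hz i)
  choose ε hε h using hsp
  -- the margin
  obtain ⟨m, hm, hmar⟩ : ∃ m : ℝ, 0 < m ∧ ∀ x ∈ U, (∀ i, x ∉ V i) → m ≤ dist (G x) y := by
    have hK : IsCompact (closure U \ ⋃ i, V i) := by
      have h1 : IsCompact (closure U) :=
        (isCompact_closedBall (0 : E n) 2).of_isClosed_subset isClosed_closure
          (closure_minimal (hU.sub.trans ball_subset_closedBall) isClosed_closedBall)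
      exact h1.diff (isOpen_iUnion hVo)
    rcases (closure U \ ⋃ i, V i).eq_empty_or_nonempty with he | hne
    · refine ⟨1, one_pos, fun x hx hxV => ?_⟩
      have h1 : x ∈ closure U \ ⋃ i, V i := ⟨subset_closure hx, by simpa using hxV⟩
      rw [he] at h1
      exact absurd h1 (notMem_empty _)
    · have hc : ContinuousOn (fun x => dist (G x) y) (closure U \ ⋃ i, V i) := by
        have h1 : closure U ⊆ closedBall (0 : E n) (11 / 4) :=
          (closure_minimal (hU.sub.trans ball_subset_closedBall) isClosed_closedBall).trans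
            (closedBall_subset_closedBall (by norm_num))
        have h2 : Continuous (fun z : E n => dist z y) := by fun_prop
        exact h2.comp_continuousOn (hG.1.mono (diff_subset.trans h1))
      obtain ⟨x0, hx0, hmin⟩ := hK.exists_isMinOn hne hc
      refine ⟨dist (G x0) y, ?_, fun x hx hxV => ?_⟩
      · rw [dist_pos]
        intro h1
        obtain ⟨i, hi⟩ := hz x0 (hU.bd x0 hx0.1 h1) h1
        exact hx0.2 (mem_iUnion.2 ⟨i, hi⟩)
      · exact hmin (show x ∈ closure U \ ⋃ i, V i from ⟨subset_closure hx, by simpa using hxV⟩)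
  obtain ⟨ε', hε'0, hε'm, hε'ε⟩ : ∃ ε' : ℝ, 0 < ε' ∧ ε' ≤ m / 2 ∧ ∀ i, ε' ≤ ε i := by
    rcases isEmpty_or_nonempty ι with he | hne
    · exact ⟨m / 2, by positivity, le_rfl, fun i => (he.false i).elim⟩
    · obtain ⟨i0, hi0⟩ := Finite.exists_min ε
      exact ⟨min (m / 2) (ε i0), lt_min (by positivity) (hε i0), min_le_left _ _,
        fun i => (min_le_right _ _).trans (hi0 i)⟩
  refine ⟨ε', hε'0, fun G0 hG0 hG0G φ hφ hφ0 => ?_⟩
  have e1 : ∫ x in U, φ (G0 x) * (fderiv ℝ G0 x).det =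
      ∫ x in ⋃ i, V i, φ (G0 x) * (fderiv ℝ G0 x).det := by
    refine setIntegral_eq_of_subset_of_forall_diff_eq_zero hU.opn.measurableSet
      (iUnion_subset hVU) ?_
    intro x hx
    have hxV : ∀ i, x ∉ V i := fun i hi => hx.2 (mem_iUnion.2 ⟨i, hi⟩)
    have h1 := hmar x hx.1 hxV
    have h2 : x ∈ closedBall (0 : E n) (11 / 4) :=
      closedBall_subset_closedBall (by norm_num) (ball_subset_closedBall (hU.sub hx.1))
    have h3 := hG0G x h2
    have h4 := dist_triangle_left (G x) y (G0 x)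
    rw [hφ0 _ (by linarith), zero_mul]
  have e2 : ∫ x in ⋃ i, V i, φ (G0 x) * (fderiv ℝ G0 x).det =
      ∑ i, ∫ x in V i, φ (G0 x) * (fderiv ℝ G0 x).det := by
    apply integral_iUnion_fintype
    · exact fun i => (hVo i).measurableSet
    · intro i j hij
      exact hVd i j hij
    · intro i
      exact int_on hG0.smooth hφ ((hVU i).trans hU.sub)
  rw [e1, e2]
  push_cast
  rw [Finset.sum_mul]
  refine Finset.sum_congr rfl fun i _ => ?_
  exact h i G0 hG0 (fun x hx => (hG0G x hx).trans (hε'ε i)) φ hφ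
    (fun w hw => hφ0 w ((hε'ε i).trans hw))

/-- the total degree is one -/
lemma dg_one {n : ℕ} {y : E n} (hy : ‖y‖ < 1) {G : E n → E n} (hG : AdW G) {ι : Type}
    [Fintype ι] {V : ι → Set (E n)} (hVo : ∀ i, IsOpen (V i)) (hV2 : ∀ i, V i ⊆ ball 0 2)
    (hVd : ∀ i j, i ≠ j → Disjoint (V i) (V j))
    (hz : ∀ x ∈ closedBall (0 : E n) (11 / 4), G x = y → ∃ i, x ∈ V i) :
    ∑ i, dg y G (V i) = 1 := by
  classical
  have hok : ∀ i, Ok y G (V i) := by
    intro i
    refine ⟨hVo i, hV2 i, fun x hx hxy => ?_⟩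
    have h2 : x ∈ closedBall (0 : E n) 2 :=
      closure_minimal ((hV2 i).trans ball_subset_closedBall) isClosed_closedBall hx
    obtain ⟨j, hj⟩ := hz x (closedBall_subset_closedBall (by norm_num) h2) hxy
    by_cases hij : i = j
    · rw [hij]; exact hj
    · have h1 : Disjoint (closure (V i)) (V j) := (hVd i j hij).closure_left (hVo j)
      exact absurd hj (Set.disjoint_left.1 h1 hx)
  have hsp := fun i => dg_spec hG.1 (hok i)
  choose ε hε h using hsp
  obtain ⟨m, hm, hmar⟩ : ∃ m : ℝ, 0 < m ∧ ∀ x ∈ closedBall (0 : E n) (11 / 4), (∀ i, x ∉ V i) →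
      m ≤ dist (G x) y := by
    have hK : IsCompact (closedBall (0 : E n) (11 / 4) \ ⋃ i, V i) :=
      (isCompact_closedBall _ _).diff (isOpen_iUnion hVo)
    rcases (closedBall (0 : E n) (11 / 4) \ ⋃ i, V i).eq_empty_or_nonempty with he | hne
    · refine ⟨1, one_pos, fun x hx hxV => ?_⟩
      have h1 : x ∈ closedBall (0 : E n) (11 / 4) \ ⋃ i, V i := ⟨hx, by simpa using hxV⟩
      rw [he] at h1
      exact absurd h1 (notMem_empty _)
    · have hc : ContinuousOn (fun x => dist (G x) y)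
          (closedBall (0 : E n) (11 / 4) \ ⋃ i, V i) := by
        have h2 : Continuous (fun z : E n => dist z y) := by fun_prop
        exact h2.comp_continuousOn (hG.1.mono diff_subset)
      obtain ⟨x0, hx0, hmin⟩ := hK.exists_isMinOn hne hc
      refine ⟨dist (G x0) y, ?_, fun x hx hxV => ?_⟩
      · rw [dist_pos]
        intro h1
        obtain ⟨i, hi⟩ := hz x0 hx0.1 h1
        exact hx0.2 (mem_iUnion.2 ⟨i, hi⟩)
      · exact hmin (show x ∈ closedBall (0 : E n) (11 / 4) \ ⋃ i, V i from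
          ⟨hx, by simpa using hxV⟩)
  obtain ⟨ε', hε'0, hε'm, hε'4, hε'ε⟩ : ∃ ε' : ℝ, 0 < ε' ∧ ε' ≤ m / 2 ∧ ε' ≤ 1 / 4 ∧
      ∀ i, ε' ≤ ε i := by
    rcases isEmpty_or_nonempty ι with he | hne
    · exact ⟨min (m / 2) (1 / 4), by positivity, min_le_left _ _, min_le_right _ _,
        fun i => (he.false i).elim⟩
    · obtain ⟨i0, hi0⟩ := Finite.exists_min ε
      exact ⟨min (min (m / 2) (1 / 4)) (ε i0), lt_min (by positivity) (hε i0),
        (min_le_left _ _).trans (min_le_left _ _), (min_le_left _ _).trans (min_le_right _ _),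
        fun i => (min_le_right _ _).trans (hi0 i)⟩
  obtain ⟨G0, hG0, hG0G⟩ := hG.2 ε' hε'0
  obtain ⟨φ, hφ, hφ0, hφp, hφs⟩ := exists_bump y hε'0
  obtain ⟨K, hK⟩ := Pool.Agent.Y983.SP.DEGP.lip hG0.smooth hG0.out
  have hDL := Pool.Agent.Y438.HS.dl n G0 K 8 (by norm_num) hK hG0.out φ hφ hφs
  have e1 : ∫ x in ⋃ i, V i, φ (G0 x) * (fderiv ℝ G0 x).det =
      ∫ x, φ (G0 x) * (fderiv ℝ G0 x).det := by
    apply setIntegral_eq_integral_of_forall_compl_eq_zero
    intro x hx
    have hxV : ∀ i, x ∉ V i := fun i hi => hx (mem_iUnion.2 ⟨i, hi⟩)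
    by_contra hne
    have h1 : φ (G0 x) ≠ 0 := left_ne_zero_of_mul hne
    have h2 : dist (G0 x) y < ε' := by
      by_contra hcon
      exact h1 (hφ0 _ (not_lt.1 hcon))
    have h3 := hG0.disp x
    have h4 : x ∈ closedBall (0 : E n) (11 / 4) := by
      rw [mem_closedBall, dist_zero_right]
      have h5 : dist x y ≤ 3 / 2 + ε' := by
        have h6 := dist_triangle_left x y (G0 x)
        linarith
      have h6 : ‖x‖ ≤ ‖y‖ + dist x y := by
        rw [dist_eq_norm]
        calc ‖x‖ = ‖y + (x - y)‖ := by congr 1; abel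
          _ ≤ ‖y‖ + ‖x - y‖ := norm_add_le _ _
      linarith
    have h5 := hmar x h4 hxV
    have h6 := hG0G x h4
    have h7 := dist_triangle_left (G x) y (G0 x)
    linarith
  have e2 : ∫ x in ⋃ i, V i, φ (G0 x) * (fderiv ℝ G0 x).det =
      ∑ i, ∫ x in V i, φ (G0 x) * (fderiv ℝ G0 x).det := by
    apply integral_iUnion_fintype
    · exact fun i => (hVo i).measurableSet
    · intro i j hij
      exact hVd i j hij
    · intro i
      exact int_on hG0.smooth hφ (hV2 i)
  have e3 : ∑ i, ∫ x in V i, φ (G0 x) * (fderiv ℝ G0 x).det =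
      ((∑ i, dg y G (V i) : ℤ) : ℝ) * ∫ w, φ w := by
    push_cast
    rw [Finset.sum_mul]
    refine Finset.sum_congr rfl fun i _ => ?_
    exact h i G0 hG0 (fun x hx => (hG0G x hx).trans (hε'ε i)) φ hφ
      (fun w hw => hφ0 w ((hε'ε i).trans hw))
  rw [← e1, e2, e3] at hDL
  have e4 : ((∑ i, dg y G (V i) : ℤ) : ℝ) * ∫ w, φ w = 1 * ∫ w, φ w := by
    rw [one_mul]; exact hDL
  have e5 : ((∑ i, dg y G (V i) : ℤ) : ℝ) = 1 := mul_right_cancel₀ hφp.ne' e4
  exact_mod_cast e5

end Pool.Agent.Q100.HK
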