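import Pool.Agent.Q100.HK.Avg
import Pool.Agent.Y485.HS.Loc

/-!
# The invariant map and the family of functions
-/

set_option autoImplicit false

open MeasureTheory Set Metric Filter Topology
open scoped ENNReal NNReal

noncomputable section

namespace Pool.Agent.Q100.HK

open Pool.Agent.Y485.HS Pool.Agent.Y532.SP.LOCS

/-- the data of one element -/
structure Fam {n : ℕ} {H : Type} [Group H] [TopologicalSpace H] [IsTopologicalGroup H]
    (T : H → E n → E n) (h0 g : H) (p : ℕ) (F : E n → E n) (f : ℕ → ℕ → ℕ → E n → ℝ) :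
    Prop where
  Fc : ContinuousOn F (BB n)
  Finv : ∀ k : ℕ, ∀ x ∈ BB n, T (g ^ k) x ∈ BB n → F (T (g ^ k) x) = F x
  Ffix : ∀ x ∈ BB n, T g x = x → F x = T h0 x
  Fdist : ∀ x ∈ BB n, ∀ v : E n, ∀ δ : ℝ,
    (∀ k ∈ (Subgroup.zpowers g).topologicalClosure, dist (T (h0 * k) x) v ≤ δ) →
      dist (F x) v ≤ δ
  fc : ∀ m i j, ContinuousOn (f m i j) (BB n)
  fs : ∀ m i j k, ∀ x ∈ BB n, T (g ^ k) x ∈ BB n → f m i j (T (g ^ k) x) = f m i (j + k) x
  fp : ∀ m i j x, f m i (j + p ^ m) x = f m i j x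
  sep : ∀ δ : ℝ, 0 < δ → ∃ m, ∀ x ∈ closedBall (0 : E n) 2, δ ≤ dist (T g x) x →
    ∃ i, f m i 0 x ≠ f m i 0 (T g x)
  en : ∀ (N : ℕ) (S : Set (E n)),
    (∀ k ∈ (Subgroup.zpowers g).topologicalClosure, EnV (n + 1) N (T (h0 * k)) S) →
      ∀ m i j, EnV (n + 1) (2 * N) (fun x => (F x, f m i j x)) S

theorem inv_fam {n : ℕ} {H : Type} [Group H] [TopologicalSpace H] [IsTopologicalGroup H]
    [CompactSpace H] [T2Space H] [TotallyDisconnectedSpace H] {T : H → E n → E n}
    (hT : LocAct n H T) (h0 g : H) {p : ℕ}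
    (hgp : Tendsto (fun j : ℕ => g ^ p ^ j) atTop (𝓝 1)) :
    ∃ (F : E n → E n) (f : ℕ → ℕ → ℕ → E n → ℝ), Fam T h0 g p F f := by
  have hcomp : ∀ c : H, CompactSpace (Subgroup.zpowers c).topologicalClosure := fun c =>
    isCompact_iff_compactSpace.1
      (show IsClosed ((Subgroup.zpowers c).topologicalClosure : Set H) from
        Subgroup.isClosed_topologicalClosure _).isCompact
  have hself : ∀ c : H, c ∈ (Subgroup.zpowers c).topologicalClosure := fun c =>
    Subgroup.le_topologicalClosure _ (Subgroup.mem_zpowers c)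
  set C : Subgroup H := (Subgroup.zpowers g).topologicalClosure with hC
  have hgC : ∀ k : ℕ, g ^ k ∈ C := fun k => C.pow_mem (hself g) k
  have hCc : IsClosed (C : Set H) := Subgroup.isClosed_topologicalClosure _
  have hMC : ∀ m : ℕ, (Subgroup.zpowers (g ^ p ^ m)).topologicalClosure ≤ C := fun m =>
    Subgroup.topologicalClosure_minimal _ ((Subgroup.zpowers_le).2 (hgC _)) hCc
  have hbc : ∀ i, Continuous (bumpF n i) := fun i => by
    unfold bumpF
    fun_prop
  haveI := hcomp g
  haveI := fun m : ℕ => hcomp (g ^ p ^ m)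
  have h2B : closedBall (0 : E n) 2 ⊆ BB n := closedBall_subset_closedBall (by norm_num)
  refine ⟨avg T h0 C (fun w => w) 1,
    fun m i j => avg T h0 ((Subgroup.zpowers (g ^ p ^ m)).topologicalClosure) (bumpF n i) (g ^ j),
    ?_, ?_, ?_, ?_, ?_, ?_, ?_, ?_, ?_⟩
  · exact avg_cont hT h0 C continuous_id 1
  · intro k x hx hkx
    rw [avg_act hT h0 C 1 (g ^ k) hx hkx, one_mul]
    have := avg_mem (T := T) h0 C (φ := fun w : E n => w) 1 (hgC k) x
    rwa [mul_one] at this
  · intro x hx hfx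
    have hall := fix_closure hT hx g hfx
    have h1 := avg_dist hT h0 C (φ := fun w : E n => w) continuous_id 1 hx (v := T h0 x)
      (δ := 0) (fun k hk => by
        have h2 := hall k hk
        have h3 := hT.mul h0 k x hx (by rw [h2]; exact hx)
        rw [h2] at h3
        show dist (T (h0 * k * 1) x) (T h0 x) ≤ 0
        rw [mul_one, h3, dist_self])
    exact dist_le_zero.1 h1
  · intro x hx v δ hδ
    refine avg_dist hT h0 C (φ := fun w : E n => w) continuous_id 1 hx (fun k hk => ?_)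
    show dist (T (h0 * k * 1) x) v ≤ δ
    rw [mul_one]
    exact hδ k hk
  · exact fun m i j => avg_cont hT h0 _ (hbc i) (g ^ j)
  · intro m i j k x hx hkx
    rw [avg_act hT h0 _ (g ^ j) (g ^ k) hx hkx, ← pow_add]
  · intro m i j x
    have h1 : g ^ (j + p ^ m) = g ^ p ^ m * g ^ j := by rw [← pow_add, add_comm]
    show avg T h0 _ (bumpF n i) (g ^ (j + p ^ m)) x = avg T h0 _ (bumpF n i) (g ^ j) x
    rw [h1]
    exact avg_mem (T := T) h0 _ (φ := bumpF n i) (g ^ j) (hself (g ^ p ^ m)) x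
  · intro δ hδ
    obtain ⟨V, hVs, hVo, hV1⟩ := mem_nhds_iff.1 (Pool.Agent.Y523.PH.small_nhds hT hδ)
    obtain ⟨W, hW⟩ := ProfiniteGrp.exist_openNormalSubgroup_sub_open_nhds_of_one hVo hV1
    have hWc : IsClosed (W.toSubgroup : Set H) := Subgroup.isClosed_of_isOpen _ W.isOpen'
    have hW1 : (W.toSubgroup : Set H) ∈ 𝓝 (1 : H) :=
      W.isOpen'.mem_nhds (one_mem W.toSubgroup)
    obtain ⟨m, hm⟩ := (hgp.eventually_mem hW1).exists
    refine ⟨m, fun x hx hxδ => ?_⟩
    have hxB := h2B hx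
    set M : Subgroup H := (Subgroup.zpowers (g ^ p ^ m)).topologicalClosure with hM
    have hMW : M ≤ W.toSubgroup :=
      Subgroup.topologicalClosure_minimal _ ((Subgroup.zpowers_le).2 hm) hWc
    have hsmall : ∀ k ∈ M, dist (T k x) x < δ := fun k hk => hVs (hW (hMW hk)) x hxB
    have hgx : T g x ∈ BB n := by
      have h1 := norm_T_le hT g hxB
      have h2 : ‖x‖ ≤ 2 := by simpa using hx
      exact mem_BB.2 (by linarith)
    have hMc : IsCompact (M : Set H) :=
      (Subgroup.isClosed_topologicalClosure (Subgroup.zpowers (g ^ p ^ m))).isCompact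
    have hOc : IsCompact ((fun k : H => T (h0 * k) x) '' (M : Set H)) := by
      refine hMc.image ?_
      have h1 : Continuous (fun k : H => h0 * k) := by fun_prop
      exact (hT.cont_left hxB).comp h1
    have hv : T (h0 * g) x ∉ (fun k : H => T (h0 * k) x) '' (M : Set H) := by
      rintro ⟨k, hk, hkx⟩
      have hkx' : T (h0 * k) x = T (h0 * g) x := hkx
      have hkB : T k x ∈ BB n := by
        have h1 := norm_T_le hT k hxB
        have h2 : ‖x‖ ≤ 2 := by simpa using hx
        exact mem_BB.2 (by linarith)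
      rw [hT.mul h0 k x hxB hkB, hT.mul h0 g x hxB hgx] at hkx'
      have h0k : T h0 (T k x) ∈ BB n := by
        have h1 := norm_T_le hT k hxB
        have h2 : ‖x‖ ≤ 2 := by simpa using hx
        have h3 := norm_T_le hT h0 hkB
        exact mem_BB.2 (by linarith)
      have h0g : T h0 (T g x) ∈ BB n := by rw [← hkx']; exact h0k
      have h3 : T k x = T g x := by
        rw [← hT.inv h0 hkB h0k, hkx', hT.inv h0 hgx h0g]
      have h4 := hsmall k hk
      rw [h3] at h4
      linarith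
    obtain ⟨i, hi1, hi2⟩ := bumpF_sep n hOc hv
    refine ⟨i, ?_⟩
    show avg T h0 M (bumpF n i) (g ^ 0) x ≠ avg T h0 M (bumpF n i) (g ^ 0) (T g x)
    rw [pow_zero]
    have h5 : avg T h0 M (bumpF n i) 1 x = 0 := by
      have h6 := avg_dist hT h0 M (hbc i) 1 hxB (v := (0 : ℝ)) (δ := 0) (fun k hk => by
        rw [mul_one, hi2 _ ⟨k, hk, rfl⟩, dist_self])
      exact dist_le_zero.1 h6
    have h6 : 0 < avg T h0 M (bumpF n i) 1 (T g x) := by
      refine avg_pos hT h0 M (hbc i) (bumpF_nonneg n i) 1 hgx ?_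
      rw [mul_one, ← hT.mul h0 g x hxB hgx]
      exact hi1
    rw [h5]
    exact h6.ne
  · intro N S hS m i j
    refine en_pair (avg_cont hT h0 C continuous_id 1) (avg_cont hT h0 _ (hbc i) (g ^ j)) ?_ ?_
    · refine avg_en hT h0 C continuous_id (fun w w' => le_rfl) 1 fun k hk => ?_
      rw [mul_one]
      exact hS k hk
    · refine avg_en hT h0 _ (hbc i) (bumpF_lip n i) (g ^ j) fun k hk => ?_
      rw [mul_assoc]
      exact hS _ (C.mul_mem (hMC m hk) (hgC j))

end Pool.Agent.Q100.HK
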