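import Pool.Agent.Q100.HK.Main

/-!
# The final form of the class
-/

set_option autoImplicit false

open MeasureTheory Set Metric Filter Topology
open scoped ENNReal NNReal

noncomputable section

namespace Pool.Agent.Q100.HK

open Pool.Agent.Y485.HS

/-- the map `f` is controlled at the point `x` -/
def Con (n : ℕ) {X : Type} [MetricSpace X] (f : X → X) (x : X) : Prop :=
  ∃ N : ℕ, 0 < N ∧ Ctl n N f x

/-- gradients on the set `U` -/
def SobU (n : ℕ) {X : Type} [MetricSpace X] [MeasurableSpace X] [BorelSpace X] (f : X → X)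
    (U : Set X) : Prop :=
  ∃ s q : ℝ, 0 < s ∧ s ≤ 1 ∧ (n : ℝ) - 1 < s * (n + 1) ∧ (n : ℝ) - 1 < s * q ∧
    ∀ C ⊆ U ∩ Reg n X, IsCompact C → ∃ g : X → ℝ≥0∞, Measurable g ∧
      (∀ a ∈ C, ∀ b ∈ C, edist (f a) (f b) ≤ edist a b ^ s * (g a + g b)) ∧
      ∫⁻ a in C, g a ^ q ∂(Measure.hausdorffMeasure (n : ℝ)) < ∞

/-- the class -/
def Adm3 (n : ℕ) {X : Type} [MetricSpace X] [MeasurableSpace X] [BorelSpace X] (f : X → X) :
    Prop :=
  ∃ S U : ℕ → Set X, (∀ i, IsClosed (S i) ∧ Ene n f (S i)) ∧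
    (∀ i, IsOpen (U i) ∧ SobU n f (U i)) ∧
    ∀ x ∈ Reg n X, Con n f x ∨ ∃ i, x ∈ S i ∨ x ∈ U i

/-- control passes to the closure -/
lemma ctl_closure {n : ℕ} (hn : 1 ≤ n) {X : Type} [MetricSpace X] {f : X → X}
    (hf : Continuous f) {N : ℕ} (hN : 0 < N) {x : X}
    (hx : x ∈ closure {x | Ctl n N f x}) : Ctl n (2 * N) f x := by
  intro y z hyz hz1
  have hN' : (0 : ℝ) < N := by exact_mod_cast hN
  rcases (dist_nonneg (x := z) (y := x)).eq_or_lt with h0 | h0
  · rw [← h0, zero_mul]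
    have h5 : (0 : ℝ) ≤ 0 ^ (1 / ((2 * N : ℕ) : ℝ)) := Real.rpow_nonneg le_rfl _
    positivity
  obtain ⟨u, hu, hux⟩ := mem_closure_iff_seq_limit.1 hx
  have hy : Tendsto (fun i => dist y (u i)) atTop (𝓝 (dist y x)) := tendsto_const_nhds.dist hux
  have hz : Tendsto (fun i => dist z (u i)) atTop (𝓝 (dist z x)) := tendsto_const_nhds.dist hux
  have hfu : Tendsto (fun i => f (u i)) atTop (𝓝 (f x)) := (hf.tendsto x).comp hux
  have hfy : Tendsto (fun i => dist (f y) (f (u i))) atTop (𝓝 (dist (f y) (f x))) :=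
    tendsto_const_nhds.dist hfu
  have hfz : Tendsto (fun i => dist (f z) (f (u i))) atTop (𝓝 (dist (f z) (f x))) :=
    tendsto_const_nhds.dist hfu
  have h1 : ∀ᶠ i in atTop, N * dist y (u i) ≤ dist z (u i) := by
    have h2 : (N : ℝ) * dist y x < dist z x := by
      have h3 : ((2 * N : ℕ) : ℝ) * dist y x ≤ dist z x := hyz
      push_cast at h3
      have h4 := dist_nonneg (x := y) (y := x)
      rcases h4.eq_or_lt with h5 | h5
      · rw [← h5, mul_zero]
        exact h0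
      · nlinarith
    filter_upwards [(hy.const_mul (N : ℝ)).eventually_lt hz h2] with i hi using hi.le
  have h2 : ∀ᶠ i in atTop, N * dist z (u i) < 1 := by
    have h3 : (N : ℝ) * dist z x < 1 := by
      refine lt_of_le_of_lt ?_ hz1
      push_cast
      nlinarith
    exact (hz.const_mul (N : ℝ)).eventually (gt_mem_nhds h3)
  have h3 : ∀ᶠ i in atTop, dist z (u i) * dist (f y) (f (u i)) ^ (n + 1) ≤
      N * dist z (u i) ^ (1 / (N : ℝ)) * (dist z (u i) ^ n + dist (f z) (f (u i)) ^ n) := by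
    filter_upwards [h1, h2] with i hi1 hi2 using hu i y z hi1 hi2
  have h4 : Tendsto (fun i => dist z (u i) * dist (f y) (f (u i)) ^ (n + 1)) atTop
      (𝓝 (dist z x * dist (f y) (f x) ^ (n + 1))) := hz.mul (hfy.pow (n + 1))
  have h5 : Tendsto (fun i => N * dist z (u i) ^ (1 / (N : ℝ)) *
      (dist z (u i) ^ n + dist (f z) (f (u i)) ^ n)) atTop
      (𝓝 (N * dist z x ^ (1 / (N : ℝ)) * (dist z x ^ n + dist (f z) (f x) ^ n))) := by
    refine ((hz.rpow_const (Or.inl h0.ne')).const_mul (N : ℝ)).mul ?_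
    exact (hz.pow n).add (hfz.pow n)
  have h6 := le_of_tendsto_of_tendsto h4 h5 h3
  refine h6.trans ?_
  have hz2 : dist z x ≤ 1 := by
    have h7 : (1 : ℝ) ≤ ((2 * N : ℕ) : ℝ) := by exact_mod_cast (by omega : 1 ≤ 2 * N)
    nlinarith
  have h7 : dist z x ^ (1 / (N : ℝ)) ≤ dist z x ^ (1 / ((2 * N : ℕ) : ℝ)) := by
    refine Real.rpow_le_rpow_of_exponent_ge h0 hz2 ?_
    exact one_div_le_one_div_of_le hN' (by exact_mod_cast (by omega : N ≤ 2 * N))
  have h8 : (N : ℝ) ≤ ((2 * N : ℕ) : ℝ) := by exact_mod_cast (by omega : N ≤ 2 * N)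
  have h9 : 0 ≤ dist z x ^ n + dist (f z) (f x) ^ n := by positivity
  gcongr

theorem cls_of_adm {n : ℕ} (hn : 2 ≤ n) {X : Type} [MetricSpace X] [MeasurableSpace X]
    [BorelSpace X] {f : X → X} (hf : Continuous f) (h : Adm3 n f) : Cls n f := by
  obtain ⟨S, U, hS, hU, hcov⟩ := h
  choose F hFc hFU hFu using fun i => (hU i).1.exists_iUnion_isClosed
  -- the pieces
  let e : ℕ ≃ ℕ ⊕ (ℕ ⊕ ℕ × ℕ) := (Denumerable.eqv (ℕ ⊕ (ℕ ⊕ ℕ × ℕ))).symm
  let P : ℕ ⊕ (ℕ ⊕ ℕ × ℕ) → Set X := Sum.elim (fun N => closure {x | Ctl n (N + 1) f x})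
    (Sum.elim S fun a => F a.1 a.2)
  refine ⟨fun i => P (e i), fun i => ?_, fun x hx => ?_, fun i => ?_⟩
  · rcases h1 : e i with N | j | a
    · simp only [h1]
      exact isClosed_closure
    · simp only [h1]
      exact (hS j).1
    · simp only [h1]
      exact hFc a.1 a.2
  · rcases hcov x hx with ⟨N, hN, hNx⟩ | ⟨i, hi | hi⟩
    · refine mem_iUnion.2 ⟨e.symm (Sum.inl (N - 1)), ?_⟩
      simp only [Equiv.apply_symm_apply]
      show x ∈ closure {x | Ctl n (N - 1 + 1) f x}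
      rw [Nat.sub_add_cancel hN]
      exact subset_closure hNx
    · refine mem_iUnion.2 ⟨e.symm (Sum.inr (Sum.inl i)), ?_⟩
      simp only [Equiv.apply_symm_apply]
      exact hi
    · have h1 : x ∈ ⋃ j, F i j := by
        rw [(hFu i).1]
        exact hi
      obtain ⟨j, hj⟩ := mem_iUnion.1 h1
      refine mem_iUnion.2 ⟨e.symm (Sum.inr (Sum.inr (i, j))), ?_⟩
      simp only [Equiv.apply_symm_apply]
      exact hj
  · rcases h1 : e i with N | j | a
    · simp only [h1]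
      exact Or.inl ⟨2 * (N + 1), by omega, fun x hx =>
        ctl_closure (by omega) hf (Nat.succ_pos N) hx⟩
    · simp only [h1]
      exact Or.inr (Or.inl (hS j).2)
    · simp only [h1]
      obtain ⟨s, q, hs1, hs2, hsn, hq, hg⟩ := (hU a.1).2
      exact Or.inr (Or.inr ⟨U a.1, (hU a.1).1, fun x hx => hFU a.1 a.2 hx.1, s, q, hs1, hs2,
        hsn, hq, hg⟩)

/-- the main theorem -/
theorem lie_fin {n : ℕ} (hn : 2 ≤ n) {X : Type} [MetricSpace X] [MeasurableSpace X]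
    [BorelSpace X]
    {G : Type} [Group G] [TopologicalSpace G] [IsTopologicalGroup G] [LocallyCompactSpace G]
    [MulAction G X] [ContinuousSMul G X] [FaithfulSMul G X]
    (hdense : Dense (Reg n X)) (hconn : IsPreconnected (Reg n X))
    (h : ∀ᶠ g in 𝓝 (1 : G), Adm3 n (fun x : X => g • x)) : IsLie G :=
  lie_main hn hdense hconn (h.mono fun g hg => cls_of_adm hn (continuous_const_smul g) hg)

/-! ### examples -/

/-- Hoelder points are controlled -/
theorem con_of_holder {n : ℕ} {X : Type} [MetricSpace X] {f : X → X} {x : X}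
    {α : ℝ} (hα : ((n : ℝ) - 1) / (n + 1) < α) {M δ : ℝ} (hδ : 0 < δ)
    (h : ∀ y, dist y x < δ → dist (f y) (f x) ≤ M * dist y x ^ α) (hα0 : 0 < α) :
    Con n f x := by
  have hn1 : (0 : ℝ) < (n : ℝ) + 1 := by positivity
  have hε : 0 < 1 + α * (n + 1) - n := by
    rw [div_lt_iff₀ hn1] at hα
    linarith
  obtain ⟨N, hN1, hN2, hN3, hN4⟩ : ∃ N : ℕ, 1 ≤ (N : ℝ) ∧ |M| ^ (n + 1) ≤ N ∧ 1 / δ ≤ N ∧
      1 / (1 + α * (n + 1) - n) ≤ N := by
    obtain ⟨N, hN⟩ := exists_nat_ge (max (max 1 (|M| ^ (n + 1)))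
      (max (1 / δ) (1 / (1 + α * (n + 1) - n))))
    have a1 := (le_max_left _ _).trans hN
    have a2 := (le_max_right _ _).trans hN
    exact ⟨N, (le_max_left _ _).trans a1, (le_max_right _ _).trans a1,
      (le_max_left _ _).trans a2, (le_max_right _ _).trans a2⟩
  have hN0 : (0 : ℝ) < N := by linarith
  refine ⟨N, by exact_mod_cast hN0, fun y z hyz hz1 => ?_⟩
  have hdz : 0 ≤ dist z x := dist_nonneg
  have hdy : 0 ≤ dist y x := dist_nonneg
  have hzr : dist z x ≤ 1 := by nlinarith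
  have hyz' : dist y x ≤ dist z x := by nlinarith
  have hyδ : dist y x < δ := by
    have h1 : N * δ ≥ 1 := by
      rw [div_le_iff₀ hδ] at hN3
      linarith
    have h2 : (N : ℝ) * dist y x < N * δ := by nlinarith
    exact lt_of_mul_lt_mul_left h2 hN0.le
  rcases hdz.eq_or_lt with h0 | h0
  · rw [← h0, zero_mul]
    have h5 : (0 : ℝ) ≤ 0 ^ (1 / (N : ℝ)) := Real.rpow_nonneg le_rfl _
    positivity
  have h1 : dist (f y) (f x) ≤ |M| * dist z x ^ α := by
    calc dist (f y) (f x) ≤ M * dist y x ^ α := h y hyδ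
      _ ≤ |M| * dist y x ^ α := by
          have : 0 ≤ dist y x ^ α := Real.rpow_nonneg hdy _
          exact mul_le_mul_of_nonneg_right (le_abs_self M) this
      _ ≤ |M| * dist z x ^ α := by
          have : dist y x ^ α ≤ dist z x ^ α := Real.rpow_le_rpow hdy hyz' hα0.le
          exact mul_le_mul_of_nonneg_left this (abs_nonneg M)
  have h2 : dist z x * (dist z x ^ α) ^ (n + 1) ≤ dist z x ^ (1 / (N : ℝ)) * dist z x ^ n := by
    have e1 : dist z x * (dist z x ^ α) ^ (n + 1) = dist z x ^ (1 + α * (n + 1)) := by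
      rw [Real.rpow_add h0, Real.rpow_one, Real.rpow_mul hdz, ← Nat.cast_succ,
        Real.rpow_natCast]
    have e2 : dist z x ^ (1 / (N : ℝ)) * dist z x ^ n = dist z x ^ (1 / (N : ℝ) + n) := by
      rw [Real.rpow_add h0, Real.rpow_natCast]
    rw [e1, e2]
    refine Real.rpow_le_rpow_of_exponent_ge h0 hzr ?_
    have h3 : 1 / (N : ℝ) ≤ 1 + α * (n + 1) - n := by
      rw [div_le_iff₀ hε] at hN4
      rw [div_le_iff₀ hN0]
      linarith
    linarith
  calc dist z x * dist (f y) (f x) ^ (n + 1)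
      ≤ dist z x * (|M| * dist z x ^ α) ^ (n + 1) := by gcongr
    _ = |M| ^ (n + 1) * (dist z x * (dist z x ^ α) ^ (n + 1)) := by rw [mul_pow]; ring
    _ ≤ N * (dist z x ^ (1 / (N : ℝ)) * dist z x ^ n) := by gcongr
    _ ≤ N * dist z x ^ (1 / (N : ℝ)) * (dist z x ^ n + dist (f z) (f x) ^ n) := by
        have h3 : 0 ≤ N * dist z x ^ (1 / (N : ℝ)) := by positivity
        have h4 : 0 ≤ dist (f z) (f x) ^ n := by positivity
        nlinarith

/-- points of finite linear dilatation are controlled -/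
theorem con_of_dil {n : ℕ} {X : Type} [MetricSpace X] {f : X → X} {x : X}
    (hf : ContinuousAt f x) {M δ : ℝ} (hδ : 0 < δ)
    (h : ∀ y z, dist y x ≤ dist z x → dist z x < δ → dist (f y) (f x) ≤ M * dist (f z) (f x)) :
    Con n f x := by
  obtain ⟨δ1, hδ1, hc⟩ := Metric.continuousAt_iff.1 hf 1 one_pos
  obtain ⟨N, hN1, hN2, hN3, hN4⟩ : ∃ N : ℕ, 1 ≤ (N : ℝ) ∧ |M| ^ n ≤ N ∧ 1 / δ ≤ N ∧
      1 / δ1 ≤ N := by
    obtain ⟨N, hN⟩ := exists_nat_ge (max (max 1 (|M| ^ n)) (max (1 / δ) (1 / δ1)))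
    have a1 := (le_max_left _ _).trans hN
    have a2 := (le_max_right _ _).trans hN
    exact ⟨N, (le_max_left _ _).trans a1, (le_max_right _ _).trans a1,
      (le_max_left _ _).trans a2, (le_max_right _ _).trans a2⟩
  have hN0 : (0 : ℝ) < N := by linarith
  refine ⟨N, by exact_mod_cast hN0, fun y z hyz hz1 => ?_⟩
  have hdz : 0 ≤ dist z x := dist_nonneg
  have hdy : 0 ≤ dist y x := dist_nonneg
  have hzr : dist z x ≤ 1 := by nlinarith
  have hyz' : dist y x ≤ dist z x := by nlinarith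
  have hzδ : dist z x < δ := by
    have h1 : N * δ ≥ 1 := by
      rw [div_le_iff₀ hδ] at hN3
      linarith
    have h2 : (N : ℝ) * dist z x < N * δ := by nlinarith
    exact lt_of_mul_lt_mul_left h2 hN0.le
  have hzδ1 : dist z x < δ1 := by
    have h1 : N * δ1 ≥ 1 := by
      rw [div_le_iff₀ hδ1] at hN4
      linarith
    have h2 : (N : ℝ) * dist z x < N * δ1 := by nlinarith
    exact lt_of_mul_lt_mul_left h2 hN0.le
  have hy1 : dist (f y) (f x) ≤ 1 := (hc (hyz'.trans_lt hzδ1)).le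
  rcases hdz.eq_or_lt with h0 | h0
  · rw [← h0, zero_mul]
    have h5 : (0 : ℝ) ≤ 0 ^ (1 / (N : ℝ)) := Real.rpow_nonneg le_rfl _
    positivity
  have h1 : dist (f y) (f x) ^ n ≤ N * dist (f z) (f x) ^ n := by
    have h2 : dist (f y) (f x) ≤ |M| * dist (f z) (f x) :=
      (h y z hyz' hzδ).trans (mul_le_mul_of_nonneg_right (le_abs_self M) dist_nonneg)
    calc dist (f y) (f x) ^ n ≤ (|M| * dist (f z) (f x)) ^ n :=
          pow_le_pow_left₀ dist_nonneg h2 n
      _ = |M| ^ n * dist (f z) (f x) ^ n := mul_pow _ _ _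
      _ ≤ N * dist (f z) (f x) ^ n := by gcongr
  have h2 : dist (f y) (f x) ^ (n + 1) ≤ dist (f y) (f x) ^ n :=
    pow_le_pow_of_le_one dist_nonneg hy1 (by omega)
  have h3 : dist z x ≤ dist z x ^ (1 / (N : ℝ)) := by
    calc dist z x = dist z x ^ (1 : ℝ) := (Real.rpow_one _).symm
      _ ≤ dist z x ^ (1 / (N : ℝ)) := by
          refine Real.rpow_le_rpow_of_exponent_ge h0 hzr ?_
          rw [div_le_one hN0]
          exact hN1
  calc dist z x * dist (f y) (f x) ^ (n + 1)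
      ≤ dist z x ^ (1 / (N : ℝ)) * (N * dist (f z) (f x) ^ n) :=
        mul_le_mul h3 (h2.trans h1) (by positivity) (by positivity)
    _ = N * dist z x ^ (1 / (N : ℝ)) * dist (f z) (f x) ^ n := by ring
    _ ≤ N * dist z x ^ (1 / (N : ℝ)) * (dist z x ^ n + dist (f z) (f x) ^ n) := by
        have h3 : 0 ≤ N * dist z x ^ (1 / (N : ℝ)) := by positivity
        have h4 : 0 ≤ dist z x ^ n := by positivity
        nlinarith

/-- continuous maps have small energy along thin sets -/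
theorem ene_of_thin {n : ℕ} {X : Type} [MetricSpace X] {f : X → X} (hf : Continuous f)
    {S : Set X} (hS : ∀ C ⊆ Reg n X, IsCompact C → ∃ N : ℕ, 0 < N ∧ ∀ r : ℝ, 0 < r → N * r < 1 →
      ∀ A : Finset X, (∀ a ∈ A, a ∈ S ∧ a ∈ C) → (∀ a ∈ A, ∀ b ∈ A, a ≠ b → r ≤ dist a b) →
      (A.card : ℝ) ≤ N * r ^ (1 / (N : ℝ) - 1)) : Ene n f S := by
  intro C hC hCc c
  obtain ⟨N, hN, hNA⟩ := hS C hC hCc
  have hN' : (0 : ℝ) < N := by exact_mod_cast hN
  have hb : Bornology.IsBounded (f '' C) := (hCc.image hf).isBounded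
  obtain ⟨M, hM1, hM2⟩ : ∃ M : ℕ, 1 ≤ M ∧ Metric.diam (f '' C) ^ (n + 1) ≤ M := by
    obtain ⟨M, hM⟩ := exists_nat_ge (max 1 (Metric.diam (f '' C) ^ (n + 1)))
    exact ⟨M, by exact_mod_cast (le_max_left _ _).trans hM, (le_max_right _ _).trans hM⟩
  have hNM : N ≤ N * M := Nat.le_mul_of_pos_right N (by omega)
  have hNM' : (N : ℝ) ≤ ((N * M : ℕ) : ℝ) := by exact_mod_cast hNM
  refine ⟨N * M, by positivity, fun r hr hMr A hA hAs => ?_⟩
  have hNr : N * r < 1 := lt_of_le_of_lt (by gcongr) hMr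
  have hr1 : r ≤ 1 := by
    have h1 : (1 : ℝ) ≤ N := by exact_mod_cast hN
    nlinarith
  have h1 := hNA r hr hNr A hA hAs
  have h2 : r ^ (1 / (N : ℝ) - 1) ≤ r ^ (1 / ((N * M : ℕ) : ℝ) - 1) := by
    refine Real.rpow_le_rpow_of_exponent_ge hr hr1 ?_
    have := one_div_le_one_div_of_le hN' hNM'
    linarith
  calc ∑ a ∈ A, Metric.diam (f '' (closedBall a (c * r) ∩ C)) ^ (n + 1)
      ≤ ∑ _a ∈ A, (M : ℝ) := by
        refine Finset.sum_le_sum fun a _ => le_trans ?_ hM2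
        exact pow_le_pow_left₀ diam_nonneg (diam_mono (image_mono inter_subset_right) hb) _
    _ = (A.card : ℝ) * M := by rw [Finset.sum_const, nsmul_eq_mul]
    _ ≤ (N * r ^ (1 / (N : ℝ) - 1)) * M := by gcongr
    _ = ((N * M : ℕ) : ℝ) * r ^ (1 / (N : ℝ) - 1) := by push_cast; ring
    _ ≤ ((N * M : ℕ) : ℝ) * r ^ (1 / ((N * M : ℕ) : ℝ) - 1) := by gcongr

end Pool.Agent.Q100.HK
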