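import Pool.Agent.Q100.HK.Lab
import Pool.Agent.Y532.SP.LOCS

/-!
# Fixed points from fibres whose levels are separated
-/

set_option autoImplicit false

open MeasureTheory Set Metric Filter Topology
open scoped ENNReal NNReal

noncomputable section

namespace Pool.Agent.Q100.HK

open Pool.Agent.Y485.HS Pool.Agent.Y489.SP Pool.Agent.Y532.SP.LOCS

/-- the levels of the functions `f` in the fibre of `F` over `y` are separated by hyperplanes -/
def Sep2 {n : ℕ} (F : E n → E n) (f : ℕ → ℕ → ℕ → E n → ℝ) (y : E n) : Prop :=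
  ∃ (S : Fin n → Set ℝ) (D : Set ℝ), (∀ l, Dense (S l)) ∧ Dense D ∧
    ∀ t ∈ D, ∀ m i j, ∀ x ∈ closedBall (0 : E n) 3, F x = y → f m i j x = t →
      ∀ l, x l ∉ S l

lemma prod_shift {q : ℕ} {h : ℕ → ℝ} (hp : ∀ j, h (j + q) = h j) (k : ℕ) :
    ∏ j ∈ Finset.range q, h (j + k) = ∏ j ∈ Finset.range q, h j := by
  induction k with
  | zero => rfl
  | succ k ih =>
    rw [← ih]
    have h1 := Finset.prod_range_succ (fun j => h (j + k)) q
    have h2 := Finset.prod_range_succ' (fun j => h (j + k)) q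
    have h3 : h (q + k) = h (0 + k) := by
      rw [add_comm q k, hp k, zero_add]
    have h4 : ∏ j ∈ Finset.range q, h (j + 1 + k) = ∏ j ∈ Finset.range q, h (j + (k + 1)) :=
      Finset.prod_congr rfl fun j _ => by congr 1; ring
    rw [h4] at h2
    rw [h1, h3] at h2
    by_cases h0 : h (0 + k) = 0
    · -- both products vanish unless the range is empty
      rcases Nat.eq_zero_or_pos q with rfl | hq
      · simp
      · have e1 : ∏ j ∈ Finset.range q, h (j + k) = 0 :=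
          Finset.prod_eq_zero (Finset.mem_range.2 hq) h0
        have e2 : ∏ j ∈ Finset.range q, h (j + (k + 1)) = 0 := by
          refine Finset.prod_eq_zero (i := q - 1) (Finset.mem_range.2 (by omega)) ?_
          have e3 : q - 1 + (k + 1) = k + q := by omega
          rw [e3, hp, ← h0, zero_add]
        rw [e1, e2]
    · exact (mul_right_cancel₀ h0 h2).symm

/-- one fibre -/
theorem fibre_false {p : ℕ} (hp : p.Prime) {n : ℕ}
    {H : Type} [Group H] [TopologicalSpace H] [IsTopologicalGroup H] [T2Space H] [CompactSpace H]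
    {T : H → E n → E n} (hT : LocAct n H T) (g : H)
    (hgp : Tendsto (fun j : ℕ => g ^ p ^ j) atTop (𝓝 1))
    {F : E n → E n} (hFc : ContinuousOn F (BB n)) (hdisp : ∀ x ∈ BB n, dist (F x) x ≤ 1 / 4)
    (hinv : ∀ k : ℕ, ∀ x ∈ closedBall (0 : E n) 3, F (T (g ^ k) x) = F x)
    {f : ℕ → ℕ → E n → ℝ} {q : ℕ} (hq : 0 < q) (hfc : ∀ i j, ContinuousOn (f i j) (BB n))
    (hfs : ∀ i j k, ∀ x ∈ closedBall (0 : E n) 3, f i j (T (g ^ k) x) = f i (j + k) x)
    (hfp : ∀ i j x, f i (j + q) x = f i j x) {y : E n} (hy : ‖y‖ < 1)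
    (hsep : ∀ x ∈ closedBall (0 : E n) 2, F x = y → ∃ i, f i 0 x ≠ f i 0 (T g x))
    {S : Fin n → Set ℝ} {D : Set ℝ} (hS : ∀ l, Dense (S l)) (hD : Dense D)
    (hSD : ∀ t ∈ D, ∀ i j, ∀ x ∈ closedBall (0 : E n) 3, F x = y → f i j x = t →
      ∀ l, x l ∉ S l) : False := by
  classical
  haveI : NeZero p := ⟨hp.ne_zero⟩
  set Φ : Set (E n) := {x | x ∈ closedBall (0 : E n) 3 ∧ F x = y} with hΦ
  have h3B : closedBall (0 : E n) 3 ⊆ BB n := cb (by norm_num)
  have hΦB : ∀ x ∈ Φ, x ∈ BB n := fun x hx => h3B hx.1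
  have hΦn : ∀ x ∈ Φ, ‖x‖ < 5 / 4 := by
    intro x hx
    have := hdisp x (hΦB x hx)
    rw [hx.2, dist_eq_norm] at this
    calc ‖x‖ = ‖y - (y - x)‖ := by congr 1; abel
      _ ≤ ‖y‖ + ‖y - x‖ := norm_sub_le _ _
      _ < _ := by linarith
  have hg1 : ∀ x, T (g ^ 1) x = T g x := fun x => by rw [pow_one]
  have hΦm : ∀ x ∈ Φ, T g x ∈ Φ := by
    intro x hx
    have h1 := hΦn x hx
    have h2 := norm_T_le hT g (hΦB x hx)
    refine ⟨by simp; linarith, ?_⟩
    have h3 := hinv 1 x hx.1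
    rw [hg1] at h3
    rw [h3]
    exact hx.2
  have hΦc : IsCompact Φ := by
    have h1 : IsClosed Φ := by
      have h2 : Φ = closedBall (0 : E n) 3 ∩ F ⁻¹' {y} := by
        ext x
        simp [Φ]
      rw [h2]
      exact (hFc.mono h3B).preimage_isClosed_of_isClosed isClosed_closedBall
        (isClosed_singleton (x := y))
    exact (isCompact_closedBall (0 : E n) 3).of_isClosed_subset h1 (fun x hx => hx.1)
  have hτc : ContinuousOn (T g) Φ := (hT.cont_right g).mono hΦB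
  have hunif : ∀ Ψ : Set (E n), Ψ ⊆ Φ → (∀ x ∈ Ψ, T g x ∈ Ψ) → ∀ ε : ℝ, 0 < ε → ∃ J : ℕ,
      ∀ x ∈ Ψ, dist ((T g)^[p ^ J] x) x < ε := by
    intro Ψ hΨ hΨm ε hε
    obtain ⟨J, hJ⟩ := unif hT (fun j => g ^ p ^ j) hgp ε hε
    refine ⟨J, fun x hx => ?_⟩
    rw [(iter_eq hT g Ψ (fun z hz => hΦB z (hΨ hz)) hΨm (p ^ J) x hx).1]
    exact hJ x (hΦB x (hΨ hx))
  have hf1 : ∀ i, ∀ x ∈ Φ, f i 0 (T g x) = f i 1 x := by
    intro i x hx
    have h1 := hfs i 0 1 x hx.1
    rw [hg1, zero_add] at h1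
    exact h1
  -- a finite set of levels
  obtain ⟨T0, hT0D, hT0⟩ : ∃ T0 : Finset (ℕ × ℝ), (∀ a ∈ T0, a.2 ∈ D) ∧ ∀ x ∈ Φ, ∃ a ∈ T0,
      (f a.1 0 x < a.2 ∧ a.2 < f a.1 1 x) ∨ (f a.1 1 x < a.2 ∧ a.2 < f a.1 0 x) := by
    refine hΦc.induction_on (p := fun s => ∃ T0 : Finset (ℕ × ℝ), (∀ a ∈ T0, a.2 ∈ D) ∧
      ∀ x ∈ s, ∃ a ∈ T0,
      (f a.1 0 x < a.2 ∧ a.2 < f a.1 1 x) ∨ (f a.1 1 x < a.2 ∧ a.2 < f a.1 0 x)) ?_ ?_ ?_ ?_
    · exact ⟨∅, by simp, fun x hx => absurd hx (notMem_empty x)⟩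
    · rintro s t hst ⟨T0, h1, h2⟩
      exact ⟨T0, h1, fun x hx => h2 x (hst hx)⟩
    · rintro s t ⟨T0, h1, h2⟩ ⟨T1, h3, h4⟩
      refine ⟨T0 ∪ T1, ?_, ?_⟩
      · intro a ha
        rcases Finset.mem_union.1 ha with h | h
        · exact h1 a h
        · exact h3 a h
      · rintro x (hx | hx)
        · obtain ⟨a, ha, h⟩ := h2 x hx
          exact ⟨a, Finset.mem_union_left _ ha, h⟩
        · obtain ⟨a, ha, h⟩ := h4 x hx
          exact ⟨a, Finset.mem_union_right _ ha, h⟩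
    · intro x hx
      have hx2 : x ∈ closedBall (0 : E n) 2 := by
        have := hΦn x hx
        simp
        linarith
      obtain ⟨i, hi⟩ := hsep x hx2 hx.2
      rw [hf1 i x hx] at hi
      have hc0 : ContinuousWithinAt (f i 0) Φ x := ((hfc i 0).mono hΦB) x hx
      have hc1 : ContinuousWithinAt (f i 1) Φ x := ((hfc i 1).mono hΦB) x hx
      rcases lt_or_gt_of_ne hi with h | h
      · obtain ⟨t, htD, ht1, ht2⟩ := hD.exists_between h
        refine ⟨{x' | f i 0 x' < t ∧ t < f i 1 x'}, ?_, {(i, t)}, by simpa using htD, ?_⟩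
        · exact (hc0.eventually (gt_mem_nhds ht1)).and (hc1.eventually (lt_mem_nhds ht2))
        · intro x' hx'
          exact ⟨(i, t), by simp, Or.inl hx'⟩
      · obtain ⟨t, htD, ht1, ht2⟩ := hD.exists_between h
        refine ⟨{x' | f i 1 x' < t ∧ t < f i 0 x'}, ?_, {(i, t)}, by simpa using htD, ?_⟩
        · exact (hc1.eventually (gt_mem_nhds ht1)).and (hc0.eventually (lt_mem_nhds ht2))
        · intro x' hx'
          exact ⟨(i, t), by simp, Or.inr hx'⟩
  -- the invariant function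
  set w : E n → ℝ := fun x => ∏ a ∈ T0, ∏ j ∈ Finset.range q, |f a.1 j x - a.2| with hw
  have hwc : ContinuousOn w (BB n) := by
    refine continuousOn_finsetProd _ fun a _ => continuousOn_finsetProd _ fun j _ => ?_
    exact ((hfc a.1 j).sub continuousOn_const).abs
  have hw0 : ∀ x, 0 ≤ w x := fun x => Finset.prod_nonneg fun a _ => Finset.prod_nonneg
    fun j _ => abs_nonneg _
  have hwinv : ∀ k : ℕ, ∀ x ∈ closedBall (0 : E n) 3, w (T (g ^ k) x) = w x := by
    intro k x hx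
    refine Finset.prod_congr rfl fun a _ => ?_
    have h1 : ∀ j ∈ Finset.range q, |f a.1 j (T (g ^ k) x) - a.2| = |f a.1 (j + k) x - a.2| :=
      fun j _ => by rw [hfs a.1 j k x hx]
    rw [Finset.prod_congr rfl h1]
    exact prod_shift (h := fun j => |f a.1 j x - a.2|) (fun j => by
      show |f a.1 (j + q) x - a.2| = |f a.1 j x - a.2|
      rw [hfp]) k
  have hwz : ∀ x, w x = 0 → ∃ a ∈ T0, ∃ j, f a.1 j x = a.2 := by
    intro x hx
    obtain ⟨a, ha, h1⟩ := Finset.prod_eq_zero_iff.1 hx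
    obtain ⟨j, -, h2⟩ := Finset.prod_eq_zero_iff.1 h1
    exact ⟨a, ha, j, sub_eq_zero.1 (abs_eq_zero.1 h2)⟩
  have hwnz : ∀ x, w x ≠ 0 → ∀ a ∈ T0, f a.1 0 x ≠ a.2 := by
    intro x hx a ha h
    apply hx
    refine Finset.prod_eq_zero ha (Finset.prod_eq_zero (Finset.mem_range.2 hq) ?_)
    rw [h, sub_self, abs_zero]
  have hwτ : ∀ x ∈ Φ, w (T g x) = w x := by
    intro x hx
    have := hwinv 1 x hx.1
    rwa [hg1] at this
  -- the labels near the zero set
  obtain ⟨ε, hε, WB, hWBc, hWBd, hWBΦ, hWBcov, hWBτ⟩ : ∃ ε : ℝ, 0 < ε ∧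
      ∃ W' : ZMod p → Set (E n), (∀ i, IsCompact (W' i)) ∧
      (∀ i j, i ≠ j → Disjoint (W' i) (W' j)) ∧ (∀ i, W' i ⊆ Φ) ∧
      (∀ x ∈ Φ, w x ≤ ε → ∃ i, x ∈ W' i) ∧ ∀ i, ∀ x ∈ W' i, T g x ∈ W' (i + 1) := by
    have hZc : IsCompact {x | x ∈ Φ ∧ w x = 0} := by
      have h1 : {x | x ∈ Φ ∧ w x = 0} = Φ ∩ w ⁻¹' {0} := by
        ext x
        simp
      rw [h1]
      exact hΦc.of_isClosed_subset ((hwc.mono hΦB).preimage_isClosed_of_isClosed
        hΦc.isClosed (isClosed_singleton (x := (0 : ℝ)))) inter_subset_left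
    have hZm : ∀ x ∈ {x | x ∈ Φ ∧ w x = 0}, T g x ∈ {x | x ∈ Φ ∧ w x = 0} := by
      rintro x ⟨hx, hx0⟩
      exact ⟨hΦm x hx, by rw [hwτ x hx, hx0]⟩
    obtain ⟨W, hW1, hW2, hW3, hW4⟩ := Pool.Agent.Y489.SP.Part.t_PART n p hp
      {x | x ∈ Φ ∧ w x = 0} (T g) hZc (by
        rintro x ⟨hx, hx0⟩ x' ⟨hx', hx'0⟩ hne
        obtain ⟨l, hl⟩ : ∃ l : Fin n, x l ≠ x' l := by
          by_contra hall
          push Not at hall
          exact hne (PiLp.ext hall)
        have hav : ∀ z ∈ {x | x ∈ Φ ∧ w x = 0}, z l ∉ S l := by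
          rintro z ⟨hz, hz0⟩
          obtain ⟨a, ha, j, hj⟩ := hwz z hz0
          exact hSD a.2 (hT0D a ha) a.1 j z hz.1 hz.2 hj l
        rcases lt_or_gt_of_ne hl with h3 | h3
        · obtain ⟨t, htS, ht1, ht2⟩ := (hS l).exists_between h3
          exact ⟨l, t, fun z hz hzt => hav z hz (by rw [hzt]; exact htS), Or.inl ⟨ht1, ht2⟩⟩
        · obtain ⟨t, htS, ht1, ht2⟩ := (hS l).exists_between h3
          exact ⟨l, t, fun z hz hzt => hav z hz (by rw [hzt]; exact htS), Or.inr ⟨ht1, ht2⟩⟩)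
      (hτc.mono fun x hx => hx.1) hZm (by
        rintro x ⟨hx, -⟩ hfx
        have hx2 : x ∈ closedBall (0 : E n) 2 := by
          have := hΦn x hx
          simp
          linarith
        obtain ⟨i, hi⟩ := hsep x hx2 hx.2
        rw [hfx] at hi
        exact hi rfl) (hunif _ (fun x hx => hx.1) hZm)
    exact extend_labels hΦc hτc hΦm (hwc.mono hΦB) (fun x _ => hw0 x) hwτ hW1 hW2 hW3 hW4
  -- the labels away from the zero set
  obtain ⟨WA, hWAc, hWAd, hWAu, hWAτ⟩ : ∃ W : ZMod p → Set (E n), (∀ i, IsCompact (W i)) ∧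
      (∀ i j, i ≠ j → Disjoint (W i) (W j)) ∧ (⋃ i, W i) = Φ ∩ w ⁻¹' Ici (ε / 3) ∧
      ∀ i, ∀ x ∈ W i, T g x ∈ W (i + 1) := by
    have hYc : IsCompact (Φ ∩ w ⁻¹' Ici (ε / 3)) :=
      hΦc.of_isClosed_subset ((hwc.mono hΦB).preimage_isClosed_of_isClosed hΦc.isClosed
        isClosed_Ici) inter_subset_left
    have hYm : ∀ x ∈ Φ ∩ w ⁻¹' Ici (ε / 3), T g x ∈ Φ ∩ w ⁻¹' Ici (ε / 3) := by
      rintro x ⟨hx, hx0⟩
      exact ⟨hΦm x hx, by rw [mem_preimage, hwτ x hx]; exact hx0⟩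
    have hYnz : ∀ x ∈ Φ ∩ w ⁻¹' Ici (ε / 3), w x ≠ 0 := by
      rintro x ⟨-, hx0⟩ h
      rw [mem_preimage, mem_Ici, h] at hx0
      linarith
    refine part_gen hp hYc (hτc.mono inter_subset_left) hYm
      (hunif _ inter_subset_left hYm) (A := T0 → Prop)
      (fun x a => f a.1.1 0 x < a.1.2) ?_ ?_
    · -- locally constant
      have h1 : ∀ a : T0, ∃ δ : ℝ, 0 < δ ∧ ∀ x ∈ Φ ∩ w ⁻¹' Ici (ε / 3),
          ∀ x' ∈ Φ ∩ w ⁻¹' Ici (ε / 3), dist x x' < δ →
          (f a.1.1 0 x < a.1.2) = (f a.1.1 0 x' < a.1.2) := by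
        intro a
        have hfY : ContinuousOn (f a.1.1 0) (Φ ∩ w ⁻¹' Ici (ε / 3)) :=
          (hfc a.1.1 0).mono fun x hx => hΦB x hx.1
        obtain ⟨m, hm, hmin⟩ := exists_min_pos hYc (f := fun x => |f a.1.1 0 x - a.1.2|)
          (hfY.sub continuousOn_const).abs (fun x hx => abs_pos.2 (sub_ne_zero.2
            (hwnz x (hYnz x hx) a.1 a.2)))
        obtain ⟨δ, hδ, hu⟩ := Metric.uniformContinuousOn_iff.mp
          (hYc.uniformContinuousOn_of_continuous hfY) m hm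
        refine ⟨δ, hδ, fun x hx x' hx' hd => ?_⟩
        have h2 := hu x hx x' hx' hd
        rw [Real.dist_eq] at h2
        have h3 := hmin x hx
        have h4 := hmin x' hx'
        have h5 := abs_lt.1 h2
        apply propext
        constructor
        · intro h
          by_contra h'
          push Not at h'
          rw [abs_of_neg (sub_neg.2 h)] at h3
          linarith [h5.1]
        · intro h
          by_contra h'
          push Not at h'
          rw [abs_of_neg (sub_neg.2 h)] at h4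
          linarith [h5.2]
      choose δ hδ h2 using h1
      rcases isEmpty_or_nonempty T0 with hTe | hTn
      · exact ⟨1, one_pos, fun x _ x' _ _ => funext fun a => hTe.elim a⟩
      · obtain ⟨a0, ha0⟩ := Finite.exists_min δ
        exact ⟨δ a0, hδ a0, fun x hx x' hx' hd => funext fun a =>
          h2 a x hx x' hx' (lt_of_lt_of_le hd (ha0 a))⟩
    · rintro x ⟨hx, -⟩ h
      obtain ⟨a, ha, h1⟩ := hT0 x hx
      have h2 := congrFun h ⟨a, ha⟩
      have h3 : (f a.1 0 (T g x) < a.2) = (f a.1 0 x < a.2) := h2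
      rw [hf1 a.1 x hx] at h3
      rcases h1 with h1 | h1
      · have h4 : f a.1 1 x < a.2 := h3.symm ▸ h1.1
        exact lt_asymm h4 h1.2
      · have h4 : f a.1 0 x < a.2 := h3 ▸ h1.1
        exact lt_asymm h4 h1.2
  refine two hp hT g hgp hFc hdisp hinv (u := fun x => 1 - w x / ε)
    (continuousOn_const.sub (hwc.div_const ε)) (fun k x hx => by rw [hwinv k x hx]) hy hWAc hWBc
    hWAd hWBd ?_ (fun i x hx => (hWBΦ i hx).1) hWAτ hWBτ ?_ ?_
  · intro i x hx
    have h1 : x ∈ ⋃ i, WA i := mem_iUnion.2 ⟨i, hx⟩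
    rw [hWAu] at h1
    exact h1.1.1
  · intro x hx hxy hu
    have h1 : ε / 3 ≤ w x := by
      have h2 : 1 / 3 ≤ w x / ε := by linarith
      rw [le_div_iff₀ hε] at h2
      linarith
    have h2 : x ∈ ⋃ i, WA i := by
      rw [hWAu]
      exact ⟨⟨hx, hxy⟩, h1⟩
    exact mem_iUnion.1 h2
  · intro x hx hxy hu
    have h1 : w x ≤ ε := by
      have h2 : w x / ε ≤ 2 / 3 := by linarith
      rw [div_le_iff₀ hε] at h2
      linarith
    exact hWBcov x ⟨hx, hxy⟩ h1

/-- an element acts trivially if the levels of invariant functions in the fibres of an invariant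
map are separated by hyperplanes -/
theorem fix2 {p : ℕ} (hp : p.Prime) {n : ℕ}
    {H : Type} [Group H] [TopologicalSpace H] [IsTopologicalGroup H] [T2Space H] [CompactSpace H]
    {T : H → E n → E n} (hT : LocAct n H T) (g : H)
    (hgp : Tendsto (fun j : ℕ => g ^ p ^ j) atTop (𝓝 1))
    {F : E n → E n} (hFc : ContinuousOn F (BB n)) (hdisp : ∀ x ∈ BB n, dist (F x) x ≤ 1 / 4)
    (hinv : ∀ k : ℕ, ∀ x ∈ closedBall (0 : E n) 3, F (T (g ^ k) x) = F x)
    (hfix : ∀ x ∈ closedBall (0 : E n) 2, T g x = x → F x = x)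
    {f : ℕ → ℕ → ℕ → E n → ℝ} {q : ℕ → ℕ} (hq : ∀ m, 0 < q m)
    (hfc : ∀ m i j, ContinuousOn (f m i j) (BB n))
    (hfs : ∀ m i j k, ∀ x ∈ closedBall (0 : E n) 3, f m i j (T (g ^ k) x) = f m i (j + k) x)
    (hfp : ∀ m i j x, f m i (j + q m) x = f m i j x)
    (hsep : ∀ δ : ℝ, 0 < δ → ∃ m, ∀ x ∈ closedBall (0 : E n) 2, δ ≤ dist (T g x) x →
      ∃ i, f m i 0 x ≠ f m i 0 (T g x))
    (hD : ∀ U : Set (E n), IsOpen U → U ⊆ ball (0 : E n) 1 → U.Nonempty → ∃ w ∈ U, Sep2 F f w) :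
    ∀ x ∈ ball (0 : E n) 1, T g x = x := by
  have h3B : closedBall (0 : E n) 3 ⊆ BB n := cb (by norm_num)
  -- good values are fixed points
  have key : ∀ y ∈ ball (0 : E n) 1, Sep2 F f y → T g y = y := by
    rintro y hy1 ⟨S, D, hS, hDd, hSD⟩
    by_contra hcon
    have hy1' : ‖y‖ < 1 := by simpa using hy1
    have hΦc : IsCompact (closedBall (0 : E n) 3 ∩ F ⁻¹' {y}) := by
      have h1 : IsClosed (closedBall (0 : E n) 3 ∩ F ⁻¹' {y}) :=
        (hFc.mono h3B).preimage_isClosed_of_isClosed isClosed_closedBall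
          (isClosed_singleton (x := y))
      exact (isCompact_closedBall (0 : E n) 3).of_isClosed_subset h1 inter_subset_left
    obtain ⟨δ, hδ, hmin⟩ := exists_min_pos hΦc (f := fun x => dist (T g x) x)
      (continuous_dist.comp_continuousOn (((hT.cont_right g).mono
        (inter_subset_left.trans h3B)).prodMk continuousOn_id)) (by
        rintro x ⟨hx, hxy⟩
        rw [dist_pos]
        intro hfx
        apply hcon
        have hxy' : F x = y := hxy
        have h1 : x ∈ closedBall (0 : E n) 2 := by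
          have h2 := hdisp x (h3B hx)
          have h3 := dist_triangle_left x 0 (F x)
          rw [hxy', dist_zero_right y] at h3
          rw [hxy'] at h2
          rw [mem_closedBall]
          linarith
        have h2 := hfix x h1 hfx
        rw [← hxy', h2]
        exact hfx)
    obtain ⟨m, hm⟩ := hsep δ hδ
    exact fibre_false hp hT g hgp hFc hdisp hinv (hq m) (hfc m) (hfs m) (hfp m) hy1'
      (fun x hx hxy => hm x hx (hmin x ⟨cb (by norm_num) hx, hxy⟩)) hS hDd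
      (fun t ht i j => hSD t ht m i j)
  intro w hw
  by_contra hcon
  -- the set of points which are not fixed is open
  have hBo : ball (0 : E n) 1 ⊆ BB n := fun x hx => by
    have : ‖x‖ < 1 := by simpa using hx
    exact mem_BB.2 (by linarith)
  have hc : ContinuousOn (fun x => dist (T g x) x) (ball (0 : E n) 1) :=
    continuous_dist.comp_continuousOn (((hT.cont_right g).mono hBo).prodMk continuousOn_id)
  have hU : IsOpen (ball (0 : E n) 1 ∩ (fun x => dist (T g x) x) ⁻¹' Ioi 0) :=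
    hc.isOpen_inter_preimage isOpen_ball isOpen_Ioi
  obtain ⟨w', hw', hs⟩ := hD _ hU inter_subset_left ⟨w, hw, by
    rw [mem_preimage, mem_Ioi]
    exact dist_pos.2 hcon⟩
  have h1 := key w' hw'.1 hs
  have h2 : 0 < dist (T g w') w' := hw'.2
  rw [h1, dist_self] at h2
  exact lt_irrefl _ h2

end Pool.Agent.Q100.HK
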