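import Pool.Agent.Q100.HK.Two2
import Pool.Agent.Y532.SP.LOCS

/-!
# A fibre is not the union of two families permuted cyclically
-/

set_option autoImplicit false

open MeasureTheory Set Metric Filter Topology
open scoped ENNReal NNReal

noncomputable section

namespace Pool.Agent.Q100.HK

open Pool.Agent.Y485.HS Pool.Agent.Y489.SP Pool.Agent.Y532.SP.LOCS

/-- neighbourhoods of one family -/
lemma side {p n : ℕ} [NeZero p] {F τ : E n → E n} (hFc : ContinuousOn F (BB n))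
    (hdisp : ∀ x ∈ BB n, dist (F x) x ≤ 1 / 4) (hτc : ContinuousOn τ (BB n))
    (hτd : ∀ x ∈ BB n, dist (τ x) x ≤ 1 / 4) {u : E n → ℝ} (huc : ContinuousOn u (BB n))
    {y : E n} (hy : ‖y‖ < 1) {W : ZMod p → Set (E n)} (hW : ∀ i, IsCompact (W i))
    (hWd : ∀ i j, i ≠ j → Disjoint (W i) (W j))
    (hWs : ∀ i, ∀ x ∈ W i, x ∈ closedBall (0 : E n) 3)
    (hWτ : ∀ i, ∀ x ∈ W i, τ x ∈ W (i + 1)) {J : Set ℝ} (hJ : IsClosed J)
    (hcov : ∀ x ∈ closedBall (0 : E n) 3, F x = y → u x ∈ J → ∃ i, x ∈ W i) :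
    ∃ N : ZMod p → Set (E n), (∀ i, IsOpen (N i)) ∧ (∀ i, N i ⊆ ball 0 2) ∧
      (∀ i j, i ≠ j → Disjoint (N i) (N j)) ∧ ∃ δ0 : ℝ, 0 < δ0 ∧ ∀ δ : ℝ, δ ≤ δ0 → ∀ y' : E n,
        dist y' y ≤ δ → ∀ x ∈ closedBall (0 : E n) (5 / 2), dist (F x) y' ≤ δ → u x ∈ J →
        (∃ i, x ∈ N i) ∧ ∀ i, (x ∈ N i ↔ τ x ∈ N (i + 1)) := by
  -- disjoint thickenings
  obtain ⟨η0, hη0, hη0d⟩ : ∃ η0 : ℝ, 0 < η0 ∧ ∀ i j : ZMod p, i ≠ j →
      Disjoint (thickening η0 (W i)) (thickening η0 (W j)) := by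
    have h1 : ∀ q : ZMod p × ZMod p, ∃ η : ℝ, 0 < η ∧ (q.1 ≠ q.2 →
        Disjoint (thickening η (W q.1)) (thickening η (W q.2))) := by
      rintro ⟨i, j⟩
      by_cases hij : i = j
      · exact ⟨1, one_pos, fun h => absurd hij h⟩
      · obtain ⟨η, hη, h⟩ := (hWd i j hij).exists_thickenings (hW i) (hW j).isClosed
        exact ⟨η, hη, fun _ => h⟩
    choose η hη h using h1
    obtain ⟨q0, hq0⟩ := Finite.exists_min η
    exact ⟨η q0, hη q0, fun i j hij => (h (i, j) hij).mono (thickening_mono (hq0 (i, j)) _)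
      (thickening_mono (hq0 (i, j)) _)⟩
  -- uniform continuity
  obtain ⟨η1, hη1, hunif⟩ := Metric.uniformContinuousOn_iff.mp
    ((isCompact_closedBall (0 : E n) 4).uniformContinuousOn_of_continuous hτc) η0 hη0
  obtain ⟨η, hη, hηa, hηb⟩ : ∃ η : ℝ, 0 < η ∧ η ≤ η0 ∧ η ≤ η1 :=
    ⟨min η0 η1, lt_min hη0 hη1, min_le_left _ _, min_le_right _ _⟩
  -- the margin
  set S : Set (E n) := (closedBall (0 : E n) 3 ∩ u ⁻¹' J) \ ⋃ i, thickening η (W i) with hS
  have hSc : IsCompact S := by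
    have h1 : IsClosed (closedBall (0 : E n) 3 ∩ u ⁻¹' J) :=
      (huc.mono (cb (by norm_num))).preimage_isClosed_of_isClosed isClosed_closedBall hJ
    exact ((isCompact_closedBall (0 : E n) 3).of_isClosed_subset h1 inter_subset_left).diff
      (isOpen_iUnion fun i => isOpen_thickening)
  obtain ⟨m, hm, hmin⟩ := exists_min_pos hSc (f := fun x => dist (F x) y) (by
      have h2 : Continuous (fun z : E n => dist z y) := by fun_prop
      exact h2.comp_continuousOn (hFc.mono (diff_subset.trans (inter_subset_left.trans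
        (cb (by norm_num)))))) (by
      rintro x ⟨⟨hx, hu⟩, hxW⟩
      rw [dist_pos]
      intro hxy
      obtain ⟨i, hi⟩ := hcov x hx hxy hu
      exact hxW (mem_iUnion.2 ⟨i, self_subset_thickening hη _ hi⟩))
  refine ⟨fun i => thickening η0 (W i) ∩ ball 0 2, fun i => isOpen_thickening.inter isOpen_ball,
    fun i => inter_subset_right, fun i j hij => (hη0d i j hij).mono inter_subset_left
      inter_subset_left, min (m / 3) (1 / 8), by positivity, ?_⟩
  intro δ hδ y' hy' x hx hxy hu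
  have hδm : δ ≤ m / 3 := hδ.trans (min_le_left _ _)
  have hδ8 : δ ≤ 1 / 8 := hδ.trans (min_le_right _ _)
  have hx3 : x ∈ closedBall (0 : E n) 3 := cb (by norm_num) hx
  have hx4 : x ∈ BB n := cb (by norm_num) hx
  have h1 : dist (F x) y < m := by
    have := dist_triangle (F x) y' y
    linarith
  have h2 : ∃ i, x ∈ thickening η (W i) := by
    by_contra hcon
    have h3 : x ∈ S := ⟨⟨hx3, hu⟩, fun h => hcon (mem_iUnion.1 h)⟩
    exact absurd (hmin x h3) (not_le.2 h1)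
  have hxn : ‖x‖ < 13 / 8 := by
    have h3 := hdisp x hx4
    have h4 := dist_triangle_left x y (F x)
    have h5 := dist_triangle (F x) y' y
    have h6 := dist_triangle x y 0
    rw [dist_zero_right, dist_zero_right] at h6
    linarith
  have hτn : ‖τ x‖ < 2 := by
    have h3 := hτd x hx4
    have h4 := dist_triangle (τ x) x 0
    rw [dist_zero_right, dist_zero_right] at h4
    linarith
  have hxb : x ∈ ball (0 : E n) 2 := by
    rw [mem_ball, dist_zero_right]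
    linarith
  have hτb : τ x ∈ ball (0 : E n) 2 := by
    rw [mem_ball, dist_zero_right]
    exact hτn
  have h3 : ∀ i, x ∈ thickening η (W i) → τ x ∈ thickening η0 (W (i + 1)) := by
    intro i hi
    obtain ⟨w, hw, hxw⟩ := mem_thickening_iff.1 hi
    exact mem_thickening_iff.2 ⟨τ w, hWτ i w hw, hunif x hx4 w (cb (by norm_num) (hWs i w hw))
      (hxw.trans_le hηb)⟩
  obtain ⟨i0, hi0⟩ := h2
  have hi0' : x ∈ thickening η0 (W i0) := thickening_mono hηa _ hi0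
  refine ⟨⟨i0, hi0', hxb⟩, fun i => ⟨fun h => ?_, fun h => ?_⟩⟩
  · have h4 : i0 = i := by
      by_contra hne
      exact Set.disjoint_left.1 (hη0d i0 i hne) hi0' h.1
    subst h4
    exact ⟨h3 _ hi0, hτb⟩
  · have h4 : i0 + 1 = i + 1 := by
      by_contra hne
      exact Set.disjoint_left.1 (hη0d (i0 + 1) (i + 1) hne) (h3 i0 hi0) h.1
    have h5 : i0 = i := add_right_cancel h4
    subst h5
    exact ⟨hi0', hxb⟩

/-- levels of measure zero -/
lemma levels {n : ℕ} {u : E n → ℝ} (huc : ContinuousOn u (BB n)) {a b : ℝ} (hab : a < b) :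
    ∃ t, a < t ∧ t < b ∧ volume (BB n ∩ {x | u x = t}) = 0 := by
  have hB : MeasurableSet (BB n) := isClosed_closedBall.measurableSet
  have h1 : AEMeasurable u (volume.restrict (BB n)) := huc.aemeasurable hB
  have h2 : Set.Countable {t : ℝ | 0 < (volume.restrict (BB n)) {x | u x = t}} :=
    Measure.countable_meas_level_set_pos₀ h1.nullMeasurable
  obtain ⟨t, ht, hta, htb⟩ := (h2.dense_compl ℝ).exists_between hab
  refine ⟨t, hta, htb, ?_⟩
  have h3 : (volume.restrict (BB n)) {x | u x = t} = 0 := by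
    by_contra hcon
    exact ht (pos_iff_ne_zero.2 hcon)
  rw [Measure.restrict_apply' hB] at h3
  rwa [inter_comm]

/-- the topological theorem -/
theorem two {p : ℕ} (hp : p.Prime) {n : ℕ}
    {H : Type} [Group H] [TopologicalSpace H] [IsTopologicalGroup H] [T2Space H] [CompactSpace H]
    {T : H → E n → E n} (hT : LocAct n H T) (g : H)
    (hgp : Tendsto (fun j : ℕ => g ^ p ^ j) atTop (𝓝 1))
    {F : E n → E n} (hFc : ContinuousOn F (BB n)) (hdisp : ∀ x ∈ BB n, dist (F x) x ≤ 1 / 4)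
    (hinv : ∀ k : ℕ, ∀ x ∈ closedBall (0 : E n) 3, F (T (g ^ k) x) = F x)
    {u : E n → ℝ} (huc : ContinuousOn u (BB n))
    (huinv : ∀ k : ℕ, ∀ x ∈ closedBall (0 : E n) 3, u (T (g ^ k) x) = u x)
    {y : E n} (hy : ‖y‖ < 1) {WA WB : ZMod p → Set (E n)} (hWA : ∀ i, IsCompact (WA i))
    (hWB : ∀ i, IsCompact (WB i)) (hAd : ∀ i j, i ≠ j → Disjoint (WA i) (WA j))
    (hBd : ∀ i j, i ≠ j → Disjoint (WB i) (WB j))
    (hAs : ∀ i, ∀ x ∈ WA i, x ∈ closedBall (0 : E n) 3)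
    (hBs : ∀ i, ∀ x ∈ WB i, x ∈ closedBall (0 : E n) 3)
    (hAτ : ∀ i, ∀ x ∈ WA i, T g x ∈ WA (i + 1)) (hBτ : ∀ i, ∀ x ∈ WB i, T g x ∈ WB (i + 1))
    (hAcov : ∀ x ∈ closedBall (0 : E n) 3, F x = y → u x ≤ 2 / 3 → ∃ i, x ∈ WA i)
    (hBcov : ∀ x ∈ closedBall (0 : E n) 3, F x = y → 1 / 3 ≤ u x → ∃ i, x ∈ WB i) : False := by
  haveI : NeZero p := ⟨hp.ne_zero⟩
  obtain ⟨t1, h13, h1m, hn1⟩ := levels huc (show (1 : ℝ) / 3 < 2 / 3 by norm_num)
  obtain ⟨tm, ht1m, htm3, hnm⟩ := levels huc h1m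
  obtain ⟨t2, htm2, ht23, hn2⟩ := levels huc htm3
  obtain ⟨NA, hNAo, hNA2, hNAd, δA, hδA, hNA⟩ := side hFc hdisp (hT.cont_right g) (hT.disp g)
    huc hy hWA hAd hAs hAτ (isClosed_Iic (a := (2 / 3 : ℝ))) hAcov
  obtain ⟨NB, hNBo, hNB2, hNBd, δB, hδB, hNB⟩ := side hFc hdisp (hT.cont_right g) (hT.disp g)
    huc hy hWB hBd hBs hBτ (isClosed_Ici (a := (1 / 3 : ℝ))) hBcov
  obtain ⟨δ, hδ, hδa, hδb⟩ : ∃ δ : ℝ, 0 < δ ∧ δ ≤ δA ∧ δ ≤ δB :=
    ⟨min δA δB, lt_min hδA hδB, min_le_left _ _, min_le_right _ _⟩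
  obtain ⟨F0, hF0s, hF06, hF0F, hF0d⟩ := Pool.Agent.Y739.SP.t_APX n F hFc hdisp δ hδ
  -- the value
  obtain ⟨y', hy'1, hy'y, hy'L⟩ : ∃ y' : E n, ‖y'‖ < 1 ∧ dist y' y ≤ δ ∧
      ∀ x ∈ closedBall (0 : E n) 3, (u x = t1 ∨ u x = tm ∨ u x = t2) → F0 x ≠ y' := by
    set L : Set (E n) := BB n ∩ {x | u x = t1 ∨ u x = tm ∨ u x = t2} with hL
    have hL0 : volume L = 0 := by
      have h1 : L ⊆ (BB n ∩ {x | u x = t1}) ∪ ((BB n ∩ {x | u x = tm}) ∪
          (BB n ∩ {x | u x = t2})) := by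
        rintro x ⟨hx, h | h | h⟩
        · exact Or.inl ⟨hx, h⟩
        · exact Or.inr (Or.inl ⟨hx, h⟩)
        · exact Or.inr (Or.inr ⟨hx, h⟩)
      exact measure_mono_null h1 (measure_union_null hn1 (measure_union_null hnm hn2))
    have hI0 : volume (F0 '' L) = 0 :=
      addHaar_image_eq_zero_of_differentiableOn_of_addHaar_eq_zero volume
        (hF0s.differentiable one_ne_zero).differentiableOn hL0
    have hop : IsOpen (ball (0 : E n) 1 ∩ ball y δ) := isOpen_ball.inter isOpen_ball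
    have hne : (ball (0 : E n) 1 ∩ ball y δ).Nonempty :=
      ⟨y, by rw [mem_ball, dist_zero_right]; exact hy, mem_ball_self hδ⟩
    have hpos : 0 < volume (ball (0 : E n) 1 ∩ ball y δ) := hop.measure_pos volume hne
    have h2 : ¬ (ball (0 : E n) 1 ∩ ball y δ) ⊆ F0 '' L := fun hsub =>
      absurd (measure_mono_null hsub hI0) hpos.ne'
    obtain ⟨y', hy', hy'2⟩ := Set.not_subset.1 h2
    refine ⟨y', by simpa using hy'.1, (mem_ball.1 hy'.2).le, fun x hx hl he => ?_⟩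
    exact hy'2 ⟨x, ⟨cb (by norm_num) hx, hl⟩, he⟩
  let D : Dat n p := ⟨F, F0, u, fun k => T (g ^ k), y', NA, NB, t1, tm, t2, δ⟩
  have hD : D.Good := by
    refine ⟨hy'1, fun k => hT.cont_right (g ^ k), fun k => hT.disp (g ^ k), ?_, ?_, ?_, huc, ?_,
      ?_, hF0s, hF06, hF0d, hF0F, hy'L, ht1m, htm2, hNAo, hNBo, hNA2, hNB2, hNAd, hNBd, ?_, ?_,
      ?_, ?_⟩
    · intro x hx
      show T (g ^ 0) x = x
      rw [pow_zero]
      exact hT.one x hx
    · intro k x hx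
      show T (g ^ k) (T (g ^ 1) x) = T (g ^ (k + 1)) x
      have hx4 : x ∈ BB n := cb (by norm_num) hx
      have h1 : T (g ^ 1) x ∈ BB n := cb (by norm_num) (move (hT.disp (g ^ 1)) (by norm_num) hx)
      rw [pow_add, hT.mul (g ^ k) (g ^ 1) x hx4 h1]
    · intro ε hε
      obtain ⟨K, hK⟩ := unif hT (fun j => g ^ p ^ (j + 1))
        (hgp.comp (tendsto_add_atTop_nat 1)) ε hε
      exact ⟨K, fun x hx => hK x (cb (by norm_num) hx)⟩
    · exact fun k x hx => huinv k x (cb (by norm_num) hx)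
    · exact fun k x hx => hinv k x (cb (by norm_num) hx)
    · intro x hx hxy hu
      have hu' : u x ≤ t2 := hu
      exact (hNA δ hδa y' hy'y x hx hxy (show u x ∈ Iic (2 / 3) from mem_Iic.2 (by linarith))).1
    · intro x hx hxy hu
      have hu' : t1 ≤ u x := hu
      exact (hNB δ hδb y' hy'y x hx hxy (show u x ∈ Ici (1 / 3) from mem_Ici.2 (by linarith))).1
    · intro x hx hxy hu i
      have hu' : u x ≤ t2 := hu
      show x ∈ NA i ↔ T (g ^ 1) x ∈ NA (i + 1)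
      rw [pow_one]
      exact (hNA δ hδa y' hy'y x hx hxy
        (show u x ∈ Iic (2 / 3) from mem_Iic.2 (by linarith))).2 i
    · intro x hx hxy hu i
      have hu' : t1 ≤ u x := hu
      show x ∈ NB i ↔ T (g ^ 1) x ∈ NB (i + 1)
      rw [pow_one]
      exact (hNB δ hδb y' hy'y x hx hxy
        (show u x ∈ Ici (1 / 3) from mem_Ici.2 (by linarith))).2 i
  exact no_dat hD hp.one_lt.ne'

end Pool.Agent.Q100.HK
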