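import Pool.Agent.Y489.SP.Part
import Pool.Agent.Q100.HK.Two3

/-!
# Labels
-/

set_option autoImplicit false

open MeasureTheory Set Metric Filter Topology
open scoped ENNReal NNReal

noncomputable section

namespace Pool.Agent.Q100.HK

open Pool.Agent.Y485.HS Pool.Agent.Y489.SP Pool.Agent.Y489.SP.Part

/-- a compact set with a locally constant function changed by the map has a cyclic partition -/
theorem part_gen {n p : ℕ} (hp : p.Prime) {Φ : Set (E n)} {τ : E n → E n} (hΦ : IsCompact Φ)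
    (hτ : ContinuousOn τ Φ) (hmap : ∀ x ∈ Φ, τ x ∈ Φ)
    (hunif : ∀ ε : ℝ, 0 < ε → ∃ J : ℕ, ∀ x ∈ Φ, dist (τ^[p ^ J] x) x < ε)
    {A : Type} (c : E n → A)
    (hcε : ∃ ε : ℝ, 0 < ε ∧ ∀ x ∈ Φ, ∀ x' ∈ Φ, dist x x' < ε → c x = c x')
    (hcτ : ∀ x ∈ Φ, c (τ x) ≠ c x) :
    ∃ W : ZMod p → Set (E n), (∀ i, IsCompact (W i)) ∧ (∀ i j, i ≠ j → Disjoint (W i) (W j)) ∧
      (⋃ i, W i) = Φ ∧ ∀ i, ∀ x ∈ W i, τ x ∈ W (i + 1) := by
  classical
  obtain ⟨ε, hε, hεc⟩ := hcε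
  obtain ⟨J, hJ⟩ := hunif ε hε
  have hit : ∀ k : ℕ, ∀ x ∈ Φ, τ^[k] x ∈ Φ := by
    intro k
    induction k with
    | zero => intro x hx; exact hx
    | succ k ih => intro x hx; rw [Function.iterate_succ_apply]; exact ih _ (hmap x hx)
  obtain ⟨q, hqdef⟩ : ∃ q : ℕ, q = p ^ J := ⟨_, rfl⟩
  have hqpos : 0 < q := by rw [hqdef]; exact pow_pos hp.pos J
  let code : E n → ℕ → A := fun x k => c (τ^[k] x)
  have hper : ∀ x ∈ Φ, ∀ k, code x (k + q) = code x k := by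
    intro x hx k
    show c (τ^[k + q] x) = c (τ^[k] x)
    rw [add_comm, Function.iterate_add_apply, hqdef]
    exact hεc _ (hit _ _ (hit _ _ hx)) _ (hit _ _ hx) (hJ _ (hit _ _ hx))
  let Ω : Type := {f : ℕ → A // ∃ x ∈ Φ, f = code x}
  have hΩper : ∀ f : Ω, ∀ k, f.1 (k + q) = f.1 k := by
    rintro ⟨f, x, hx, rfl⟩ k
    exact hper x hx k
  have hshift : ∀ j : ℕ, ∀ f : Ω, ∃ x ∈ Φ, (fun k => f.1 (k + j)) = code x := by
    rintro j ⟨f, x, hx, rfl⟩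
    refine ⟨τ^[j] x, hit j x hx, funext fun k => ?_⟩
    show c (τ^[k + j] x) = c (τ^[k] (τ^[j] x))
    rw [Function.iterate_add_apply]
  let s : Equiv.Perm Ω :=
    { toFun := fun f => ⟨fun k => f.1 (k + 1), hshift 1 f⟩
      invFun := fun f => ⟨fun k => f.1 (k + (q - 1)), hshift (q - 1) f⟩
      left_inv := by
        intro f
        apply Subtype.ext
        funext k
        show f.1 (k + (q - 1) + 1) = f.1 k
        rw [show k + (q - 1) + 1 = k + q by omega]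
        exact hΩper f k
      right_inv := by
        intro f
        apply Subtype.ext
        funext k
        show f.1 (k + 1 + (q - 1)) = f.1 k
        rw [show k + 1 + (q - 1) = k + q by omega]
        exact hΩper f k }
  have hspow : ∀ j : ℕ, ∀ f : Ω, ∀ k, ((s ^ j) f).1 k = f.1 (k + j) := by
    intro j
    induction j with
    | zero => intro f k; simp
    | succ j ih =>
      intro f k
      rw [pow_succ, Equiv.Perm.mul_apply, ih]
      show f.1 (k + j + 1) = f.1 (k + (j + 1))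
      rfl
  have hs1 : s ^ (p ^ J) = 1 := by
    ext f : 1
    apply Subtype.ext
    funext k
    rw [hspow, ← hqdef, hΩper]
    rfl
  have hsfix : ∀ f : Ω, s f ≠ f := by
    rintro ⟨f, x, hx, rfl⟩ h
    have h1 := congrFun (congrArg Subtype.val h) 0
    have h2 : code x 1 = code x 0 := h1
    exact hcτ x hx h2
  obtain ⟨κ, hκ⟩ := exists_kappa s p J hp hs1 hsfix
  let cd : ∀ x, x ∈ Φ → Ω := fun x hx => ⟨code x, x, hx, rfl⟩
  let W : ZMod p → Set (E n) := fun i => {x | ∃ hx : x ∈ Φ, κ (cd x hx) = i}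
  have hloc : ∀ x ∈ Φ, ∃ η : ℝ, 0 < η ∧ ∀ x' ∈ Φ, dist x' x < η → code x' = code x := by
    intro x hx
    have hk : ∀ k : ℕ, ∃ η : ℝ, 0 < η ∧ ∀ x' ∈ Φ, dist x' x < η → code x' k = code x k := by
      intro k
      have hcont : ContinuousOn (τ^[k]) Φ := hτ.iterate (fun x hx => hmap x hx) k
      obtain ⟨η, hη, h⟩ := Metric.continuousOn_iff.1 hcont x hx ε hε
      exact ⟨η, hη, fun x' hx' hd => hεc _ (hit k x' hx') _ (hit k x hx) (h x' hx' hd)⟩
    choose η hη h using hk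
    obtain ⟨k0, hk0, hmin0⟩ := Finset.exists_min_image (Finset.range q) η ⟨0, by simpa using hqpos⟩
    refine ⟨η k0, hη k0, fun x' hx' hd => funext fun k => ?_⟩
    have hmod : ∀ y ∈ Φ, ∀ k, code y k = code y (k % q) := by
      intro y hy k
      induction k using Nat.strong_induction_on with
      | _ k ih =>
        rcases lt_or_ge k q with hlt | hge
        · rw [Nat.mod_eq_of_lt hlt]
        · have h1 := hper y hy (k - q)
          rw [Nat.sub_add_cancel hge] at h1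
          rw [h1, ih (k - q) (by omega), Nat.mod_eq_sub_mod hge]
    rw [hmod x' hx' k, hmod x hx k]
    refine h _ x' hx' (lt_of_lt_of_le hd (hmin0 _ ?_))
    exact Finset.mem_range.2 (Nat.mod_lt _ hqpos)
  have hcd : ∀ x (hx : x ∈ Φ) x' (hx' : x' ∈ Φ), code x = code x' → cd x hx = cd x' hx' :=
    fun x hx x' hx' h => Subtype.ext h
  refine ⟨W, fun i => ?_, ?_, ?_, ?_⟩
  · choose! η hη h using hloc
    have h1 : W i = Φ \ ⋃ x ∈ Φ \ W i, ball x (η x) := by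
      ext z
      constructor
      · rintro ⟨hz, hzi⟩
        refine ⟨hz, fun hz' => ?_⟩
        obtain ⟨x, ⟨hx, hxW⟩, hzx⟩ := mem_iUnion₂.1 hz'
        exact hxW ⟨hx, by rw [← hzi, hcd z hz x hx (h x hx z hz hzx)]⟩
      · rintro ⟨hz, hz'⟩
        by_contra hzW
        exact hz' (mem_iUnion₂.2 ⟨z, ⟨hz, hzW⟩, mem_ball_self (hη z hz)⟩)
    rw [h1]
    exact hΦ.diff (isOpen_biUnion fun x _ => isOpen_ball)
  · intro i j hij
    rw [Set.disjoint_left]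
    rintro x ⟨hx, h1⟩ ⟨hx', h2⟩
    exact hij (h1.symm.trans h2)
  · ext x
    constructor
    · intro hx
      obtain ⟨i, hx', -⟩ := mem_iUnion.1 hx
      exact hx'
    · intro hx
      exact mem_iUnion.2 ⟨κ (cd x hx), hx, rfl⟩
  · rintro i x ⟨hx, rfl⟩
    refine ⟨hmap x hx, ?_⟩
    rw [← hκ]
    congr 1

/-- labels of the zero set of an invariant function extend to a neighbourhood -/
theorem extend_labels {n p : ℕ} [NeZero p] {Φ : Set (E n)} {τ : E n → E n} (hΦ : IsCompact Φ)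
    (hτ : ContinuousOn τ Φ) (hmap : ∀ x ∈ Φ, τ x ∈ Φ) {w : E n → ℝ} (hw : ContinuousOn w Φ)
    (hw0 : ∀ x ∈ Φ, 0 ≤ w x) (hwτ : ∀ x ∈ Φ, w (τ x) = w x) {W : ZMod p → Set (E n)}
    (hW : ∀ i, IsCompact (W i)) (hWd : ∀ i j, i ≠ j → Disjoint (W i) (W j))
    (hWu : (⋃ i, W i) = {x | x ∈ Φ ∧ w x = 0}) (hWτ : ∀ i, ∀ x ∈ W i, τ x ∈ W (i + 1)) :
    ∃ ε : ℝ, 0 < ε ∧ ∃ W' : ZMod p → Set (E n), (∀ i, IsCompact (W' i)) ∧
      (∀ i j, i ≠ j → Disjoint (W' i) (W' j)) ∧ (∀ i, W' i ⊆ Φ) ∧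
      (∀ x ∈ Φ, w x ≤ ε → ∃ i, x ∈ W' i) ∧ ∀ i, ∀ x ∈ W' i, τ x ∈ W' (i + 1) := by
  have hWΦ : ∀ i, W i ⊆ Φ := fun i x hx => by
    have h1 : x ∈ ⋃ i, W i := mem_iUnion.2 ⟨i, hx⟩
    rw [hWu] at h1
    exact h1.1
  obtain ⟨η0, hη0, hη0d⟩ : ∃ η0 : ℝ, 0 < η0 ∧ ∀ i j : ZMod p, i ≠ j →
      Disjoint (thickening η0 (W i)) (thickening η0 (W j)) := by
    have h1 : ∀ q : ZMod p × ZMod p, ∃ η : ℝ, 0 < η ∧ (q.1 ≠ q.2 →
        Disjoint (thickening η (W q.1)) (thickening η (W q.2))) := by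
      rintro ⟨i, j⟩
      by_cases hij : i = j
      · exact ⟨1, one_pos, fun h => absurd hij h⟩
      · obtain ⟨η, hη, h⟩ := (hWd i j hij).exists_thickenings (hW i) (hW j).isClosed
        exact ⟨η, hη, fun _ => h⟩
    choose η hη h using h1
    obtain ⟨q0, hq0⟩ := Finite.exists_min η
    exact ⟨η q0, hη q0, fun i j hij => (h (i, j) hij).mono (thickening_mono (hq0 (i, j)) _)
      (thickening_mono (hq0 (i, j)) _)⟩
  obtain ⟨η1, hη1, hunif⟩ := Metric.uniformContinuousOn_iff.mp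
    (hΦ.uniformContinuousOn_of_continuous hτ) η0 hη0
  obtain ⟨η, hη, hηa, hηb⟩ : ∃ η : ℝ, 0 < η ∧ η ≤ η0 ∧ η ≤ η1 :=
    ⟨min η0 η1, lt_min hη0 hη1, min_le_left _ _, min_le_right _ _⟩
  have hSc : IsCompact (Φ \ ⋃ i, thickening η (W i)) :=
    hΦ.diff (isOpen_iUnion fun i => isOpen_thickening)
  obtain ⟨m, hm, hmin⟩ := exists_min_pos hSc (f := w) (hw.mono diff_subset) (by
      rintro x ⟨hx, hxW⟩
      refine lt_of_le_of_ne (hw0 x hx) fun h => hxW ?_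
      have h1 : x ∈ ⋃ i, W i := by
        rw [hWu]
        exact ⟨hx, h.symm⟩
      obtain ⟨i, hi⟩ := mem_iUnion.1 h1
      exact mem_iUnion.2 ⟨i, self_subset_thickening hη _ hi⟩)
  have hcov : ∀ x ∈ Φ, w x ≤ m / 2 → ∃ i, x ∈ thickening η (W i) := by
    intro x hx hxm
    by_contra hcon
    have h1 := hmin x ⟨hx, fun h => hcon (mem_iUnion.1 h)⟩
    linarith
  have hΨ : IsClosed (Φ ∩ w ⁻¹' Iic (m / 2)) := hw.preimage_isClosed_of_isClosed hΦ.isClosed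
    isClosed_Iic
  have hΨc : IsCompact (Φ ∩ w ⁻¹' Iic (m / 2)) := hΦ.of_isClosed_subset hΨ inter_subset_left
  have hchar : ∀ i, ∀ x, x ∈ (Φ ∩ w ⁻¹' Iic (m / 2)) \ (⋃ j ∈ {j | j ≠ i}, thickening η (W j)) ↔
      (x ∈ Φ ∧ w x ≤ m / 2) ∧ x ∈ thickening η (W i) := by
    intro i x
    constructor
    · rintro ⟨⟨hx, hxm⟩, hxn⟩
      refine ⟨⟨hx, hxm⟩, ?_⟩
      obtain ⟨j, hj⟩ := hcov x hx hxm
      by_cases hij : j = i
      · rwa [hij] at hj
      · exact absurd (mem_iUnion₂.2 ⟨j, hij, hj⟩) hxn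
    · rintro ⟨⟨hx, hxm⟩, hxi⟩
      refine ⟨⟨hx, hxm⟩, fun h => ?_⟩
      obtain ⟨j, hji, hj⟩ := mem_iUnion₂.1 h
      exact Set.disjoint_left.1 (hη0d j i hji) (thickening_mono hηa _ hj)
        (thickening_mono hηa _ hxi)
  refine ⟨m / 2, by positivity, fun i => (Φ ∩ w ⁻¹' Iic (m / 2)) \
    (⋃ j ∈ {j | j ≠ i}, thickening η (W j)), fun i => ?_, fun i j hij => ?_, fun i x hx => hx.1.1,
    fun x hx hxm => ?_, fun i x hx => ?_⟩
  · exact hΨc.diff (isOpen_biUnion fun j _ => isOpen_thickening)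
  · rw [Set.disjoint_left]
    intro x hxi hxj
    exact Set.disjoint_left.1 (hη0d i j hij) (thickening_mono hηa _ ((hchar i x).1 hxi).2)
      (thickening_mono hηa _ ((hchar j x).1 hxj).2)
  · obtain ⟨i, hi⟩ := hcov x hx hxm
    exact ⟨i, (hchar i x).2 ⟨⟨hx, hxm⟩, hi⟩⟩
  · obtain ⟨⟨hx1, hx2⟩, hx3⟩ := (hchar i x).1 hx
    have h1 : τ x ∈ Φ := hmap x hx1
    have h2 : w (τ x) ≤ m / 2 := by rw [hwτ x hx1]; exact hx2
    obtain ⟨j, hj⟩ := hcov (τ x) h1 h2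
    obtain ⟨z, hz, hxz⟩ := mem_thickening_iff.1 hx3
    have h3 : τ x ∈ thickening η0 (W (i + 1)) :=
      mem_thickening_iff.2 ⟨τ z, hWτ i z hz, hunif x hx1 z (hWΦ i hz) (hxz.trans_le hηb)⟩
    have h4 : j = i + 1 := by
      by_contra hne
      exact Set.disjoint_left.1 (hη0d j (i + 1) hne) (thickening_mono hηa _ hj) h3
    rw [h4] at hj
    exact (hchar (i + 1) (τ x)).2 ⟨⟨h1, h2⟩, hj⟩

end Pool.Agent.Q100.HK
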