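import Pool.Agent.Q100.HK.Uni
import Pool.Agent.Q100.HK.Fam
import Pool.Agent.Q100.HK.Fix2
import Pool.Agent.Y143.PH.LOC2
import Pool.Agent.Y523.PH.RES

/-!
# The local theorem
-/

set_option autoImplicit false

open MeasureTheory Set Metric Filter Topology
open scoped ENNReal NNReal

noncomputable section

namespace Pool.Agent.Q100.HK

open Pool.Agent.Y485.HS Pool.Agent.Y489.SP Pool.Agent.Y532.SP.LOCS Pool.Agent.Y143.PH
open Pool.Agent.Q100.HS (netS closedBall_sub_three r_le_one ball_sub_BB rpow_mono)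

/-- rescaling -/
theorem resc {n : ℕ} {H : Type} [Group H] [TopologicalSpace H] {T : H → E n → E n}
    (hT : LocAct n H T) {y : E n} (hy : y ∈ ball (0 : E n) 2) {r : ℝ} (hr0 : 0 < r)
    (hr1 : r ≤ 1) {K : Subgroup H} (hsm : ∀ k ∈ K, ∀ w ∈ BB n, dist (T k w) w ≤ r / 16) :
    LocAct n K (fun (k : K) (v : E n) => (4 / r) • (T (k : H) (Af y r v) - y)) := by
  have hw : ∀ v ∈ BB n, Af y r v ∈ BB n := by
    intro v hv
    have := Af_norm hr0 hr1 hy (mem_BB.1 hv)
    exact mem_BB.2 (by linarith)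
  refine ⟨?_, ?_, ?_, ?_⟩
  · have h1 : ContinuousOn (fun q : K × E n => T (q.1 : H) (Af y r q.2)) (univ ×ˢ BB n) := by
      have hc : Continuous (fun q : K × E n => ((q.1 : H), Af y r q.2)) := by
        have := Af_cont (n := n) (y := y) (r := r)
        fun_prop
      refine hT.cont.comp hc.continuousOn ?_
      rintro ⟨k, v⟩ ⟨-, hv⟩
      exact ⟨mem_univ _, hw v hv⟩
    exact (h1.sub continuousOn_const).const_smul (4 / r)
  · intro v hv
    show (4 / r) • (T (1 : H) (Af y r v) - y) = v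
    rw [hT.one _ (hw v hv), resc_Af hr0]
  · intro h k v hv hkv
    show (4 / r) • (T ((h : H) * (k : H)) (Af y r v) - y) = (4 / r) • (T (h : H)
      (Af y r ((4 / r) • (T (k : H) (Af y r v) - y))) - y)
    have h2 := hw _ hkv
    rw [Af_surj hr0] at h2
    rw [Af_surj hr0, hT.mul _ _ _ (hw v hv) h2]
  · intro k v hv
    have h1 := hsm k k.2 _ (hw v hv)
    show dist ((4 / r) • (T (k : H) (Af y r v) - y)) v ≤ 1 / 4
    calc dist ((4 / r) • (T (k : H) (Af y r v) - y)) v
        = dist ((4 / r) • (T (k : H) (Af y r v) - y)) ((4 / r) • (Af y r v - y)) := by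
          rw [resc_Af hr0]
      _ = 4 / r * dist (T (k : H) (Af y r v)) (Af y r v) := resc_dist hr0 _ _
      _ ≤ 4 / r * (r / 16) := by gcongr
      _ = 1 / 4 := by field_simp; norm_num

/-- a dense set of values of a map which is a homeomorphism composed with a map whose values are
separated almost everywhere -/
theorem img_open {n : ℕ} {H : Type} [Group H] [TopologicalSpace H] {T : H → E n → E n}
    (hT : LocAct n H T) (h0 : H) {G : Set (E n)} (hG : ∀ᵐ w : E n, w ∈ G) {O : Set (E n)}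
    (hO : IsOpen O) (hO2 : O ⊆ closedBall (0 : E n) 2) (hne : O.Nonempty) :
    ∃ u ∈ O, T h0 u ∈ G := by
  have hbB : ball (0 : E n) 4 ⊆ BB n := ball_subset_closedBall
  have h1 : IsOpen (ball (0 : E n) 4 ∩ T h0⁻¹ ⁻¹' O) :=
    ((hT.cont_right h0⁻¹).mono hbB).isOpen_inter_preimage isOpen_ball hO
  obtain ⟨u, hu⟩ := hne
  have huB : u ∈ BB n := mem_BB.2 (by have := hO2 hu; simp at this; linarith)
  have h2 := norm_T_le hT h0 huB
  have hu2 : ‖u‖ ≤ 2 := by simpa using hO2 hu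
  have h3 : T h0 u ∈ BB n := mem_BB.2 (by linarith)
  have h4 : T h0 u ∈ ball (0 : E n) 4 ∩ T h0⁻¹ ⁻¹' O := by
    refine ⟨by simp; linarith, ?_⟩
    rw [mem_preimage, hT.inv h0 huB h3]
    exact hu
  obtain ⟨q, hq, hqG⟩ := (Measure.dense_of_ae hG).inter_open_nonempty _ h1 ⟨_, h4⟩
  refine ⟨T h0⁻¹ q, hq.2, ?_⟩
  have h5 : T h0⁻¹ q ∈ BB n := mem_BB.2 (by
    have h6 : T h0⁻¹ q ∈ closedBall (0 : E n) 2 := hO2 hq.2
    simp at h6
    linarith)
  have h7 := hT.mul h0 h0⁻¹ q (hbB hq.1) h5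
  rw [mul_inv_cancel, hT.one q (hbB hq.1)] at h7
  rw [← h7]
  exact hqG

/-- one element -/
theorem loc_one {p : ℕ} (hp : p.Prime) {n : ℕ}
    {H : Type} [Group H] [TopologicalSpace H] [IsTopologicalGroup H] [T2Space H] [CompactSpace H]
    [TotallyDisconnectedSpace H]
    {T : H → E n → E n} (hT : LocAct n H T) {y : E n} (hy : y ∈ ball (0 : E n) 1) {r : ℝ}
    (hr0 : 0 < r) (hr1 : r ≤ 1) {K : Subgroup H} (hKc : IsClosed (K : Set H))
    (hsm : ∀ k ∈ K, ∀ w ∈ BB n, dist (T k w) w ≤ r / 16) (h0 : H) {δ : ℝ} (hδ1 : δ ≤ 1)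
    (hδ : ∀ u ∈ BB n, ∀ u' ∈ BB n, dist u u' ≤ δ → dist (T h0⁻¹ u) (T h0⁻¹ u') ≤ r / 16)
    (hKδ : ∀ k ∈ K, ∀ w ∈ closedBall (0 : E n) 2, dist (T (h0 * k) w) (T h0 w) ≤ δ)
    {𝒮 : Set (Set (E n))} (h𝒮c : 𝒮.Countable) (h𝒮 : closedBall y (3 * r / 4) ⊆ ⋃₀ 𝒮)
    (h𝒮E : ∀ s ∈ 𝒮, ∃ N : ℕ, ∀ k ∈ K, EnV (n + 1) N (T (h0 * k)) s) {g : H} (hg : g ∈ K)
    (hgp : Tendsto (fun j : ℕ => g ^ p ^ j) atTop (𝓝 1)) :
    ∀ x ∈ ball y (r / 4), T g x = x := by
  classical
  have hy1 : ‖y‖ < 1 := by simpa using hy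
  have hy2 : y ∈ ball (0 : E n) 2 := by simp; linarith
  have hKco : CompactSpace K := isCompact_iff_compactSpace.1 hKc.isCompact
  obtain ⟨F0, f0, hfam⟩ := inv_fam hT h0 g hgp
  have hCK : (Subgroup.zpowers g).topologicalClosure ≤ K :=
    Subgroup.topologicalClosure_minimal _ ((Subgroup.zpowers_le).2 hg) hKc
  have hT' := resc hT hy2 hr0 hr1 hsm
  set T' : K → E n → E n := fun (k : K) (v : E n) => (4 / r) • (T (k : H) (Af y r v) - y)
    with hT'def
  have hAf2 : ∀ v ∈ BB n, Af y r v ∈ closedBall (0 : E n) 2 := by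
    intro v hv
    have hv4 := mem_BB.1 hv
    have h1 := Af_dist_center hr0 (y := y) v
    rw [mem_closedBall]
    have h2 := dist_triangle (Af y r v) y 0
    have h3 : dist y 0 = ‖y‖ := dist_zero_right y
    have h4 : r / 4 * ‖v‖ ≤ 1 / 4 * 4 := by gcongr
    rw [h1, h3] at h2
    linarith
  have h2B : closedBall (0 : E n) 2 ⊆ BB n := closedBall_subset_closedBall (by norm_num)
  have hTB : ∀ k : H, ∀ x ∈ closedBall (0 : E n) 2, T k x ∈ BB n := by
    intro k x hx
    have h1 := norm_T_le hT k (h2B hx)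
    have h2 : ‖x‖ ≤ 2 := by simpa using hx
    exact mem_BB.2 (by linarith)
  have hF0d' : ∀ x ∈ closedBall (0 : E n) 2, dist (F0 x) (T h0 x) ≤ δ := fun x hx =>
    hfam.Fdist x (h2B hx) _ δ fun k hk => hKδ k (hCK hk) x hx
  have hF0B : ∀ x ∈ closedBall (0 : E n) 2, F0 x ∈ BB n := by
    intro x hx
    have h1 := norm_T_le hT h0 (h2B hx)
    have h2 : ‖x‖ ≤ 2 := by simpa using hx
    have h3 := hF0d' x hx
    have h4 := dist_triangle (F0 x) (T h0 x) 0
    rw [dist_zero_right, dist_zero_right] at h4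
    exact mem_BB.2 (by linarith)
  have hinvT : ∀ x ∈ closedBall (0 : E n) 2, T h0⁻¹ (T h0 x) = x := fun x hx =>
    hT.inv h0 (h2B hx) (hTB h0 x hx)
  -- the map close to the identity
  let F' : E n → E n := fun v => (4 / r) • (T h0⁻¹ (F0 (Af y r v)) - y)
  let f' : ℕ → ℕ → ℕ → E n → ℝ := fun m i j v => f0 m i j (Af y r v)
  have hF'c : ContinuousOn F' (BB n) := by
    have h1 : ContinuousOn (fun v => F0 (Af y r v)) (BB n) :=
      hfam.Fc.comp Af_cont.continuousOn (fun v hv => h2B (hAf2 v hv))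
    have h2 : ContinuousOn (fun v => T h0⁻¹ (F0 (Af y r v))) (BB n) :=
      (hT.cont_right h0⁻¹).comp h1 (fun v hv => hF0B _ (hAf2 v hv))
    exact (h2.sub continuousOn_const).const_smul (4 / r)
  have hF'd : ∀ v ∈ BB n, dist (F' v) v ≤ 1 / 4 := by
    intro v hv
    have hx := hAf2 v hv
    have h1 := hδ _ (hF0B _ hx) _ (hTB h0 _ hx) (hF0d' _ hx)
    rw [hinvT _ hx] at h1
    calc dist (F' v) v = dist (F' v) ((4 / r) • (Af y r v - y)) := by rw [resc_Af hr0]
      _ = 4 / r * dist (T h0⁻¹ (F0 (Af y r v))) (Af y r v) := resc_dist hr0 _ _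
      _ ≤ 4 / r * (r / 16) := by gcongr
      _ = 1 / 4 := by field_simp; norm_num
  have hgp' : Tendsto (fun j : ℕ => (⟨g, hg⟩ : K) ^ p ^ j) atTop (𝓝 1) := by
    rw [tendsto_subtype_rng]
    simpa using hgp
  have h3B : closedBall (0 : E n) 3 ⊆ BB n := closedBall_subset_closedBall (by norm_num)
  have hAT : ∀ (k : ℕ) (v : E n), Af y r (T' ((⟨g, hg⟩ : K) ^ k) v) = T (g ^ k) (Af y r v) := by
    intro k v
    have h1 : (((⟨g, hg⟩ : K) ^ k : K) : H) = g ^ k := by simp
    show Af y r ((4 / r) • (T ((((⟨g, hg⟩ : K) ^ k : K) : H)) (Af y r v) - y)) = _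
    rw [h1]
    exact Af_surj hr0 _
  have hAT1 : ∀ v : E n, Af y r (T' (⟨g, hg⟩ : K) v) = T g (Af y r v) := fun v =>
    Af_surj hr0 _
  have hfin := fix2 hp hT' (⟨g, hg⟩ : K) hgp' hF'c hF'd ?_ ?_ (f := f') (q := fun m => p ^ m)
    (fun m => pow_pos hp.pos m) ?_ ?_ ?_ ?_ ?_
  · intro x hx
    have hv : (4 / r) • (x - y) ∈ ball (0 : E n) 1 := by
      have h4 : (0 : ℝ) ≤ 4 / r := by positivity
      rw [mem_ball, dist_eq_norm] at hx
      rw [mem_ball, dist_zero_right, norm_smul, Real.norm_of_nonneg h4]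
      calc 4 / r * ‖x - y‖ < 4 / r * (r / 4) := mul_lt_mul_of_pos_left hx (by positivity)
        _ = 1 := by field_simp
    have h1 : (4 / r) • (T g (Af y r ((4 / r) • (x - y))) - y) = (4 / r) • (x - y) := hfin _ hv
    rw [Af_surj hr0] at h1
    have h4 : (4 / r : ℝ) ≠ 0 := by positivity
    have h2 := smul_right_injective (E n) h4 h1
    simpa using h2
  · -- invariance
    intro k v hv
    have hx := hAf2 v (h3B hv)
    show (4 / r) • (T h0⁻¹ (F0 (Af y r (T' ((⟨g, hg⟩ : K) ^ k) v))) - y) =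
      (4 / r) • (T h0⁻¹ (F0 (Af y r v)) - y)
    rw [hAT, hfam.Finv k _ (h2B hx) (hTB _ _ hx)]
  · -- fixed points
    intro v hv hvf
    have hvB : v ∈ BB n := closedBall_subset_closedBall (by norm_num) hv
    have h1 := hAT1 v
    rw [hvf] at h1
    have h2 := hfam.Ffix _ (h2B (hAf2 v hvB)) h1.symm
    show (4 / r) • (T h0⁻¹ (F0 (Af y r v)) - y) = v
    rw [h2, hinvT _ (hAf2 v hvB), resc_Af hr0]
  · -- continuity of the functions
    exact fun m i j => (hfam.fc m i j).comp Af_cont.continuousOn (fun v hv => h2B (hAf2 v hv))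
  · -- the shift
    intro m i j k v hv
    have hx := hAf2 v (h3B hv)
    show f0 m i j (Af y r (T' ((⟨g, hg⟩ : K) ^ k) v)) = f0 m i (j + k) (Af y r v)
    rw [hAT, hfam.fs m i j k _ (h2B hx) (hTB _ _ hx)]
  · exact fun m i j x => hfam.fp m i j _
  · -- separation
    intro ε hε
    obtain ⟨m, hm⟩ := hfam.sep (r / 4 * ε) (by positivity)
    refine ⟨m, fun v hv hvε => ?_⟩
    have hvB : v ∈ BB n := closedBall_subset_closedBall (by norm_num) hv
    have h1 : dist (T' (⟨g, hg⟩ : K) v) v = 4 / r * dist (T g (Af y r v)) (Af y r v) := by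
      calc dist (T' (⟨g, hg⟩ : K) v) v
          = dist ((4 / r) • (T g (Af y r v) - y)) ((4 / r) • (Af y r v - y)) := by
            rw [resc_Af hr0]
        _ = 4 / r * dist (T g (Af y r v)) (Af y r v) := resc_dist hr0 _ _
    rw [h1] at hvε
    obtain ⟨i, hi⟩ := hm (Af y r v) (hAf2 v hvB) (by
      calc r / 4 * ε ≤ r / 4 * (4 / r * dist (T g (Af y r v)) (Af y r v)) := by gcongr
        _ = dist (T g (Af y r v)) (Af y r v) := by field_simp)
    refine ⟨i, ?_⟩
    show f0 m i 0 (Af y r v) ≠ f0 m i 0 (Af y r (T' (⟨g, hg⟩ : K) v))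
    rw [hAT1]
    exact hi
  · -- separated values
    intro U hU hU1 hUne
    have hB2 : closedBall y (3 * r / 4) ⊆ closedBall (0 : E n) 2 := by
      intro x hx
      rw [mem_closedBall] at hx ⊢
      have h1 := dist_triangle x y 0
      have h2 : dist y 0 = ‖y‖ := dist_zero_right y
      linarith
    have h𝒮t : Countable 𝒮 := h𝒮c.to_subtype
    have hae := sep2_ae (S := fun s : 𝒮 => (s : Set (E n))) (α := ℕ × ℕ × ℕ)
      (f := fun a => f0 a.1 a.2.1 a.2.2) hfam.Fc (fun a => hfam.fc _ _ _) hB2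
      (by rw [← sUnion_eq_iUnion]; exact h𝒮) (fun a s => by
        obtain ⟨N, hN⟩ := h𝒮E s s.2
        exact ⟨2 * N, hfam.en N s (fun k hk => hN k (hCK hk)) _ _ _⟩)
    have hO : IsOpen (Af y r '' U) := by
      have h1 : Af y r '' U = (fun x => (4 / r) • (x - y)) ⁻¹' U := by
        ext x
        constructor
        · rintro ⟨v, hv, rfl⟩
          rw [mem_preimage, resc_Af hr0]
          exact hv
        · intro hx
          exact ⟨_, hx, Af_surj hr0 x⟩
      rw [h1]
      exact hU.preimage (by fun_prop)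
    have hO2 : Af y r '' U ⊆ closedBall (0 : E n) 2 := by
      rintro _ ⟨v, hv, rfl⟩
      refine hAf2 v (mem_BB.2 ?_)
      have : ‖v‖ < 1 := by simpa using hU1 hv
      linarith
    obtain ⟨_, ⟨w, hw, rfl⟩, hwG⟩ := img_open hT h0 hae hO hO2 (hUne.image _)
    refine ⟨w, hw, ?_⟩
    have hwB : w ∈ BB n := mem_BB.2 (by
      have : ‖w‖ < 1 := by simpa using hU1 hw
      linarith)
    have hB3 : ∀ v ∈ closedBall (0 : E n) 3, Af y r v ∈ closedBall y (3 * r / 4) := by
      intro v hv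
      rw [mem_closedBall, Af_dist_center hr0]
      have h1 : ‖v‖ ≤ 3 := by simpa using hv
      have h2 : r / 4 * ‖v‖ ≤ r / 4 * 3 := by gcongr
      linarith
    have hval : ∀ v ∈ closedBall (0 : E n) 3, F' v = w → F0 (Af y r v) = T h0 (Af y r w) := by
      intro v hv hvw
      have h1 : Af y r (F' v) = T h0⁻¹ (F0 (Af y r v)) := Af_surj hr0 _
      rw [hvw] at h1
      have h2 := hF0B _ (hAf2 v (h3B hv))
      have h3 : T h0⁻¹ (F0 (Af y r v)) ∈ BB n := by
        rw [← h1]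
        exact h2B (hAf2 w hwB)
      have h4 := hT.mul h0 h0⁻¹ _ h2 h3
      rw [mul_inv_cancel, hT.one _ h2] at h4
      rw [h1]
      exact h4
    have hco : ∀ (v : E n) (i : Fin n), Af y r v i = y i + r / 4 * v i := by
      intro v i
      simp [Af]
    obtain ⟨Sl, D, hSl, hD, hSD⟩ := hwG
    refine ⟨fun l => {s | y l + r / 4 * s ∈ Sl l}, D, fun l => ?_, hD, ?_⟩
    · refine dense_of_exists_between fun a b hab => ?_
      have h1 : y l + r / 4 * a < y l + r / 4 * b := by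
        have : r / 4 * a < r / 4 * b := mul_lt_mul_of_pos_left hab (by positivity)
        linarith
      obtain ⟨c, hc, hc1, hc2⟩ := (hSl l).exists_between h1
      have h2 : y l + r / 4 * ((c - y l) / (r / 4)) = c := by
        field_simp
        ring
      refine ⟨(c - y l) / (r / 4), ?_, ?_, ?_⟩
      · show y l + r / 4 * ((c - y l) / (r / 4)) ∈ Sl l
        rw [h2]
        exact hc
      · rw [lt_div_iff₀ (by positivity)]
        linarith
      · rw [div_lt_iff₀ (by positivity)]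
        linarith
    · intro t ht m i j v hv hvw hvt l hl
      have h1 : y l + r / 4 * v l ∈ Sl l := hl
      rw [← hco] at h1
      exact hSD t ht (m, i, j) (Af y r v) (hB3 v hv) (hval v hv hvw) hvt l h1

/-- The local theorem: an open subgroup acts trivially near every point. -/
theorem loc2 (hPOW : S_POW) (hSYL : S_SYL) {n : ℕ}
    {H : Type} [Group H] [TopologicalSpace H] [IsTopologicalGroup H]
    [CompactSpace H] [T2Space H] [TotallyDisconnectedSpace H] {T : H → E n → E n}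
    (hT : LocAct n H T) (hP : ∀ h, SEn (T h)) : ∀ y ∈ ball (0 : E n) 1, Triv T y := by
  intro y0 hy0
  by_contra hcon
  obtain ⟨y, hy, hyT, ρ, hρ, hball, h0, K, N, hKo, hKE⟩ := baire_en hT hP ⟨y0, hy0, hcon⟩
  obtain ⟨𝒮, h𝒮c, h𝒮, h𝒮E⟩ := unif_cover hT hP
  set r : ℝ := min ρ 1 with hr
  have hr0 : 0 < r := lt_min hρ one_pos
  have hr1 : r ≤ 1 := min_le_right _ _
  have hrρ : r ≤ ρ := min_le_left _ _
  have hBc : IsCompact (BB n) := isCompact_closedBall _ _
  have h2B : closedBall (0 : E n) 2 ⊆ BB n := closedBall_subset_closedBall (by norm_num)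
  -- uniform continuity
  obtain ⟨δ, hδ0, hδ1, hδ⟩ : ∃ δ : ℝ, 0 < δ ∧ δ ≤ 1 ∧ ∀ u ∈ BB n, ∀ u' ∈ BB n,
      dist u u' ≤ δ → dist (T h0⁻¹ u) (T h0⁻¹ u') ≤ r / 16 := by
    have h1 := hBc.uniformContinuousOn_of_continuous (hT.cont_right h0⁻¹)
    obtain ⟨δ, hδ, h⟩ := Metric.uniformContinuousOn_iff_le.1 h1 (r / 16) (by positivity)
    refine ⟨min δ 1, lt_min hδ one_pos, min_le_right _ _, fun u hu u' hu' huu => ?_⟩
    exact h u hu u' hu' (huu.trans (min_le_left _ _))
  obtain ⟨δ', hδ'0, hδ'⟩ : ∃ δ' : ℝ, 0 < δ' ∧ ∀ u ∈ BB n, ∀ u' ∈ BB n,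
      dist u u' ≤ δ' → dist (T h0 u) (T h0 u') ≤ δ := by
    have h1 := hBc.uniformContinuousOn_of_continuous (hT.cont_right h0)
    obtain ⟨δ', hδ', h⟩ := Metric.uniformContinuousOn_iff_le.1 h1 δ hδ0
    exact ⟨δ', hδ', h⟩
  obtain ⟨V, hVs, hVo, hV1⟩ := mem_nhds_iff.1 (Pool.Agent.Y523.PH.small_nhds hT
    (show (0 : ℝ) < min (r / 16) δ' by positivity))
  obtain ⟨W, hW⟩ := ProfiniteGrp.exist_openNormalSubgroup_sub_open_nhds_of_one hVo hV1
  have hKo' : IsOpen ((K ⊓ W.toSubgroup : Subgroup H) : Set H) := by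
    rw [Subgroup.coe_inf]
    exact hKo.inter W.isOpen'
  obtain ⟨K', hK'K, hK'W, hK'o⟩ : ∃ K' : Subgroup H, K' ≤ K ∧ (∀ k ∈ K', ∀ w ∈ BB n,
      dist (T k w) w < min (r / 16) δ') ∧ IsOpen (K' : Set H) :=
    ⟨K ⊓ W.toSubgroup, inf_le_left, fun k hk w hw => hVs (hW hk.2) w hw, hKo'⟩
  have hK'c : IsClosed (K' : Set H) := Subgroup.isClosed_of_isOpen K' hK'o
  have hK'co : CompactSpace K' := isCompact_iff_compactSpace.1 hK'c.isCompact
  have hsm : ∀ k ∈ K', ∀ w ∈ BB n, dist (T k w) w ≤ r / 16 := fun k hk w hw =>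
    ((hK'W k hk w hw).trans_le (min_le_left _ _)).le
  have hKδ : ∀ k ∈ K', ∀ w ∈ closedBall (0 : E n) 2, dist (T (h0 * k) w) (T h0 w) ≤ δ := by
    intro k hk w hw
    have hwB := h2B hw
    have h1 : T k w ∈ BB n := by
      have h2 := norm_T_le hT k hwB
      have h3 : ‖w‖ ≤ 2 := by simpa using hw
      exact mem_BB.2 (by linarith)
    rw [hT.mul h0 k w hwB h1]
    exact hδ' _ h1 _ hwB ((hK'W k hk w hwB).trans_le (min_le_right _ _)).le
  -- the cover
  have hcov : closedBall y (3 * r / 4) ⊆ ⋃₀ (insert {x | x ∈ ball y ρ ∧ ¬ Triv T x} 𝒮) := by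
    intro x hx
    have hxρ : x ∈ ball y ρ := by
      rw [mem_closedBall] at hx
      rw [mem_ball]
      linarith
    by_cases hxT : Triv T x
    · have h1 : x ∈ ball (0 : E n) 2 := ball_subset_ball (by norm_num) (hball hxρ)
      obtain ⟨s, hs, hxs⟩ := mem_sUnion.1 (h𝒮 ⟨h1, hxT⟩)
      exact mem_sUnion.2 ⟨s, mem_insert_of_mem _ hs, hxs⟩
    · exact mem_sUnion.2 ⟨_, mem_insert _ _, hxρ, hxT⟩
  -- elements with small powers act trivially
  have key : ∀ (p : ℕ), p.Prime → ∀ g ∈ K', Tendsto (fun j : ℕ => g ^ p ^ j) atTop (𝓝 1) →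
      ∀ x ∈ ball y (r / 4), T g x = x := by
    intro p hp g hg hgp
    refine loc_one hp hT hy hr0 hr1 hK'c hsm h0 hδ1 hδ hKδ (h𝒮c.insert _) hcov
      ?_ hg hgp
    intro s hs
    rcases mem_insert_iff.1 hs with rfl | hs
    · exact ⟨N, fun k hk => hKE k (hK'K hk)⟩
    · obtain ⟨M, hM⟩ := h𝒮E s hs
      exact ⟨M, fun k _ => hM _⟩
  have hxB : ∀ x ∈ ball y (r / 4), x ∈ BB n := by
    intro x hx
    have hy1 : ‖y‖ < 1 := by simpa using hy
    rw [mem_ball] at hx
    have h1 := dist_triangle x y 0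
    rw [dist_zero_right, dist_zero_right] at h1
    exact mem_BB.2 (by linarith)
  let D : Subgroup K' :=
    { carrier := {k | ∀ x ∈ ball y (r / 4), T (k : H) x = x}
      mul_mem' := by
        intro a b ha hb x hx
        have h1 := hT.mul (a : H) (b : H) x (hxB x hx) (by rw [hb x hx]; exact hxB x hx)
        rw [Subgroup.coe_mul, h1, hb x hx, ha x hx]
      one_mem' := by
        intro x hx
        exact hT.one x (hxB x hx)
      inv_mem' := by
        intro a ha x hx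
        have h1 := hT.inv (a : H) (hxB x hx) (by rw [ha x hx]; exact hxB x hx)
        rw [ha x hx] at h1
        exact h1 }
  have hDc : IsClosed (D : Set K') := by
    have h1 : (D : Set K') = ⋂ x ∈ ball y (r / 4), {k : K' | T (k : H) x = x} := by
      ext k
      simp only [mem_iInter]
      rfl
    rw [h1]
    refine isClosed_biInter fun x hx => ?_
    have h2 : Continuous (fun k : K' => T (k : H) x) :=
      (hT.cont_left (hxB x hx)).comp continuous_subtype_val
    exact isClosed_eq h2 continuous_const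
  have hD : D = ⊤ := by
    refine hSYL K' D hDc ?_
    intro p hp P hPc hPp k hk
    have : CompactSpace P := isCompact_iff_compactSpace.1 hPc.isCompact
    have h1 := hPOW p hp P hPp ⟨k, hk⟩
    have h2 : Continuous (fun q : P => (((q : K') : H))) :=
      continuous_subtype_val.comp continuous_subtype_val
    have h3 : Tendsto (fun j : ℕ => ((k : H)) ^ p ^ j) atTop (𝓝 1) := by
      have h4 := (h2.tendsto 1).comp h1
      simpa [Function.comp_def] using h4
    exact key p hp k k.2 h3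
  apply hyT
  refine ⟨K', hK'o, ?_⟩
  filter_upwards [ball_mem_nhds y (show (0 : ℝ) < r / 4 by positivity)] with x hx k hk
  have hmem : (⟨k, hk⟩ : K') ∈ D := by rw [hD]; exact Subgroup.mem_top _
  exact hmem x hx

end Pool.Agent.Q100.HK
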