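import Pool.Agent.Y909.SP.MOR

/-!
# Morrey's inequality of fractional order on a cube

Adaptation of `Pool/Agent/Y909/SP/MOR.lean`.
-/

set_option autoImplicit false

open MeasureTheory Set Metric Filter Topology
open scoped ENNReal NNReal

noncomputable section

namespace Pool.Agent.Q100.HK

open Pool.Agent.Y489.SP Pool.Agent.Y909.SP

/-- the main estimate -/
lemma main_est_s {m : ℕ} (s q : ℝ) (hm : 1 ≤ m) (hs1 : 0 < s) (hs2 : s ≤ 1)
    (hq : (m : ℝ) < s * q) {Z : Type} [MetricSpace Z]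
    (a : Fin m → ℝ) (l : ℝ) (hl : 0 < l) (u : (Fin m → ℝ) → Z) (g : (Fin m → ℝ) → ℝ≥0∞)
    (hu : ContinuousOn u (Icc a (fun i => a i + l))) (hg : Measurable g)
    (hH : ∀ x ∈ Icc a (fun i => a i + l), ∀ y ∈ Icc a (fun i => a i + l),
      edist (u x) (u y) ≤ edist x y ^ s * (g x + g y))
    (hG : ∫⁻ z in Icc a (fun i => a i + l), g z ^ q ≠ ∞) :
    ∃ z0 : Z, ∀ x ∈ Icc a (fun i => a i + l), dist z0 (u x) ≤
      (4 * 2 ^ ((m : ℝ) / q) / (1 - (2 : ℝ) ^ (-(s - (m : ℝ) / q)))) *
        ((∫⁻ z in Icc a (fun i => a i + l), g z ^ q).toReal ^ (1 / q) *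
          l ^ (s - (m : ℝ) / q)) := by
  have hm' : (1 : ℝ) ≤ m := by exact_mod_cast hm
  have hq0 : 0 < q := by
    by_contra hcon
    nlinarith
  set I := Icc a (fun i => a i + l) with hI
  set γ := (∫⁻ z in I, g z ^ q).toReal ^ (1 / q) with hγ
  have hγ0 : 0 ≤ γ := by positivity
  set σ : ℝ := s - (m : ℝ) / q with hs
  have hs0 : 0 < σ := by
    rw [hs, sub_pos, div_lt_iff₀ hq0]
    exact hq
  have key : ∀ b : Fin m → ℝ, ∀ t : ℝ, ∃ p : Fin m → ℝ, 0 < t → Icc b (fun i => b i + t) ⊆ I →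
      (p ∈ Icc b (fun i => b i + t) ∧ g p ≤ ENNReal.ofReal (γ * t ^ (-(m : ℝ) / q))) := by
    intro b t
    by_cases h : 0 < t ∧ Icc b (fun i => b i + t) ⊆ I
    · obtain ⟨x, hx, hxg⟩ := exists_pt a b l t h.1 h.2 q hq0 g hg hG
      exact ⟨x, fun _ _ => ⟨hx, hxg⟩⟩
    · exact ⟨b, fun h1 h2 => absurd ⟨h1, h2⟩ h⟩
  choose p hp using key
  refine ⟨u (p a l), fun x hx => ?_⟩
  -- the cubes
  let t : ℕ → ℝ := fun j => l * (1 / 2) ^ j
  have ht0 : ∀ j, 0 < t j := fun j => by positivity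
  have htl : ∀ j, t j ≤ l := by
    intro j
    have : (1 / 2 : ℝ) ^ j ≤ 1 := pow_le_one₀ (by norm_num) (by norm_num)
    calc l * (1 / 2) ^ j ≤ l * 1 := by gcongr
      _ = l := mul_one l
  let b : ℕ → Fin m → ℝ := fun j i => max (a i) (min (x i) (a i + l - t j))
  have hxa : ∀ i, a i ≤ x i := fun i => hx.1 i
  have hxb : ∀ i, x i ≤ a i + l := fun i => hx.2 i
  have hb0 : b 0 = a := by
    funext i
    simp only [b, t, pow_zero, mul_one, add_sub_cancel_right]
    rw [min_eq_right (hxa i), max_self]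
  have ht00 : t 0 = l := by simp [t]
  have hbsub : ∀ j, Icc (b j) (fun i => b j i + t j) ⊆ I := by
    intro j z hz
    have h1 : ∀ i, b j i ≤ z i := fun i => hz.1 i
    have h2 : ∀ i, z i ≤ b j i + t j := fun i => hz.2 i
    refine ⟨fun i => ?_, fun i => ?_⟩
    · exact (le_max_left _ _).trans (h1 i)
    · have h3 : b j i ≤ a i + l - t j := by
        refine max_le ?_ (min_le_right _ _)
        linarith [htl j]
      show z i ≤ a i + l
      linarith [h2 i]
  have hxD : ∀ j, x ∈ Icc (b j) (fun i => b j i + t j) := by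
    intro j
    refine ⟨fun i => ?_, fun i => ?_⟩
    · exact max_le (hxa i) (min_le_left _ _)
    · show x i ≤ b j i + t j
      rcases le_total (x i) (a i + l - t j) with h | h
      · have : x i ≤ b j i := by
          have h' : min (x i) (a i + l - t j) = x i := min_eq_left h
          show x i ≤ max (a i) (min (x i) (a i + l - t j))
          rw [h']
          exact le_max_right _ _
        linarith [ht0 j]
      · have : a i + l - t j ≤ b j i := by
          have h' : min (x i) (a i + l - t j) = a i + l - t j := min_eq_right h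
          show a i + l - t j ≤ max (a i) (min (x i) (a i + l - t j))
          rw [h']
          exact le_max_right _ _
        linarith [hxb i]
  let P : ℕ → Fin m → ℝ := fun j => p (b j) (t j)
  have hP : ∀ j, P j ∈ Icc (b j) (fun i => b j i + t j) ∧
      g (P j) ≤ ENNReal.ofReal (γ * t j ^ (-(m : ℝ) / q)) :=
    fun j => hp (b j) (t j) (ht0 j) (hbsub j)
  have hPI : ∀ j, P j ∈ I := fun j => hbsub j (hP j).1
  have hPx : ∀ j, dist (P j) x ≤ t j := by
    intro j
    rw [dist_pi_le_iff (ht0 j).le]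
    intro i
    rw [Real.dist_eq, abs_le]
    have h1 := (hP j).1.1 i
    have h2 : P j i ≤ b j i + t j := (hP j).1.2 i
    have h3 := (hxD j).1 i
    have h4 : x i ≤ b j i + t j := (hxD j).2 i
    constructor <;> linarith
  have hP0 : P 0 = p a l := by
    show p (b 0) (t 0) = p a l
    rw [hb0, ht00]
  have ht1 : ∀ j, t (j + 1) = t j / 2 := by
    intro j
    simp only [t, pow_succ]
    ring
  -- the steps
  set r : ℝ := (2 : ℝ) ^ (-σ) with hr
  have hr1 : r < 1 := Real.rpow_lt_one_of_one_lt_of_neg (by norm_num) (by linarith)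
  have hr0 : 0 < r := by positivity
  have htpow : ∀ j, t j ^ σ = l ^ σ * r ^ j := by
    intro j
    show (l * (1 / 2) ^ j) ^ σ = _
    rw [Real.mul_rpow hl.le (by positivity)]
    congr 1
    rw [hr, ← Real.rpow_natCast, ← Real.rpow_natCast, ← Real.rpow_mul (by norm_num),
      ← Real.rpow_mul (by norm_num), one_div, Real.inv_rpow (by norm_num),
      ← Real.rpow_neg (by norm_num)]
    congr 1
    ring
  have hstep : ∀ j, dist (u (P j)) (u (P (j + 1))) ≤
      (4 * 2 ^ ((m : ℝ) / q) * (γ * l ^ σ)) * r ^ j := by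
    intro j
    have h1 := hH (P j) (hPI j) (P (j + 1)) (hPI (j + 1))
    have h2 : dist (P j) (P (j + 1)) ≤ 2 * t j := by
      calc dist (P j) (P (j + 1)) ≤ dist (P j) x + dist x (P (j + 1)) := dist_triangle _ _ _
        _ ≤ t j + t (j + 1) := by
          rw [dist_comm x]
          exact add_le_add (hPx j) (hPx (j + 1))
        _ ≤ 2 * t j := by
          rw [ht1 j]
          linarith [ht0 j]
    have hgam : ∀ i, 0 ≤ γ * t i ^ (-(m : ℝ) / q) := fun i => by
      have := ht0 i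
      positivity
    have h2t : (0 : ℝ) ≤ (2 * t j) ^ s := by
      have := ht0 j
      positivity
    have h3 : edist (u (P j)) (u (P (j + 1))) ≤ ENNReal.ofReal ((2 * t j) ^ s *
        (γ * t j ^ (-(m : ℝ) / q) + γ * t (j + 1) ^ (-(m : ℝ) / q))) := by
      refine h1.trans ?_
      rw [ENNReal.ofReal_mul h2t, ENNReal.ofReal_add (hgam j) (hgam (j + 1))]
      refine mul_le_mul' ?_ (add_le_add (hP j).2 (hP (j + 1)).2)
      rw [edist_dist, ENNReal.ofReal_rpow_of_nonneg dist_nonneg hs1.le]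
      exact ENNReal.ofReal_le_ofReal (Real.rpow_le_rpow dist_nonneg h2 hs1.le)
    have h4 : dist (u (P j)) (u (P (j + 1))) ≤ (2 * t j) ^ s *
        (γ * t j ^ (-(m : ℝ) / q) + γ * t (j + 1) ^ (-(m : ℝ) / q)) := by
      rw [edist_dist] at h3
      refine (ENNReal.ofReal_le_ofReal_iff ?_).1 h3
      have := ht0 j
      have := hgam j
      have := hgam (j + 1)
      positivity
    refine h4.trans ?_
    have h5 : t (j + 1) ^ (-(m : ℝ) / q) = 2 ^ ((m : ℝ) / q) * t j ^ (-(m : ℝ) / q) := by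
      rw [ht1 j, Real.div_rpow (ht0 j).le (by norm_num), div_eq_mul_inv, mul_comm,
        ← Real.rpow_neg (by norm_num)]
      congr 2
      ring
    have h6 : (1 : ℝ) ≤ 2 ^ ((m : ℝ) / q) := Real.one_le_rpow (by norm_num) (by positivity)
    have h7 : t j ^ s * t j ^ (-(m : ℝ) / q) = t j ^ σ := by
      rw [hs, Real.rpow_sub (ht0 j), neg_div, Real.rpow_neg (ht0 j).le]
      rfl
    have h8 : 0 ≤ t j ^ σ := by
      have := ht0 j
      positivity
    have h9 : (2 * t j) ^ s ≤ 2 * t j ^ s := by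
      rw [Real.mul_rpow (by norm_num) (ht0 j).le]
      have h10 : (2 : ℝ) ^ s ≤ 2 := by
        calc (2 : ℝ) ^ s ≤ 2 ^ (1 : ℝ) := Real.rpow_le_rpow_of_exponent_le (by norm_num) hs2
          _ = 2 := Real.rpow_one 2
      have h11 : 0 ≤ t j ^ s := by
        have := ht0 j
        positivity
      exact mul_le_mul_of_nonneg_right h10 h11
    calc (2 * t j) ^ s * (γ * t j ^ (-(m : ℝ) / q) + γ * t (j + 1) ^ (-(m : ℝ) / q))
        ≤ (2 * t j ^ s) * (γ * t j ^ (-(m : ℝ) / q) + γ * t (j + 1) ^ (-(m : ℝ) / q)) :=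
          mul_le_mul_of_nonneg_right h9 (add_nonneg (hgam j) (hgam (j + 1)))
      _ = 2 * γ * (t j ^ s * t j ^ (-(m : ℝ) / q)) * (1 + 2 ^ ((m : ℝ) / q)) := by
          rw [h5]
          ring
      _ = 2 * γ * t j ^ σ * (1 + 2 ^ ((m : ℝ) / q)) := by rw [h7]
      _ ≤ 2 * γ * t j ^ σ * (2 ^ ((m : ℝ) / q) + 2 ^ ((m : ℝ) / q)) := by gcongr
      _ = (4 * 2 ^ ((m : ℝ) / q) * (γ * l ^ σ)) * r ^ j := by
          rw [htpow j]
          ring
  have htend0 : Tendsto t atTop (𝓝 0) := by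
    have := (tendsto_pow_atTop_nhds_zero_of_lt_one (r := (1 / 2 : ℝ)) (by norm_num)
      (by norm_num)).const_mul l
    simpa [t] using this
  have hPtend : Tendsto P atTop (𝓝 x) := by
    rw [tendsto_iff_dist_tendsto_zero]
    exact squeeze_zero (fun j => dist_nonneg) hPx htend0
  have hutend : Tendsto (fun j => u (P j)) atTop (𝓝 (u x)) := by
    have h1 : Tendsto P atTop (𝓝[I] x) :=
      tendsto_nhdsWithin_of_tendsto_nhds_of_eventually_within _ hPtend
        (Filter.Eventually.of_forall hPI)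
    exact (hu x hx).tendsto.comp h1
  have hfin := dist_le_of_le_geometric_of_tendsto₀ r _ hr1 hstep hutend
  rw [hP0] at hfin
  refine hfin.trans (le_of_eq ?_)
  ring

/-- Morrey's inequality of fractional order -/
theorem morrey (m : ℕ) (hm : 1 ≤ m) (s q : ℝ) (hs1 : 0 < s) (hs2 : s ≤ 1)
    (hq : (m : ℝ) < s * q) : ∃ C : ℝ≥0, ∀ (Z : Type)
    [MetricSpace Z] (a : Fin m → ℝ) (l : ℝ), 0 < l → ∀ (u : (Fin m → ℝ) → Z)
    (g : (Fin m → ℝ) → ℝ≥0∞), ContinuousOn u (Icc a (fun i => a i + l)) → Measurable g →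
    (∀ x ∈ Icc a (fun i => a i + l), ∀ y ∈ Icc a (fun i => a i + l),
      edist (u x) (u y) ≤ edist x y ^ s * (g x + g y)) →
    ∀ x ∈ Icc a (fun i => a i + l), ∀ y ∈ Icc a (fun i => a i + l),
      edist (u x) (u y) ^ q ≤ C * ENNReal.ofReal (l ^ (s * q - m)) *
        ∫⁻ z in Icc a (fun i => a i + l), g z ^ q := by
  have hm' : (1 : ℝ) ≤ m := by exact_mod_cast hm
  have hq0 : 0 < q := by
    by_contra hcon
    nlinarith
  have hs0 : 0 < s - (m : ℝ) / q := by
    rw [sub_pos, div_lt_iff₀ hq0]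
    exact hq
  have hr1 : (2 : ℝ) ^ (-(s - (m : ℝ) / q)) < 1 :=
    Real.rpow_lt_one_of_one_lt_of_neg (by norm_num) (by linarith)
  set K : ℝ := 4 * 2 ^ ((m : ℝ) / q) / (1 - (2 : ℝ) ^ (-(s - (m : ℝ) / q))) with hK
  have hK0 : 0 < K := by
    have : 0 < 1 - (2 : ℝ) ^ (-(s - (m : ℝ) / q)) := by linarith
    positivity
  refine ⟨((2 * K) ^ q).toNNReal, ?_⟩
  intro Z _ a l hl u g hu hg hH x hx y hy
  have hC0 : 0 < (2 * K) ^ q := by positivity
  have hl0 : 0 < l ^ (s * q - m) := by positivity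
  by_cases hG : ∫⁻ z in Icc a (fun i => a i + l), g z ^ q = ∞
  · rw [hG, ENNReal.mul_top]
    · exact le_top
    · have h1 : ((((2 * K) ^ q).toNNReal : ℝ≥0) : ℝ≥0∞) ≠ 0 := by
        simpa using hC0
      have h2 : ENNReal.ofReal (l ^ (s * q - m)) ≠ 0 := by simpa using hl0
      exact mul_ne_zero h1 h2
  · obtain ⟨z0, hz0⟩ := main_est_s s q hm hs1 hs2 hq a l hl u g hu hg hH hG
    set G := ∫⁻ z in Icc a (fun i => a i + l), g z ^ q with hGdef
    have h1 : dist (u x) (u y) ≤ 2 * K * (G.toReal ^ (1 / q) * l ^ (s - (m : ℝ) / q)) := by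
      calc dist (u x) (u y) ≤ dist (u x) z0 + dist z0 (u y) := dist_triangle _ _ _
        _ ≤ K * (G.toReal ^ (1 / q) * l ^ (s - (m : ℝ) / q)) +
            K * (G.toReal ^ (1 / q) * l ^ (s - (m : ℝ) / q)) := by
          rw [dist_comm (u x)]
          exact add_le_add (hz0 x hx) (hz0 y hy)
        _ = _ := by ring
    have h2 : dist (u x) (u y) ^ q ≤ (2 * K) ^ q * l ^ (s * q - m) * G.toReal := by
      calc dist (u x) (u y) ^ q
          ≤ (2 * K * (G.toReal ^ (1 / q) * l ^ (s - (m : ℝ) / q))) ^ q :=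
            Real.rpow_le_rpow dist_nonneg h1 hq0.le
        _ = (2 * K) ^ q * l ^ (s * q - m) * G.toReal := by
          rw [Real.mul_rpow (x := 2 * K) (by positivity) (by positivity),
            Real.mul_rpow (x := G.toReal ^ (1 / q)) (by positivity) (by positivity),
            ← Real.rpow_mul (by positivity),
            ← Real.rpow_mul hl.le, one_div_mul_cancel hq0.ne', Real.rpow_one]
          have : (s - (m : ℝ) / q) * q = s * q - m := by
            field_simp
          rw [this]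
          ring
    have h3 : edist (u x) (u y) ^ q = ENNReal.ofReal (dist (u x) (u y) ^ q) := by
      rw [edist_dist, ENNReal.ofReal_rpow_of_nonneg dist_nonneg hq0.le]
    rw [h3]
    refine (ENNReal.ofReal_le_ofReal h2).trans (le_of_eq ?_)
    rw [ENNReal.ofReal_mul (by positivity), ENNReal.ofReal_mul (by positivity),
      ENNReal.ofReal_toReal hG]
    rfl

end Pool.Agent.Q100.HK
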