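import Pool.Agent.Q100.HK.Face
import Pool.Agent.Q100.HK.Clo
import Pool.Agent.Y662.SP.SOB

/-!
# Homeomorphisms with a gradient of fractional order have small energy

Adaptation of `Pool/Agent/Y662/SP/SOB.lean`.
-/

set_option autoImplicit false

open MeasureTheory Set Metric Filter Topology
open scoped ENNReal NNReal

noncomputable section

namespace Pool.Agent.Q100.HK

open Pool.Agent.Y485.HS Pool.Agent.Y489.SP Pool.Agent.Y662.SP.SOB
open Pool.Agent.Q100.HS (netS closedBall_sub_three r_le_one ball_sub_BB rpow_mono)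

theorem sob_en {n : ℕ} (hn : 2 ≤ n) {H : Type} [Group H] [TopologicalSpace H]
    {T : H → E n → E n} (hT : LocAct n H T) (h : H) {s q : ℝ} (hs1 : 0 < s) (hs2 : s ≤ 1)
    (hq : (n : ℝ) - 1 < s * q) (hqn : q ≤ n + 1) {g : E n → ℝ≥0∞} (hgm : Measurable g)
    (hHaj : HajS s (BB n) (T h) g) {S U : Set (E n)} (hU : MeasurableSet U) {ρ : ℝ}
    (hρ : 0 < ρ) (hSU : ∀ a ∈ S, a ∈ closedBall (0 : E n) 2 → closedBall a ρ ⊆ U)
    (hgq : ∫⁻ z in U, g z ^ q < ∞) : ∃ N : ℕ, EnV (n + 1) N (T h) S := by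
  classical
  obtain ⟨C, hC⟩ := face n hn s q hs1 hs2 hq
  have hn1 : (2 : ℝ) ≤ n := by exact_mod_cast hn
  have hq0' : 0 < q := by
    by_contra hcon
    nlinarith
  set G : ℝ := (∫⁻ z in U, g z ^ q).toReal with hG
  have hG0 : 0 ≤ G := ENNReal.toReal_nonneg
  have hGe : ∫⁻ z in U, g z ^ q = ENNReal.ofReal G := (ENNReal.ofReal_toReal hgq.ne).symm
  set M : ℝ := (4 * n + 1) ^ n with hM
  have hM0 : 0 ≤ M := by positivity
  set C1 : ℝ := 9 ^ ((n : ℝ) + 1 - q) * (C * M * G) with hC1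
  have hC10 : 0 ≤ C1 := by positivity
  obtain ⟨N, hN1, hN2, hN3, hN4, hN5⟩ : ∃ N : ℕ, C1 ≤ N ∧ 8 * (n : ℝ) ≤ N ∧
      1 / (N : ℝ) ≤ s * q - n + 1 ∧ (1 : ℝ) ≤ N ∧ 2 * n / ρ ≤ N := by
    obtain ⟨N, hN⟩ := exists_nat_ge (max (max C1 (8 * (n : ℝ)))
      (max (1 / (s * q - n + 1)) (max 1 (2 * n / ρ))))
    have a1 := (le_max_left _ _).trans hN
    have a2 := (le_max_right _ _).trans hN
    have a3 := (le_max_right _ _).trans a2
    have b1 : (1 : ℝ) ≤ N := (le_max_left _ _).trans a3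
    refine ⟨N, (le_max_left _ _).trans a1, (le_max_right _ _).trans a1, ?_, b1,
      (le_max_right _ _).trans a3⟩
    have b2 : 1 / (s * q - n + 1) ≤ N := (le_max_left _ _).trans a2
    have b3 : 0 < s * q - n + 1 := by linarith
    rw [div_le_iff₀ b3] at b2
    rw [div_le_iff₀ (by linarith)]
    linarith
  have hN0 : 0 < N := by
    have : (0 : ℝ) < N := by linarith
    exact_mod_cast this
  refine ⟨N, hN0, fun r hr hNr A hA hsep => ?_⟩
  have hr1 : r ≤ 1 := r_le_one hN0 hr hNr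
  have hrr : r ≤ 1 / (8 * n) := by
    rw [le_div_iff₀ (by positivity)]
    nlinarith
  have hrρ : 2 * n * r ≤ ρ := by
    rw [div_le_iff₀ hρ] at hN5
    nlinarith
  have hA3 : ∀ a ∈ A, a ∈ closedBall (0 : E n) 3 := fun a ha =>
    closedBall_subset_closedBall (by norm_num) (hA a ha).2
  have hA2 : ∀ a ∈ A, ‖a‖ ≤ 2 := fun a ha => by simpa using (hA a ha).2
  -- images are bounded
  have himg : ∀ x : E n, ‖x‖ ≤ 4 → T h x ∈ closedBall (0 : E n) (17 / 4) := by
    intro x hx
    rw [mem_closedBall, dist_zero_right]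
    have := norm_T_le hT h (mem_BB.2 hx)
    linarith
  have hin : ∀ a ∈ A, ∀ x ∈ closedBall a r, ‖x‖ ≤ 4 := by
    intro a ha x hx
    have h1 := hA2 a ha
    rw [mem_closedBall, dist_eq_norm] at hx
    calc ‖x‖ = ‖(x - a) + a‖ := by rw [sub_add_cancel]
      _ ≤ ‖x - a‖ + ‖a‖ := norm_add_le _ _
      _ ≤ 4 := by linarith
  have hsubi : ∀ a ∈ A, T h '' closedBall a r ⊆ closedBall (0 : E n) (17 / 4) := by
    rintro a ha _ ⟨x, hx, rfl⟩
    exact himg x (hin a ha x hx)
  have hD9 : ∀ a ∈ A, diam (T h '' closedBall a r) ≤ 9 := by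
    intro a ha
    have := diam_le_of_subset_closedBall (by norm_num) (hsubi a ha)
    linarith
  have hsubB : ∀ a ∈ A, closedBall a (2 * n * r) ⊆ BB n := by
    intro a ha x hx
    have h1 := hA2 a ha
    rw [mem_closedBall, dist_eq_norm] at hx
    have h2 : 2 * n * r ≤ 1 := by
      calc 2 * n * r ≤ 2 * n * (1 / (8 * n)) := by gcongr
        _ = 1 / 4 := by field_simp; norm_num
        _ ≤ 1 := by norm_num
    rw [mem_BB]
    calc ‖x‖ = ‖(x - a) + a‖ := by rw [sub_add_cancel]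
      _ ≤ ‖x - a‖ + ‖a‖ := norm_add_le _ _
      _ ≤ 4 := by linarith
  have hMz : ∀ z : E n, ((A.filter fun a => z ∈ closedBall a (2 * n * r)).card : ℝ≥0∞) ≤
      ENNReal.ofReal M := by
    intro z
    rw [← ENNReal.ofReal_natCast]
    apply ENNReal.ofReal_le_ofReal
    have := pack z hr (R := 2 * n * r) (by positivity)
      (A.filter fun a => z ∈ closedBall a (2 * n * r))
      (fun a ha => by
        have := (Finset.mem_filter.1 ha).2
        rw [mem_closedBall] at this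
        rw [dist_comm]; exact this)
      (fun a ha b hb hab => hsep a (Finset.mem_filter.1 ha).1 b (Finset.mem_filter.1 hb).1 hab)
    refine this.trans (le_of_eq ?_)
    rw [hM]
    congr 1
    field_simp
    ring
  have hFm : Measurable (U.indicator fun z => g z ^ q) := (hgm.pow_const q).indicator hU
  have hov0 := overlap hFm A hsubB hMz
  have hovB : ∫⁻ z in BB n, U.indicator (fun z => g z ^ q) z ≤ ENNReal.ofReal G := by
    rw [← hGe, ← lintegral_indicator hU]
    exact setLIntegral_le_lintegral _ _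
  have hova : ∀ a ∈ A, ∫⁻ z in closedBall a (2 * n * r), g z ^ q =
      ∫⁻ z in closedBall a (2 * n * r), U.indicator (fun z => g z ^ q) z := by
    intro a ha
    refine setLIntegral_congr_fun measurableSet_closedBall fun z hz => ?_
    have hz' : z ∈ U := hSU a (hA a ha).1 (hA a ha).2 (closedBall_subset_closedBall hrρ hz)
    rw [indicator_of_mem hz']
  have hsum : ∑ a ∈ A, ENNReal.ofReal (diam (T h '' closedBall a r)) ^ q ≤
      C * ENNReal.ofReal (r ^ (s * q - n)) * (ENNReal.ofReal M * ENNReal.ofReal G) := by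
    calc ∑ a ∈ A, ENNReal.ofReal (diam (T h '' closedBall a r)) ^ q
        ≤ ∑ a ∈ A, C * ENNReal.ofReal (r ^ (s * q - n)) *
          ∫⁻ z in closedBall a (2 * n * r), g z ^ q :=
          Finset.sum_le_sum (fun a ha => hC H T hT h g hgm hHaj a (hA3 a ha) r hr hrr)
      _ = C * ENNReal.ofReal (r ^ (s * q - n)) *
          ∑ a ∈ A, ∫⁻ z in closedBall a (2 * n * r), U.indicator (fun z => g z ^ q) z := by
          rw [Finset.mul_sum]
          exact Finset.sum_congr rfl fun a ha => by rw [hova a ha]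
      _ ≤ C * ENNReal.ofReal (r ^ (s * q - n)) * (ENNReal.ofReal M * ENNReal.ofReal G) := by
          gcongr
          exact hov0.trans (mul_le_mul_right hovB _)
  have hrn : 0 ≤ r ^ (s * q - n) := Real.rpow_nonneg hr.le _
  have hsumR : ∑ a ∈ A, diam (T h '' closedBall a r) ^ q ≤ C * r ^ (s * q - n) * (M * G) := by
    have e1 : ∑ a ∈ A, ENNReal.ofReal (diam (T h '' closedBall a r)) ^ q =
        ENNReal.ofReal (∑ a ∈ A, diam (T h '' closedBall a r) ^ q) := by
      rw [ENNReal.ofReal_sum_of_nonneg (fun a _ => Real.rpow_nonneg diam_nonneg _)]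
      exact Finset.sum_congr rfl
        (fun a _ => ENNReal.ofReal_rpow_of_nonneg diam_nonneg hq0'.le)
    have e2 : (C : ℝ≥0∞) * ENNReal.ofReal (r ^ (s * q - n)) *
        (ENNReal.ofReal M * ENNReal.ofReal G) =
        ENNReal.ofReal (C * r ^ (s * q - n) * (M * G)) := by
      rw [ENNReal.ofReal_mul (by positivity), ENNReal.ofReal_mul (by positivity),
        ENNReal.ofReal_mul hM0, ENNReal.ofReal_coe_nnreal]
    rw [e1, e2] at hsum
    exact (ENNReal.ofReal_le_ofReal_iff (by positivity)).1 hsum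
  have hterm : ∀ a ∈ A, diam (T h '' closedBall a r) ^ (n + 1) ≤
      9 ^ ((n : ℝ) + 1 - q) * diam (T h '' closedBall a r) ^ q := by
    intro a ha
    rcases (diam_nonneg (s := T h '' closedBall a r)).eq_or_lt with h0 | h0
    · rw [← h0, Real.zero_rpow hq0'.ne', mul_zero, zero_pow (by omega)]
    · have e : diam (T h '' closedBall a r) ^ (n + 1) =
          diam (T h '' closedBall a r) ^ ((n : ℝ) + 1 - q) *
            diam (T h '' closedBall a r) ^ q := by
        rw [← Real.rpow_add h0, sub_add_cancel, ← Nat.cast_succ, Real.rpow_natCast]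
      have h3 : diam (T h '' closedBall a r) ^ ((n : ℝ) + 1 - q) ≤ 9 ^ ((n : ℝ) + 1 - q) :=
        Real.rpow_le_rpow h0.le (hD9 a ha) (by linarith)
      rw [e]
      exact mul_le_mul_of_nonneg_right h3 (Real.rpow_nonneg h0.le _)
  calc ∑ a ∈ A, diam (T h '' closedBall a r) ^ (n + 1)
      ≤ ∑ a ∈ A, 9 ^ ((n : ℝ) + 1 - q) * diam (T h '' closedBall a r) ^ q :=
        Finset.sum_le_sum hterm
    _ = 9 ^ ((n : ℝ) + 1 - q) * ∑ a ∈ A, diam (T h '' closedBall a r) ^ q := by
        rw [Finset.mul_sum]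
    _ ≤ 9 ^ ((n : ℝ) + 1 - q) * (C * r ^ (s * q - n) * (M * G)) := by gcongr
    _ = C1 * r ^ (s * q - n) := by rw [hC1]; ring
    _ ≤ N * r ^ (1 / (N : ℝ) - 1) := by
        have h5 : r ^ (s * q - n) ≤ r ^ (1 / (N : ℝ) - 1) :=
          Real.rpow_le_rpow_of_exponent_ge hr hr1 (by linarith)
        exact mul_le_mul hN1 h5 hrn (by linarith)

theorem sob_en' {n : ℕ} (hn : 2 ≤ n) {H : Type} [Group H] [TopologicalSpace H]
    {T : H → E n → E n} (hT : LocAct n H T) (h : H) {s q : ℝ} (hs1 : 0 < s) (hs2 : s ≤ 1)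
    (hsn : (n : ℝ) - 1 < s * (n + 1)) (hq : (n : ℝ) - 1 < s * q) {g : E n → ℝ≥0∞}
    (hgm : Measurable g) (hHaj : HajS s (BB n) (T h) g) {S U : Set (E n)}
    (hU : MeasurableSet U) (hUt : volume U < ∞) {ρ : ℝ}
    (hρ : 0 < ρ) (hSU : ∀ a ∈ S, a ∈ closedBall (0 : E n) 2 → closedBall a ρ ⊆ U)
    (hgq : ∫⁻ z in U, g z ^ q < ∞) : ∃ N : ℕ, EnV (n + 1) N (T h) S := by
  rcases le_or_gt q (n + 1) with h1 | h1
  · exact sob_en hn hT h hs1 hs2 hq h1 hgm hHaj hU hρ hSU hgq
  · refine sob_en hn hT h hs1 hs2 hsn le_rfl hgm hHaj hU hρ hSU ?_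
    have hle : ∫⁻ x in U, g x ^ ((n : ℝ) + 1) ≤ ∫⁻ x in U, (1 + g x ^ q) := by
      apply lintegral_mono
      intro x
      rcases le_or_gt (g x) 1 with h2 | h2
      · calc g x ^ ((n : ℝ) + 1) ≤ 1 ^ ((n : ℝ) + 1) := ENNReal.rpow_le_rpow h2 (by positivity)
          _ = 1 := ENNReal.one_rpow _
          _ ≤ _ := le_self_add
      · exact (ENNReal.rpow_le_rpow_of_exponent_le h2.le h1.le).trans le_add_self
    refine lt_of_le_of_lt hle ?_
    rw [lintegral_add_left measurable_const, lintegral_const, one_mul, Measure.restrict_apply_univ]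
    exact ENNReal.add_lt_top.2 ⟨hUt, hgq⟩

end Pool.Agent.Q100.HK
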