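import Pool.Agent.Q100.HK.CtEn
import Pool.Agent.Q100.HK.Sob
import Pool.Agent.Y909.SP.TRA

/-!
# Transfer of an action to a bi-Lipschitz chart
-/

set_option autoImplicit false

open MeasureTheory Set Metric Filter Topology
open scoped ENNReal NNReal

noncomputable section

namespace Pool.Agent.Q100.HK

open Pool.Agent.Y485.HS
open Pool.Agent.Q100.HS (netS closedBall_sub_three r_le_one ball_sub_BB rpow_mono)


/-- the constants of the transfer -/
lemma ct_num {n N K : ℕ} (hN : 0 < N) (hK : 1 ≤ K) {D δ P Q p q : ℝ} (hD : 0 < D) (hδ : 0 < δ)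
    (hP0 : 0 ≤ P) (hQ0 : 0 ≤ Q) (hp0 : 0 ≤ p) (hq0 : 0 ≤ q)
    (h1 : δ ≤ K * D) (h2 : D ≤ K * δ) (h3 : p ≤ K * P) (h4 : Q ≤ K * q) (hδ1 : δ ≤ 1)
    (hX : D * P ^ (n + 1) ≤ N * D ^ (1 / (N : ℝ)) * (D ^ n + Q ^ n)) :
    δ * p ^ (n + 1) ≤ ((N * K ^ (2 * n + 3) : ℕ) : ℝ) *
      δ ^ (1 / ((N * K ^ (2 * n + 3) : ℕ) : ℝ)) * (δ ^ n + q ^ n) := by
  have hN' : (0 : ℝ) < N := by exact_mod_cast hN
  have hK' : (1 : ℝ) ≤ K := by exact_mod_cast hK
  have hK0 : (0 : ℝ) < K := by linarith
  set M : ℕ := N * K ^ (2 * n + 3) with hM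
  have hNM : N ≤ M := by
    rw [hM]
    exact Nat.le_mul_of_pos_right N (by positivity)
  have hNM' : (N : ℝ) ≤ M := by exact_mod_cast hNM
  have e1 : D ^ (1 / (N : ℝ)) ≤ K * δ ^ (1 / (M : ℝ)) := by
    have h5 : D ^ (1 / (N : ℝ)) ≤ (K * δ) ^ (1 / (N : ℝ)) :=
      Real.rpow_le_rpow hD.le h2 (by positivity)
    have h6 : ((K : ℝ) * δ) ^ (1 / (N : ℝ)) = (K : ℝ) ^ (1 / (N : ℝ)) * δ ^ (1 / (N : ℝ)) :=
      Real.mul_rpow hK0.le hδ.le
    have h7 : (K : ℝ) ^ (1 / (N : ℝ)) ≤ K := by
      have h8 : (1 : ℝ) / N ≤ 1 := by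
        rw [div_le_one hN']
        exact_mod_cast hN
      calc (K : ℝ) ^ (1 / (N : ℝ)) ≤ (K : ℝ) ^ (1 : ℝ) :=
            Real.rpow_le_rpow_of_exponent_le hK' h8
        _ = K := Real.rpow_one _
    have h9 : δ ^ (1 / (N : ℝ)) ≤ δ ^ (1 / (M : ℝ)) :=
      Real.rpow_le_rpow_of_exponent_ge hδ hδ1 (one_div_le_one_div_of_le hN' hNM')
    calc D ^ (1 / (N : ℝ)) ≤ (K : ℝ) ^ (1 / (N : ℝ)) * δ ^ (1 / (N : ℝ)) := by
          rw [← h6]; exact h5
      _ ≤ K * δ ^ (1 / (M : ℝ)) := by
          refine mul_le_mul h7 h9 (by positivity) hK0.le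
  have e2 : D ^ n + Q ^ n ≤ K ^ n * (δ ^ n + q ^ n) := by
    have h5 : D ^ n ≤ (K * δ) ^ n := pow_le_pow_left₀ hD.le h2 n
    have h6 : Q ^ n ≤ (K * q) ^ n := pow_le_pow_left₀ hQ0 h4 n
    rw [mul_pow] at h5 h6
    nlinarith
  have e3 : δ * p ^ (n + 1) ≤ K ^ (n + 2) * (D * P ^ (n + 1)) := by
    have h5 : p ^ (n + 1) ≤ (K * P) ^ (n + 1) := pow_le_pow_left₀ hp0 h3 (n + 1)
    calc δ * p ^ (n + 1) ≤ (K * D) * (K * P) ^ (n + 1) := by gcongr
      _ = K ^ (n + 2) * (D * P ^ (n + 1)) := by rw [mul_pow]; ring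
  have hDr : 0 ≤ D ^ (1 / (N : ℝ)) := by positivity
  calc δ * p ^ (n + 1) ≤ K ^ (n + 2) * (D * P ^ (n + 1)) := e3
    _ ≤ K ^ (n + 2) * (N * D ^ (1 / (N : ℝ)) * (D ^ n + Q ^ n)) := by gcongr
    _ ≤ K ^ (n + 2) * (N * (K * δ ^ (1 / (M : ℝ))) * (K ^ n * (δ ^ n + q ^ n))) := by
        gcongr
    _ = (M : ℝ) * δ ^ (1 / (M : ℝ)) * (δ ^ n + q ^ n) := by
        rw [hM]
        push_cast
        ring

theorem tra {n : ℕ} (hn : 2 ≤ n) {X : Type} [MetricSpace X] [MeasurableSpace X]
    [BorelSpace X] {H : Type} [Group H]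
    [TopologicalSpace H] [MulAction H X] [ContinuousSMul H X] {U : Set X} {ψ : X → E n} {L : ℝ}
    (hψ : BiLip n U ψ L) (hBU : closedBall 0 4 ⊆ ψ '' U)
    (hact : ∀ h : H, ∀ x ∈ U, ψ x ∈ closedBall 0 4 →
      h • x ∈ U ∧ dist (ψ (h • x)) (ψ x) ≤ 1 / 4)
    (hC : ∀ h : H, Cls n (fun x : X => h • x)) :
    ∃ T : H → E n → E n, LocAct n H T ∧ (∀ h, SEn (T h)) ∧
      ∀ h : H, ∀ x ∈ U, ψ x ∈ closedBall 0 4 → T h (ψ x) = ψ (h • x) := by
  classical
  obtain ⟨hUo, hVo, hbl⟩ := hψ
  -- a natural constant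
  obtain ⟨K, hK⟩ : ∃ K : ℕ, L ≤ K := exists_nat_ge L
  obtain ⟨K, hLK, hK1⟩ : ∃ K : ℕ, L ≤ K ∧ 1 ≤ K := by
    refine ⟨K + 1, ?_, by omega⟩
    push_cast
    linarith
  have hK1' : (1 : ℝ) ≤ K := by exact_mod_cast hK1
  have hK0 : (0 : ℝ) < K := by linarith
  have hψ1 : ∀ a ∈ U, ∀ b ∈ U, dist (ψ a) (ψ b) ≤ K * dist a b := fun a ha b hb =>
    ((hbl a ha b hb).1).trans (mul_le_mul_of_nonneg_right hLK dist_nonneg)
  have hlip : LipschitzOnWith K ψ U := by
    refine LipschitzOnWith.of_dist_le_mul fun a ha b hb => ?_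
    exact hψ1 a ha b hb
  have h0 : (0 : E n) ∈ BB n := by
    unfold BB
    exact mem_closedBall_self (by norm_num)
  obtain ⟨x0, hx0U, hx0⟩ := hBU h0
  have : Nonempty X := ⟨x0⟩
  obtain ⟨θ, hθd⟩ : ∃ θ : E n → X, θ = Function.invFunOn ψ U := ⟨_, rfl⟩
  have hθU : ∀ y ∈ BB n, θ y ∈ U := by
    intro y hy
    obtain ⟨x, hx, hxy⟩ := hBU hy
    rw [hθd]
    exact Function.invFunOn_mem ⟨x, hx, hxy⟩
  have hψθ : ∀ y ∈ BB n, ψ (θ y) = y := by
    intro y hy
    obtain ⟨x, hx, hxy⟩ := hBU hy
    rw [hθd]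
    exact Function.invFunOn_eq ⟨x, hx, hxy⟩
  have hθψ : ∀ x ∈ U, θ (ψ x) = x := by
    intro x hx
    have h1 : θ (ψ x) ∈ U := by
      rw [hθd]; exact Function.invFunOn_mem ⟨x, hx, rfl⟩
    have h2 : ψ (θ (ψ x)) = ψ x := by
      rw [hθd]; exact Function.invFunOn_eq ⟨x, hx, rfl⟩
    have h3 := (hbl _ h1 x hx).2
    rw [h2, dist_self, mul_zero] at h3
    exact dist_le_zero.1 h3
  have hθ1 : ∀ a ∈ BB n, ∀ b ∈ BB n, dist (θ a) (θ b) ≤ K * dist a b := by
    intro a ha b hb
    have h3 := (hbl _ (hθU a ha) _ (hθU b hb)).2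
    rw [hψθ a ha, hψθ b hb] at h3
    exact h3.trans (mul_le_mul_of_nonneg_right hLK dist_nonneg)
  have hθ2 : ∀ a ∈ BB n, ∀ b ∈ BB n, dist a b ≤ K * dist (θ a) (θ b) := by
    intro a ha b hb
    have h3 := hψ1 _ (hθU a ha) _ (hθU b hb)
    rwa [hψθ a ha, hψθ b hb] at h3
  have hθlip : LipschitzOnWith K θ (BB n) := by
    refine LipschitzOnWith.of_dist_le_mul fun a ha b hb => ?_
    exact hθ1 a ha b hb
  have hθc : ContinuousOn θ (BB n) := hθlip.continuousOn
  have hact' : ∀ h : H, ∀ y ∈ BB n, h • θ y ∈ U ∧ dist (ψ (h • θ y)) y ≤ 1 / 4 := by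
    intro h y hy
    have := hact h (θ y) (hθU y hy) (by rw [hψθ y hy]; exact hy)
    rwa [hψθ y hy] at this
  have hUR : U ⊆ Reg n X := fun x hx => ⟨U, ψ, L, hx, hUo, hVo, hbl⟩
  have h2B : closedBall (0 : E n) 2 ⊆ BB n := closedBall_subset_closedBall (by norm_num)
  obtain ⟨T, hTd⟩ : ∃ T : H → E n → E n, T = fun h y => ψ (h • θ y) := ⟨_, rfl⟩
  have hTL : LocAct n H T := by
    rw [hTd]
    refine ⟨?_, ?_, ?_, ?_⟩
    · -- continuity
      have h1 : ContinuousOn (fun q : H × E n => q.1 • θ q.2) (univ ×ˢ BB n) := by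
        refine ContinuousOn.smul continuousOn_fst ?_
        exact hθc.comp continuousOn_snd fun q hq => hq.2
      exact hlip.continuousOn.comp h1 fun q hq => (hact' q.1 q.2 hq.2).1
    · intro x hx
      simp only [one_smul]
      exact hψθ x hx
    · intro h k x hx hk
      rw [hθψ _ (hact' k x hx).1, mul_smul]
    · intro h x hx
      exact (hact' h x hx).2
  refine ⟨T, hTL, ?_, ?_⟩
  · intro h
    obtain ⟨S, hSc, hSu, hSp⟩ := hC h
    refine ⟨fun i => BB n ∩ θ ⁻¹' S i, ?_, ?_, ?_⟩
    · intro i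
      exact hθc.preimage_isClosed_of_isClosed isClosed_closedBall (hSc i)
    · intro v hv
      have hvB := h2B hv
      obtain ⟨i, hi⟩ := mem_iUnion.1 (hSu (hUR (hθU v hvB)))
      exact mem_iUnion.2 ⟨i, hvB, hi⟩
    · intro i
      rcases hSp i with ⟨N, hN, hSN⟩ | hE | hSob
      · -- controlled points
        have hM0 : 0 < N * K ^ (2 * n + 3) := by positivity
        refine ⟨_, en_of_ct (by omega) hTL h (N := N * K ^ (2 * n + 3)) hM0 ?_⟩
        rintro v ⟨hvB, hvS⟩ _ y hy z hz hyz hzv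
        have hN' : (0 : ℝ) < N := by exact_mod_cast hN
        have hM' : (0 : ℝ) < ((N * K ^ (2 * n + 3) : ℕ) : ℝ) := by exact_mod_cast hM0
        have hn0 : n ≠ 0 := by omega
        rcases (dist_nonneg (x := z) (y := v)).eq_or_lt with h1 | h1
        · have hyv : dist y v = 0 := by
            have h2 : ((N * K ^ (2 * n + 3) : ℕ) : ℝ) * dist y v ≤ 0 := by rw [h1]; exact hyz
            have h3 := dist_nonneg (x := y) (y := v)
            nlinarith
          rw [← h1, zero_mul]
          have h5 : (0 : ℝ) ≤ 0 ^ (1 / ((N * K ^ (2 * n + 3) : ℕ) : ℝ)) :=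
            Real.rpow_nonneg le_rfl _
          positivity
        · have hKM : (K : ℝ) ^ 2 * N ≤ ((N * K ^ (2 * n + 3) : ℕ) : ℝ) := by
            push_cast
            have h5 : (K : ℝ) ^ 2 ≤ (K : ℝ) ^ (2 * n + 3) :=
              pow_le_pow_right₀ hK1' (by omega)
            nlinarith
          have hzθ := hθ1 z hz v hvB
          have hzθ2 := hθ2 z hz v hvB
          have hD : 0 < dist (θ z) (θ v) := by
            by_contra h5
            push Not at h5
            have h6 : dist (θ z) (θ v) = 0 := le_antisymm h5 dist_nonneg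
            rw [h6, mul_zero] at hzθ2
            linarith
          have hK2 : (K : ℝ) ≤ K ^ 2 := by nlinarith
          have hc1 : (N : ℝ) * dist (θ y) (θ v) ≤ dist (θ z) (θ v) := by
            have h5 := hθ1 y hy v hvB
            have h6 : (K : ℝ) * (N * dist (θ y) (θ v)) ≤ K * dist (θ z) (θ v) := by
              calc (K : ℝ) * (N * dist (θ y) (θ v)) ≤ K * (N * (K * dist y v)) := by gcongr
                _ = K ^ 2 * N * dist y v := by ring
                _ ≤ ((N * K ^ (2 * n + 3) : ℕ) : ℝ) * dist y v := by gcongr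
                _ ≤ dist z v := hyz
                _ ≤ K * dist (θ z) (θ v) := hzθ2
            exact le_of_mul_le_mul_left h6 hK0
          have hc2 : (N : ℝ) * dist (θ z) (θ v) < 1 := by
            calc (N : ℝ) * dist (θ z) (θ v) ≤ N * (K * dist z v) := by gcongr
              _ = K * N * dist z v := by ring
              _ ≤ K ^ 2 * N * dist z v := by gcongr
              _ ≤ ((N * K ^ (2 * n + 3) : ℕ) : ℝ) * dist z v := by gcongr
              _ < 1 := hzv
          have hc3 : dist z v ≤ 1 := by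
            have h5 : (1 : ℝ) ≤ ((N * K ^ (2 * n + 3) : ℕ) : ℝ) := by exact_mod_cast hM0
            nlinarith
          have hX := hSN (θ v) hvS (θ y) (θ z) hc1 hc2
          have h8 := ct_num (n := n) hN hK1 hD h1 (dist_nonneg) (dist_nonneg)
            (dist_nonneg (x := T h y) (y := T h v)) (dist_nonneg (x := T h z) (y := T h v))
            hzθ2 hzθ (P := dist (h • θ y) (h • θ v)) (Q := dist (h • θ z) (h • θ v)) (by
              rw [hTd]
              exact hψ1 _ (hact' h y hy).1 _ (hact' h v hvB).1) (by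
              rw [hTd]
              refine ((hbl _ (hact' h z hz).1 _ (hact' h v hvB).1).2).trans ?_
              exact mul_le_mul_of_nonneg_right hLK dist_nonneg) hc3 hX
          exact h8
      · -- energy
        have hCc : IsCompact (θ '' BB n) := (isCompact_closedBall (0 : E n) 4).image_of_continuousOn hθc
        have hCR : θ '' BB n ⊆ Reg n X := by
          rintro _ ⟨v, hv, rfl⟩
          exact hUR (hθU v hv)
        obtain ⟨N, hN, hNE⟩ := hE (θ '' BB n) hCR hCc (K ^ 2)
        have hN' : (0 : ℝ) < N := by exact_mod_cast hN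
        have hNM : N ≤ N * K ^ (n + 2) := Nat.le_mul_of_pos_right N (by positivity)
        have hM0 : 0 < N * K ^ (n + 2) := by positivity
        refine ⟨N * K ^ (n + 2), hM0, fun r hr hMr A hA hAs => ?_⟩
        have hr1 : r ≤ 1 := r_le_one hM0 hr hMr
        have hNM' : (N : ℝ) ≤ ((N * K ^ (n + 2) : ℕ) : ℝ) := by exact_mod_cast hNM
        have hinjθ : InjOn θ (BB n) := by
          intro a ha b hb hab
          rw [← hψθ a ha, ← hψθ b hb, hab]
        have hinjA : InjOn θ (A : Set (E n)) := hinjθ.mono fun a ha => h2B (hA a ha).2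
        set f : X → X := fun x => h • x with hf
        have hfc : Continuous f := continuous_const_smul h
        have hbd : ∀ s : Set X, Bornology.IsBounded (f '' (s ∩ θ '' BB n)) := fun s =>
          ((hCc.image hfc).isBounded).subset (image_mono inter_subset_right)
        have h1 := hNE (r / K) (by positivity) (by
          have h5 : r / K ≤ r := div_le_self hr.le hK1'
          calc (N : ℝ) * (r / K) ≤ ((N * K ^ (n + 2) : ℕ) : ℝ) * r := by gcongr
            _ < 1 := hMr) (A.image θ) (by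
          intro a' ha'
          obtain ⟨a, ha, rfl⟩ := Finset.mem_image.1 ha'
          exact ⟨(hA a ha).1.2, mem_image_of_mem θ (h2B (hA a ha).2)⟩) (by
          intro a' ha' b' hb' hab
          obtain ⟨a, ha, rfl⟩ := Finset.mem_image.1 ha'
          obtain ⟨b, hb, rfl⟩ := Finset.mem_image.1 hb'
          have h5 := hAs a ha b hb (fun h => hab (by rw [h]))
          have h6 := hθ2 a (h2B (hA a ha).2) b (h2B (hA b hb).2)
          rw [div_le_iff₀ hK0, mul_comm]
          linarith)
        rw [Finset.sum_image hinjA] at h1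
        have hone : ∀ a ∈ A, Metric.diam (T h '' closedBall a r) ^ (n + 1) ≤
            (K : ℝ) ^ (n + 1) * Metric.diam (f '' (closedBall (θ a) (((K ^ 2 : ℕ) : ℝ) * (r / K)) ∩
              θ '' BB n)) ^ (n + 1) := by
          intro a ha
          rw [← mul_pow]
          refine pow_le_pow_left₀ diam_nonneg ?_ (n + 1)
          refine Metric.diam_le_of_forall_dist_le (by positivity) ?_
          have haB := h2B (hA a ha).2
          have hsub := ball_sub_BB (hA a ha).2 hr1
          have hin : ∀ x ∈ closedBall a r, f (θ x) ∈ f '' (closedBall (θ a)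
              (((K ^ 2 : ℕ) : ℝ) * (r / K)) ∩ θ '' BB n) := by
            intro x hx
            refine mem_image_of_mem f ⟨?_, mem_image_of_mem θ (hsub hx)⟩
            rw [mem_closedBall]
            have h5 := hθ1 x (hsub hx) a haB
            have h6 : ((K ^ 2 : ℕ) : ℝ) * (r / K) = K * r := by
              push_cast
              field_simp
            rw [h6]
            have h7 : dist x a ≤ r := hx
            exact h5.trans (by gcongr)
          rintro _ ⟨x, hx, rfl⟩ _ ⟨x', hx', rfl⟩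
          have h5 : dist (T h x) (T h x') ≤ K * dist (f (θ x)) (f (θ x')) := by
            rw [hTd]
            exact hψ1 _ (hact' h x (hsub hx)).1 _ (hact' h x' (hsub hx')).1
          have h6 := Metric.dist_le_diam_of_mem (hbd _) (hin x hx) (hin x' hx')
          exact h5.trans (by gcongr)
        have he : (r / K) ^ (1 / (N : ℝ) - 1) ≤ K * r ^ (1 / (N : ℝ) - 1) := by
          rw [Real.div_rpow hr.le hK0.le, div_eq_mul_inv, ← Real.rpow_neg hK0.le, mul_comm]
          have h5 : (K : ℝ) ^ (-(1 / (N : ℝ) - 1)) ≤ (K : ℝ) ^ (1 : ℝ) := by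
            refine Real.rpow_le_rpow_of_exponent_le hK1' ?_
            have : 0 < 1 / (N : ℝ) := by positivity
            linarith
          rw [Real.rpow_one] at h5
          exact mul_le_mul_of_nonneg_right h5 (by positivity)
        calc ∑ a ∈ A, Metric.diam (T h '' closedBall a r) ^ (n + 1)
            ≤ ∑ a ∈ A, (K : ℝ) ^ (n + 1) * Metric.diam (f '' (closedBall (θ a)
              (((K ^ 2 : ℕ) : ℝ) * (r / K)) ∩ θ '' BB n)) ^ (n + 1) := Finset.sum_le_sum hone
          _ = (K : ℝ) ^ (n + 1) * ∑ a ∈ A, Metric.diam (f '' (closedBall (θ a)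
              (((K ^ 2 : ℕ) : ℝ) * (r / K)) ∩ θ '' BB n)) ^ (n + 1) := by rw [Finset.mul_sum]
          _ ≤ (K : ℝ) ^ (n + 1) * (N * (r / K) ^ (1 / (N : ℝ) - 1)) := by gcongr
          _ ≤ (K : ℝ) ^ (n + 1) * (N * (K * r ^ (1 / (N : ℝ) - 1))) := by gcongr
          _ ≤ (K : ℝ) ^ (n + 1) * (N * (K * r ^ (1 / ((N * K ^ (n + 2) : ℕ) : ℝ) - 1))) := by
              have h5 : r ^ (1 / (N : ℝ) - 1) ≤ r ^ (1 / ((N * K ^ (n + 2) : ℕ) : ℝ) - 1) := by
                refine Real.rpow_le_rpow_of_exponent_ge hr hr1 ?_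
                have : (1 : ℝ) / ((N * K ^ (n + 2) : ℕ) : ℝ) ≤ 1 / N :=
                  one_div_le_one_div_of_le hN' hNM'
                linarith
              gcongr
          _ = _ := by
              push_cast
              ring
      · -- gradients
        obtain ⟨O, hO, hSO, s, q, hs1, hs2, hsn, hq, hg⟩ := hSob
        have hq0 : 0 < q := by
          have hn2 : (2 : ℝ) ≤ n := by exact_mod_cast hn
          by_contra hcon
          nlinarith
        have h4B : ball (0 : E n) 4 ⊆ BB n := ball_subset_closedBall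
        have hO' : IsOpen (ball (0 : E n) 4 ∩ θ ⁻¹' O) :=
          (hθc.mono h4B).isOpen_inter_preimage isOpen_ball hO
        have hSc' : IsClosed (BB n ∩ θ ⁻¹' S i) :=
          hθc.preimage_isClosed_of_isClosed isClosed_closedBall (hSc i)
        have hScc : IsCompact ((BB n ∩ θ ⁻¹' S i) ∩ closedBall (0 : E n) 2) :=
          (isCompact_closedBall (0 : E n) 2).inter_left hSc'
        have hsub : (BB n ∩ θ ⁻¹' S i) ∩ closedBall (0 : E n) 2 ⊆ ball (0 : E n) 4 ∩ θ ⁻¹' O := by
          rintro v ⟨⟨hvB, hvS⟩, hv2⟩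
          refine ⟨closedBall_subset_ball (by norm_num) hv2, ?_⟩
          exact hSO ⟨hvS, hUR (hθU v hvB)⟩
        obtain ⟨ρ, hρ, hρs⟩ := hScc.exists_cthickening_subset_open hO' hsub
        obtain ⟨C', hC'⟩ : ∃ C' : Set (E n),
          C' = cthickening ρ ((BB n ∩ θ ⁻¹' S i) ∩ closedBall (0 : E n) 2) := ⟨_, rfl⟩
        rw [← hC'] at hρs
        have hC'c : IsCompact C' := by
          rw [hC']
          exact hScc.cthickening
        have hC'B : C' ⊆ BB n := fun v hv => h4B (hρs hv).1
        have hC'm : MeasurableSet C' := hC'c.isClosed.measurableSet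
        obtain ⟨g, hgm, hgH, hgE⟩ := hg (θ '' C') (by
          rintro _ ⟨v, hv, rfl⟩
          exact ⟨(hρs hv).2, hUR (hθU v (hC'B hv))⟩) (hC'c.image_of_continuousOn
            (hθc.mono hC'B))
        have hBm : MeasurableSet (BB n) := isClosed_closedBall.measurableSet
        obtain ⟨θ', hθ'⟩ : ∃ θ' : E n → X, θ' = (BB n).piecewise θ (fun _ => x0) := ⟨_, rfl⟩
        have hθ'm : Measurable θ' := by
          rw [hθ']
          exact hθc.measurable_piecewise continuousOn_const hBm
        have hθ'e : ∀ y ∈ BB n, θ' y = θ y := by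
          intro y hy
          rw [hθ']
          exact piecewise_eq_of_mem _ _ _ hy
        have hlip' : LipschitzOnWith (K : ℝ≥0) ψ U := by
          refine LipschitzOnWith.of_dist_le_mul fun a ha b hb => ?_
          exact hψ1 a ha b hb
        have hθlip' : LipschitzOnWith (K : ℝ≥0) θ (BB n) := by
          refine LipschitzOnWith.of_dist_le_mul fun a ha b hb => ?_
          exact hθ1 a ha b hb
        obtain ⟨g', hg'⟩ : ∃ g' : E n → ℝ≥0∞,
          g' = C'.piecewise (fun y => (K : ℝ≥0∞) * (K : ℝ≥0∞) * g (θ' y)) (fun _ => ∞) :=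
          ⟨_, rfl⟩
        have hg'm : Measurable g' := by
          rw [hg']
          exact ((hgm.comp hθ'm).const_mul _).piecewise hC'm measurable_const
        have hg'e : ∀ y ∈ C', g' y = (K : ℝ≥0∞) * (K : ℝ≥0∞) * g (θ y) := by
          intro y hy
          rw [hg', piecewise_eq_of_mem _ _ _ hy, hθ'e y (hC'B hy)]
        have hg't : ∀ y, y ∉ C' → g' y = ∞ := by
          intro y hy
          rw [hg', piecewise_eq_of_notMem _ _ _ hy]
        have hKs : ((K : ℝ≥0∞)) ^ s ≤ K := by
          calc ((K : ℝ≥0∞)) ^ s ≤ (K : ℝ≥0∞) ^ (1 : ℝ) :=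
                ENNReal.rpow_le_rpow_of_exponent_le (by exact_mod_cast hK1) hs2
            _ = K := ENNReal.rpow_one _
        have hHaj : HajS s (BB n) (T h) g' := by
          intro x hx y hy
          by_cases hxy : x = y
          · rw [hxy, edist_self]
            exact bot_le
          have hpos : edist x y ^ s ≠ 0 := by
            intro h0
            rcases (ENNReal.rpow_eq_zero_iff.1 h0) with h1 | h1
            · exact hxy (edist_eq_zero.1 h1.1)
            · linarith [h1.2]
          by_cases hxC : x ∈ C'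
          · by_cases hyC : y ∈ C'
            · have h1 := hlip' (hact' h x hx).1 (hact' h y hy).1
              have h2 := hgH (θ x) (mem_image_of_mem θ hxC) (θ y) (mem_image_of_mem θ hyC)
              have h3 := ENNReal.rpow_le_rpow (hθlip' hx hy) hs1.le
              rw [ENNReal.mul_rpow_of_nonneg _ _ hs1.le] at h3
              rw [hg'e x hxC, hg'e y hyC, hTd]
              simp only
              have h1' : edist (ψ (h • θ x)) (ψ (h • θ y)) ≤
                  (K : ℝ≥0∞) * edist (h • θ x) (h • θ y) := by simpa using h1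
              have h3' : edist (θ x) (θ y) ^ s ≤ (K : ℝ≥0∞) ^ s * edist x y ^ s := by
                simpa using h3
              calc edist (ψ (h • θ x)) (ψ (h • θ y)) ≤ K * edist (h • θ x) (h • θ y) := h1'
                _ ≤ K * (edist (θ x) (θ y) ^ s * (g (θ x) + g (θ y))) := by
                    exact mul_le_mul_right h2 _
                _ ≤ K * (((K : ℝ≥0∞) ^ s * edist x y ^ s) * (g (θ x) + g (θ y))) := by
                    exact mul_le_mul_right (mul_le_mul_left h3' _) _
                _ ≤ K * (((K : ℝ≥0∞) * edist x y ^ s) * (g (θ x) + g (θ y))) := by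
                    exact mul_le_mul_right (mul_le_mul_left (mul_le_mul_left hKs _) _) _
                _ = edist x y ^ s * (K * K * g (θ x) + K * K * g (θ y)) := by ring
            · rw [hg't y hyC, add_top, ENNReal.mul_top hpos]
              exact le_top
          · rw [hg't x hxC, top_add, ENNReal.mul_top hpos]
            exact le_top
        have hEn : ∫⁻ y in C', g' y ^ q < ∞ := by
          obtain ⟨c, hc⟩ := Pool.Agent.Y858.HS.vol_haus n
          have hC'U : θ '' C' ⊆ U := by
            rintro _ ⟨v, hv, rfl⟩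
            exact hθU v (hC'B hv)
          have hmap : (volume.restrict C').map θ' ≤
              ((c : ℝ≥0∞) * ((K : ℝ≥0) : ℝ≥0∞) ^ n) •
                (Measure.hausdorffMeasure (n : ℝ)).restrict (θ '' C') := by
            refine Measure.le_iff.2 fun A hA => ?_
            rw [Measure.map_apply hθ'm hA, Measure.restrict_apply (hθ'm hA), Measure.smul_apply,
              Measure.restrict_apply hA, smul_eq_mul]
            have hsub : θ' ⁻¹' A ∩ C' ⊆ ψ '' (A ∩ θ '' C') := by
              rintro y ⟨hyA, hyC⟩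
              refine ⟨θ y, ⟨?_, mem_image_of_mem θ hyC⟩, hψθ y (hC'B hyC)⟩
              rw [← hθ'e y (hC'B hyC)]
              exact hyA
            have hh := (hlip'.mono
              (inter_subset_right.trans hC'U : A ∩ θ '' C' ⊆ U)).hausdorffMeasure_image_le
              (d := (n : ℝ)) (Nat.cast_nonneg n)
            calc volume (θ' ⁻¹' A ∩ C') ≤ volume (ψ '' (A ∩ θ '' C')) := measure_mono hsub
              _ = c * Measure.hausdorffMeasure (n : ℝ) (ψ '' (A ∩ θ '' C')) := hc _
              _ ≤ c * (((K : ℝ≥0) : ℝ≥0∞) ^ (n : ℝ) *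
                  Measure.hausdorffMeasure (n : ℝ) (A ∩ θ '' C')) := by
                gcongr
              _ = c * ((K : ℝ≥0) : ℝ≥0∞) ^ n *
                  Measure.hausdorffMeasure (n : ℝ) (A ∩ θ '' C') := by
                rw [ENNReal.rpow_natCast, mul_assoc]
          have h1 : ∫⁻ y in C', g (θ' y) ^ q < ∞ := by
            have h2 : ∫⁻ y in C', g (θ' y) ^ q =
                ∫⁻ x, g x ^ q ∂((volume.restrict C').map θ') :=
              (lintegral_map (hgm.pow_const q) hθ'm).symm
            rw [h2]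
            refine lt_of_le_of_lt (lintegral_mono' hmap le_rfl) ?_
            rw [lintegral_smul_measure, smul_eq_mul]
            refine ENNReal.mul_lt_top ?_ hgE
            exact ENNReal.mul_lt_top ENNReal.coe_lt_top (ENNReal.pow_lt_top ENNReal.coe_lt_top)
          have h3 : ∫⁻ y in C', g' y ^ q =
              ((K : ℝ≥0∞) * (K : ℝ≥0∞)) ^ q * ∫⁻ y in C', g (θ' y) ^ q := by
            have hm2 : Measurable (fun y => g (θ' y) ^ q) := (hgm.comp hθ'm).pow_const q
            rw [← lintegral_const_mul _ hm2]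
            refine setLIntegral_congr_fun hC'm fun y hy => ?_
            rw [hg'e y hy, hθ'e y (hC'B hy), ENNReal.mul_rpow_of_nonneg _ _ hq0.le]
          rw [h3]
          exact ENNReal.mul_lt_top (ENNReal.rpow_lt_top_of_nonneg hq0.le
            (ENNReal.mul_lt_top (ENNReal.natCast_lt_top K) (ENNReal.natCast_lt_top K)).ne) h1
        refine sob_en' hn hTL h hs1 hs2 hsn hq hg'm hHaj (S := BB n ∩ θ ⁻¹' S i) hC'm
          hC'c.measure_lt_top hρ ?_ hEn
        intro a haS ha2
        rw [hC']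
        exact closedBall_subset_cthickening
          (show a ∈ (BB n ∩ θ ⁻¹' S i) ∩ closedBall (0 : E n) 2 from ⟨haS, ha2⟩) ρ
  · intro h x hx _
    rw [hTd]
    simp only
    rw [hθψ x hx]

end Pool.Agent.Q100.HK
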