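import Pool.Agent.Q100.HK.Stm
import Pool.Agent.Q100.HS.Sep

/-!
# Almost every slice of a map with small energy has a null image
-/

set_option autoImplicit false

open MeasureTheory Set Metric Filter Topology
open scoped ENNReal NNReal

noncomputable section

namespace Pool.Agent.Q100.HK

open Pool.Agent.Y485.HS Pool.Agent.Y401.SPN
open Pool.Agent.Q100.HS (netS closedBall_sub_three)

lemma vol_gen {V : Type} [NormedAddCommGroup V] [NormedSpace ℝ V] [FiniteDimensional ℝ V]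
    [MeasurableSpace V] [BorelSpace V] (μ : Measure V) [μ.IsAddHaarMeasure] (s : Set V)
    (hs : Bornology.IsBounded s) :
    μ s ≤ ENNReal.ofReal (Metric.diam s ^ (Module.finrank ℝ V)) * μ (ball (0 : V) 1) := by
  rcases s.eq_empty_or_nonempty with rfl | ⟨p, hp⟩
  · simp
  · have h1 : s ⊆ closedBall p (Metric.diam s) := fun x hx =>
      mem_closedBall.2 (dist_le_diam_of_mem hs hx hp)
    refine (measure_mono h1).trans ?_
    rw [Measure.addHaar_closedBall μ p diam_nonneg]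

/-- almost every slice of a set of small energy has a null image -/
lemma slice {n : ℕ} {V : Type} [NormedAddCommGroup V] [NormedSpace ℝ V] [FiniteDimensional ℝ V]
    [MeasurableSpace V] [BorelSpace V] (μ : Measure V) [μ.IsAddHaarMeasure] {F : E n → V}
    {e N : ℕ} (he : Module.finrank ℝ V = e) {S : Set (E n)} (hF : ContinuousOn F (BB n))
    (hE : EnV e N F S) (i : Fin n) :
    ∀ᵐ t : ℝ, μ (F '' {x | (x ∈ S ∧ x ∈ closedBall (0 : E n) 2) ∧ x i = t}) = 0 := by
  classical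
  obtain ⟨hN, hE⟩ := hE
  have hN' : (0 : ℝ) < N := by exact_mod_cast hN
  have hS3 : {x | x ∈ S ∧ x ∈ closedBall (0 : E n) 2} ⊆ closedBall (0 : E n) 3 := fun x hx =>
    closedBall_subset_closedBall (by norm_num) hx.2
  choose A hA1 hA2 hA3 using fun j : ℕ => netS n (r := (1 / 2 : ℝ) ^ (j + N)) (by positivity)
    {x | x ∈ S ∧ x ∈ closedBall (0 : E n) 2} hS3
  have hsmall : ∀ j : ℕ, (N : ℝ) * (1 / 2 : ℝ) ^ (j + N) < 1 := by
    intro j
    have h1 : (N : ℝ) < 2 ^ N := by exact_mod_cast Nat.lt_two_pow_self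
    have h2 : (1 / 2 : ℝ) ^ (j + N) ≤ (1 / 2 : ℝ) ^ N :=
      pow_le_pow_of_le_one (by norm_num) (by norm_num) (by omega)
    have h3 : (1 / 2 : ℝ) ^ N = 1 / 2 ^ N := by rw [div_pow, one_pow]
    calc (N : ℝ) * (1 / 2 : ℝ) ^ (j + N) ≤ N * (1 / 2 ^ N) := by rw [← h3]; gcongr
      _ < 2 ^ N * (1 / 2 ^ N) := by gcongr
      _ = 1 := by field_simp
  set D : ℕ → E n → ℝ := fun j a =>
    Metric.diam (F '' closedBall a ((1 / 2 : ℝ) ^ (j + N))) ^ e with hD
  have hD0 : ∀ j a, 0 ≤ D j a := fun j a => pow_nonneg diam_nonneg _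
  set f : ℕ → ℝ → ℝ≥0∞ := fun j t => ∑ a ∈ A j,
    (Icc (a i - (1 / 2 : ℝ) ^ (j + N)) (a i + (1 / 2 : ℝ) ^ (j + N))).indicator
      (fun _ => ENNReal.ofReal (D j a)) t with hf
  have hfm : ∀ j, Measurable (f j) := by
    intro j
    refine Finset.measurable_fun_sum _ fun a _ => ?_
    exact measurable_const.indicator measurableSet_Icc
  set ρ : ℝ := (1 / 2 : ℝ) ^ (1 / (N : ℝ)) with hρ
  have hρ0 : 0 ≤ ρ := by positivity
  have hρ1 : ρ < 1 := Real.rpow_lt_one (by norm_num) (by norm_num) (by positivity)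
  have hint : ∀ j, ∫⁻ t, f j t ≤ ENNReal.ofReal (2 * N * ρ ^ (j + N)) := by
    intro j
    set r : ℝ := (1 / 2 : ℝ) ^ (j + N) with hr
    have hr0 : 0 < r := by positivity
    have h1 : ∫⁻ t, f j t = ∑ a ∈ A j, ENNReal.ofReal (D j a) * ENNReal.ofReal (2 * r) := by
      simp only [hf]
      rw [lintegral_finsetSum _ fun a _ => measurable_const.indicator measurableSet_Icc]
      refine Finset.sum_congr rfl fun a _ => ?_
      rw [lintegral_indicator measurableSet_Icc, lintegral_const,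
        Measure.restrict_apply MeasurableSet.univ, univ_inter, Real.volume_Icc]
      congr 2
      ring
    have h2 : ∑ a ∈ A j, ENNReal.ofReal (D j a) * ENNReal.ofReal (2 * r)
        = ENNReal.ofReal ((∑ a ∈ A j, D j a) * (2 * r)) := by
      rw [ENNReal.ofReal_mul (Finset.sum_nonneg fun a _ => hD0 j a),
        ENNReal.ofReal_sum_of_nonneg fun a _ => hD0 j a, Finset.sum_mul]
    rw [h1, h2]
    apply ENNReal.ofReal_le_ofReal
    have h3 := hE r hr0 (hsmall j) (A j) (hA1 j) (hA2 j)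
    have h4 : r ^ (1 / (N : ℝ) - 1) * r = ρ ^ (j + N) := by
      rw [Real.rpow_sub_one hr0.ne', div_mul_cancel₀ _ hr0.ne', hρ,
        Real.rpow_pow_comm (by norm_num)]
    calc (∑ a ∈ A j, D j a) * (2 * r) ≤ (N * r ^ (1 / (N : ℝ) - 1)) * (2 * r) := by gcongr
      _ = 2 * N * (r ^ (1 / (N : ℝ) - 1) * r) := by ring
      _ = 2 * N * ρ ^ (j + N) := by rw [h4]
  have hsum : ∫⁻ t, ∑' j, f j t ≠ ∞ := by
    rw [lintegral_tsum fun j => (hfm j).aemeasurable]
    refine ne_top_of_le_ne_top ?_ (ENNReal.tsum_le_tsum hint)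
    have hs : Summable fun j : ℕ => 2 * N * ρ ^ (j + N) :=
      ((summable_geometric_of_lt_one hρ0 hρ1).comp_injective
        (add_left_injective N)).mul_left _
    exact hs.tsum_ofReal_ne_top
  have hae := ae_lt_top (Measurable.tsum hfm) hsum
  filter_upwards [hae] with t ht
  set κ := μ (ball (0 : V) 1) with hκ
  have hκt : κ ≠ ∞ := measure_ball_lt_top.ne
  have hz : Tendsto (fun j => f j t) atTop (𝓝 0) :=
    ENNReal.tendsto_atTop_zero_of_tsum_ne_top ht.ne
  have hz2 : Tendsto (fun j => f j t * κ) atTop (𝓝 0) := by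
    have := ENNReal.Tendsto.mul_const hz (b := κ) (Or.inr hκt)
    simpa using this
  refine le_antisymm (ge_of_tendsto' hz2 fun j => ?_) (zero_le)
  set r : ℝ := (1 / 2 : ℝ) ^ (j + N) with hr
  have hr1 : r ≤ 1 := pow_le_one₀ (by norm_num) (by norm_num)
  have hsub : F '' {x | (x ∈ S ∧ x ∈ closedBall (0 : E n) 2) ∧ x i = t} ⊆
      ⋃ a ∈ (A j).filter (fun a => t ∈ Icc (a i - r) (a i + r)),
        F '' closedBall a r := by
    rintro y ⟨x, ⟨hx, hxt⟩, rfl⟩
    obtain ⟨a, haA, hxa⟩ := hA3 j x hx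
    have h1 := coord x a i
    rw [hxt, abs_le] at h1
    refine mem_biUnion (x := a) ?_ ⟨x, mem_closedBall.2 hxa, rfl⟩
    rw [Finset.mem_coe, Finset.mem_filter]
    exact ⟨haA, by linarith [h1.1], by linarith [h1.2]⟩
  refine (measure_mono hsub).trans ((measure_biUnion_finset_le _ _).trans ?_)
  have hb : ∀ a ∈ A j, Bornology.IsBounded (F '' closedBall a r) := by
    intro a ha
    have hcomp : IsCompact (F '' closedBall (0 : E n) 3) :=
      (isCompact_closedBall 0 3).image_of_continuousOn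
        (hF.mono (closedBall_subset_closedBall (by norm_num)))
    exact hcomp.isBounded.subset (image_mono (closedBall_sub_three (hA1 j a ha).2 hr1))
  calc ∑ a ∈ (A j).filter (fun a => t ∈ Icc (a i - r) (a i + r)),
        μ (F '' closedBall a r)
      ≤ ∑ a ∈ (A j).filter (fun a => t ∈ Icc (a i - r) (a i + r)), ENNReal.ofReal (D j a) * κ :=
        Finset.sum_le_sum fun a ha => by
          have := vol_gen μ _ (hb a (Finset.mem_filter.1 ha).1)
          rwa [he] at this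
    _ = f j t * κ := by
        rw [← Finset.sum_mul, Finset.sum_filter]
        simp only [hf, Set.indicator_apply, ← hr]

lemma haar_pair (n : ℕ) : (volume : Measure (E n × ℝ)).IsAddHaarMeasure := by
  rw [Measure.volume_eq_prod]
  infer_instance

lemma finrank_pair (n : ℕ) : Module.finrank ℝ (E n × ℝ) = n + 1 := by
  rw [Module.finrank_prod, finrank_euclideanSpace_fin, Module.finrank_self]

/-- the levels of the functions in almost every fibre avoid the members of dense families of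
hyperplanes -/
theorem sep2_ae {n : ℕ} {ι α : Type} [Countable ι] [Countable α] {F : E n → E n}
    {f : α → E n → ℝ} {B : Set (E n)} (hF : ContinuousOn F (BB n))
    (hf : ∀ a, ContinuousOn (f a) (BB n)) (hB : B ⊆ closedBall (0 : E n) 2)
    {S : ι → Set (E n)} (hBS : B ⊆ ⋃ i, S i)
    (hE : ∀ a i, ∃ N : ℕ, EnV (n + 1) N (fun x => (F x, f a x)) (S i)) :
    ∀ᵐ y : E n, ∃ (Sl : Fin n → Set ℝ) (D : Set ℝ), (∀ l, Dense (Sl l)) ∧ Dense D ∧
      ∀ t ∈ D, ∀ a, ∀ x ∈ B, F x = y → f a x = t → ∀ l, x l ∉ Sl l := by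
  classical
  haveI := haar_pair n
  choose N hN using hE
  have hFf : ∀ a, ContinuousOn (fun x => (F x, f a x)) (BB n) := fun a => hF.prodMk (hf a)
  have h1 : ∀ l : Fin n, ∃ T : Set ℝ, T.Countable ∧ Dense T ∧ ∀ t ∈ T, ∀ a,
      volume ((fun x => (F x, f a x)) '' {x | x ∈ B ∧ x l = t}) = 0 := by
    intro l
    have hall : ∀ᵐ t : ℝ, ∀ a : α, ∀ j : ι, (volume : Measure (E n × ℝ))
        ((fun x => (F x, f a x)) '' {x | (x ∈ S j ∧ x ∈ closedBall (0 : E n) 2) ∧ x l = t}) = 0 :=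
      ae_all_iff.2 fun a => ae_all_iff.2 fun j =>
        slice volume (finrank_pair n) (hFf a) (hN a j) l
    have hd := Measure.dense_of_ae hall
    obtain ⟨T, hT1, hT2, hT3⟩ := hd.exists_countable_dense_subset
    refine ⟨T, hT2, hT3, fun t ht a => ?_⟩
    have h2 := hT1 ht
    refine measure_mono_null (t := ⋃ j : ι,
      (fun x => (F x, f a x)) '' {x | (x ∈ S j ∧ x ∈ closedBall (0 : E n) 2) ∧ x l = t}) ?_
      (measure_iUnion_null fun j => h2 a j)
    rintro y ⟨x, ⟨hxB, hxt⟩, rfl⟩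
    obtain ⟨j, hj⟩ := mem_iUnion.1 (hBS hxB)
    exact mem_iUnion.2 ⟨j, x, ⟨⟨hj, hB hxB⟩, hxt⟩, rfl⟩
  choose T hT1 hT2 hT3 using h1
  have h2 : ∀ᵐ q : E n × ℝ, ∀ a : α, ∀ l : Fin n, ∀ s ∈ T l,
      q ∉ (fun x => (F x, f a x)) '' {x | x ∈ B ∧ x l = s} := by
    rw [ae_all_iff]
    intro a
    rw [ae_all_iff]
    intro l
    rw [ae_ball_iff (hT1 l)]
    intro s hs
    exact measure_eq_zero_iff_ae_notMem.1 (hT3 l s hs a)
  have h3 : ∀ᵐ y : E n, ∀ᵐ t : ℝ, ∀ a : α, ∀ l : Fin n, ∀ s ∈ T l,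
      (y, t) ∉ (fun x => (F x, f a x)) '' {x | x ∈ B ∧ x l = s} :=
    Measure.ae_ae_of_ae_prod h2
  filter_upwards [h3] with y hy
  refine ⟨T, _, hT2, Measure.dense_of_ae hy, fun t ht a x hx hxy hxt l hl => ?_⟩
  exact ht a l (x l) hl ⟨x, ⟨hx, rfl⟩, by
    show (F x, f a x) = (y, t)
    rw [hxy, hxt]⟩

end Pool.Agent.Q100.HK
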