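import Pool.Agent.Y485.HS.Stm

/-!
# The Hilbert-Smith conjecture for homeomorphisms of sigma-finite small energy: definitions

The set-up (`E n`, `BB n`, `LocAct`, `ProP`, `BiLip`, `Reg`) is that of project HS of helper485.
-/

set_option autoImplicit false

open MeasureTheory Set Metric Filter Topology
open scoped ENNReal NNReal

noncomputable section

namespace Pool.Agent.Q100.HK

open Pool.Agent.Y485.HS

/-! ### maps of the ball -/

/-- the discrete energy with exponent `e` of the map `u` along the set `S` -/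
def EnV {n : ℕ} {V : Type} [PseudoMetricSpace V] (e N : ℕ) (u : E n → V) (S : Set (E n)) :
    Prop :=
  0 < N ∧ ∀ r : ℝ, 0 < r → N * r < 1 → ∀ A : Finset (E n),
    (∀ a ∈ A, a ∈ S ∧ a ∈ closedBall (0 : E n) 2) →
    (∀ a ∈ A, ∀ b ∈ A, a ≠ b → r ≤ dist a b) →
    ∑ a ∈ A, Metric.diam (u '' closedBall a r) ^ e ≤ N * r ^ (1 / (N : ℝ) - 1)

/-- countably many closed sets of small energy -/
def SEn {n : ℕ} (u : E n → E n) : Prop :=
  ∃ S : ℕ → Set (E n), (∀ i, IsClosed (S i)) ∧ closedBall (0 : E n) 2 ⊆ ⋃ i, S i ∧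
    ∀ i, ∃ N : ℕ, EnV (n + 1) N u (S i)

/-- the map `u` is controlled at the point `x` -/
def CtE {n : ℕ} (N : ℕ) (u : E n → E n) (x : E n) : Prop :=
  ∀ y ∈ BB n, ∀ z ∈ BB n, N * dist y x ≤ dist z x → N * dist z x < 1 →
    dist z x * dist (u y) (u x) ^ (n + 1) ≤
      N * dist z x ^ (1 / (N : ℝ)) * (dist z x ^ n + dist (u z) (u x) ^ n)

/-- an open subgroup acts trivially near `x` -/
def Triv {n : ℕ} {H : Type} [Group H] [TopologicalSpace H] (T : H → E n → E n) (x : E n) :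
    Prop :=
  ∃ K : Subgroup H, IsOpen (K : Set H) ∧ ∀ᶠ z in 𝓝 x, ∀ k ∈ K, T k z = z

/-! ### maps of a metric space -/

/-- The map `f` is controlled at the point `x` with the constant `N`. -/
def Ctl (n N : ℕ) {X : Type} [MetricSpace X] (f : X → X) (x : X) : Prop :=
  ∀ y z : X, N * dist y x ≤ dist z x → N * dist z x < 1 →
    dist z x * dist (f y) (f x) ^ (n + 1) ≤
      N * dist z x ^ (1 / (N : ℝ)) * (dist z x ^ n + dist (f z) (f x) ^ n)

/-- The map `f` has small energy along the set `S`. -/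
def Ene (n : ℕ) {X : Type} [MetricSpace X] (f : X → X) (S : Set X) : Prop :=
  ∀ C ⊆ Reg n X, IsCompact C → ∀ c : ℕ, ∃ N : ℕ, 0 < N ∧ ∀ r : ℝ, 0 < r → N * r < 1 →
    ∀ A : Finset X, (∀ a ∈ A, a ∈ S ∧ a ∈ C) → (∀ a ∈ A, ∀ b ∈ A, a ≠ b → r ≤ dist a b) →
      ∑ a ∈ A, Metric.diam (f '' (closedBall a (c * r) ∩ C)) ^ (n + 1) ≤
        N * r ^ (1 / (N : ℝ) - 1)

/-- Near the set `S` the map `f` has gradients of order `s` with integrable `q`-th powers, where
`n - 1 < s q` and `n - 1 < s (n + 1)`. -/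
def Sob (n : ℕ) {X : Type} [MetricSpace X] [MeasurableSpace X] [BorelSpace X] (f : X → X)
    (S : Set X) : Prop :=
  ∃ U : Set X, IsOpen U ∧ S ∩ Reg n X ⊆ U ∧ ∃ s q : ℝ, 0 < s ∧ s ≤ 1 ∧
    (n : ℝ) - 1 < s * (n + 1) ∧ (n : ℝ) - 1 < s * q ∧ ∀ C ⊆ U ∩ Reg n X, IsCompact C → ∃ g : X → ℝ≥0∞, Measurable g ∧
      (∀ a ∈ C, ∀ b ∈ C, edist (f a) (f b) ≤ edist a b ^ s * (g a + g b)) ∧
      ∫⁻ a in C, g a ^ q ∂(Measure.hausdorffMeasure (n : ℝ)) < ∞

/-- The class of the main theorem: the regular part is covered by countably many closed sets, along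
each of which the map is uniformly controlled, has small energy or has gradients. -/
def Cls (n : ℕ) {X : Type} [MetricSpace X] [MeasurableSpace X] [BorelSpace X] (f : X → X) :
    Prop :=
  ∃ S : ℕ → Set X, (∀ i, IsClosed (S i)) ∧ Reg n X ⊆ ⋃ i, S i ∧
    ∀ i, (∃ N : ℕ, 0 < N ∧ ∀ x ∈ S i, Ctl n N f x) ∨ Ene n f (S i) ∨ Sob n f (S i)

end Pool.Agent.Q100.HK
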