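import Pool.Agent.Q100.HK.Deg2
import Pool.Agent.Q100.HK.Alg

/-!
# A fibre of a map close to the identity is not the union of two cyclically permuted families
-/

set_option autoImplicit false

open MeasureTheory Set Metric Filter Topology
open scoped ENNReal NNReal

noncomputable section

namespace Pool.Agent.Q100.HK

open Pool.Agent.Y485.HS Pool.Agent.Y489.SP

/-- the data -/
structure Dat (n p : ℕ) where
  F : E n → E n
  F0 : E n → E n
  u : E n → ℝ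
  τ : ℕ → E n → E n
  y : E n
  NA : ZMod p → Set (E n)
  NB : ZMod p → Set (E n)
  t1 : ℝ
  tm : ℝ
  t2 : ℝ
  δ : ℝ

/-- the assumptions on the data -/
structure Dat.Good {n p : ℕ} (D : Dat n p) : Prop where
  y1 : ‖D.y‖ < 1
  τc : ∀ k, ContinuousOn (D.τ k) (BB n)
  τd : ∀ k, ∀ x ∈ BB n, dist (D.τ k x) x ≤ 1 / 4
  τ0 : ∀ x ∈ BB n, D.τ 0 x = x
  τs : ∀ k, ∀ x ∈ closedBall (0 : E n) 3, D.τ k (D.τ 1 x) = D.τ (k + 1) x
  τe : ∀ ε : ℝ, 0 < ε → ∃ K : ℕ, ∀ x ∈ closedBall (0 : E n) 3, dist (D.τ (p ^ (K + 1)) x) x < ε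
  uc : ContinuousOn D.u (BB n)
  uτ : ∀ k, ∀ x ∈ closedBall (0 : E n) (11 / 4), D.u (D.τ k x) = D.u x
  Fτ : ∀ k, ∀ x ∈ closedBall (0 : E n) (11 / 4), D.F (D.τ k x) = D.F x
  F0s : ContDiff ℝ 1 D.F0
  F0o : ∀ x, 6 ≤ ‖x‖ → D.F0 x = x
  F0d : ∀ x, dist (D.F0 x) x ≤ 1 / 2
  F0F : ∀ x ∈ closedBall (0 : E n) 3, dist (D.F0 x) (D.F x) ≤ D.δ
  av : ∀ x ∈ closedBall (0 : E n) 3, (D.u x = D.t1 ∨ D.u x = D.tm ∨ D.u x = D.t2) → D.F0 x ≠ D.y
  l1 : D.t1 < D.tm
  l2 : D.tm < D.t2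
  Ao : ∀ i, IsOpen (D.NA i)
  Bo : ∀ i, IsOpen (D.NB i)
  A2 : ∀ i, D.NA i ⊆ ball 0 2
  B2 : ∀ i, D.NB i ⊆ ball 0 2
  Ad : ∀ i j, i ≠ j → Disjoint (D.NA i) (D.NA j)
  Bd : ∀ i j, i ≠ j → Disjoint (D.NB i) (D.NB j)
  Az : ∀ x ∈ closedBall (0 : E n) (5 / 2), dist (D.F x) D.y ≤ D.δ → D.u x ≤ D.t2 → ∃ i, x ∈ D.NA i
  Bz : ∀ x ∈ closedBall (0 : E n) (5 / 2), dist (D.F x) D.y ≤ D.δ → D.t1 ≤ D.u x → ∃ i, x ∈ D.NB i
  Aτ : ∀ x ∈ closedBall (0 : E n) (5 / 2), dist (D.F x) D.y ≤ D.δ → D.u x ≤ D.t2 → ∀ i,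
    (x ∈ D.NA i ↔ D.τ 1 x ∈ D.NA (i + 1))
  Bτ : ∀ x ∈ closedBall (0 : E n) (5 / 2), dist (D.F x) D.y ≤ D.δ → D.t1 ≤ D.u x → ∀ i,
    (x ∈ D.NB i ↔ D.τ 1 x ∈ D.NB (i + 1))

variable {n p : ℕ} (D : Dat n p)

/-- admissible maps -/
structure Gd (G : E n → E n) : Prop where
  adw : AdW G
  near : ∀ x ∈ closedBall (0 : E n) (5 / 2), dist (G x) (D.F x) ≤ D.δ
  av : ∀ x ∈ closedBall (0 : E n) (5 / 2), (D.u x = D.t1 ∨ D.u x = D.tm ∨ D.u x = D.t2) →
    G x ≠ D.y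

/-- strongly admissible maps -/
structure GdS (G : E n → E n) : Prop where
  ads : AdS G
  near : ∀ x ∈ closedBall (0 : E n) (11 / 4), dist (G x) (D.F x) ≤ D.δ
  av : ∀ x ∈ closedBall (0 : E n) (11 / 4), (D.u x = D.t1 ∨ D.u x = D.tm ∨ D.u x = D.t2) →
    G x ≠ D.y

def RA (i : ZMod p) (a : ℝ) : Set (E n) := {x | x ∈ D.NA i ∧ D.u x < a}
def RB (i : ZMod p) (a : ℝ) : Set (E n) := {x | x ∈ D.NB i ∧ a < D.u x}
def RC (i j : ZMod p) (a b : ℝ) : Set (E n) :=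
  {x | (x ∈ D.NA i ∧ x ∈ D.NB j) ∧ a < D.u x ∧ D.u x < b}

variable {D}

lemma cb {a b : ℝ} (h : a ≤ b) : closedBall (0 : E n) a ⊆ closedBall 0 b :=
  closedBall_subset_closedBall h

lemma move {τ : E n → E n} (hτd : ∀ x ∈ BB n, dist (τ x) x ≤ 1 / 4) {a : ℝ} (ha : a ≤ 4)
    {x : E n} (hx : x ∈ closedBall (0 : E n) a) : τ x ∈ closedBall (0 : E n) (a + 1 / 4) := by
  have h1 := hτd x (closedBall_subset_closedBall ha hx)
  have h2 := dist_triangle (τ x) x 0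
  rw [mem_closedBall] at hx ⊢
  linarith

lemma disp_of_adW {G : E n → E n} (h : AdW G) {x : E n}
    (hx : x ∈ closedBall (0 : E n) (11 / 4)) : dist (G x) x ≤ 3 / 2 := by
  refine le_of_forall_pos_le_add fun ε hε => ?_
  obtain ⟨G0, h1, h2⟩ := h.2 ε hε
  have h3 := h1.disp x
  have h4 := h2 x hx
  have h5 := dist_triangle_left (G x) x (G0 x)
  linarith

lemma zero_mem {y : E n} (hy : ‖y‖ < 1) {G : E n → E n} (h : AdW G) {x : E n}
    (hx : x ∈ closedBall (0 : E n) (11 / 4)) (hxy : G x = y) :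
    x ∈ closedBall (0 : E n) (5 / 2) := by
  have h1 := disp_of_adW h hx
  rw [hxy] at h1
  have h2 := dist_triangle_left x 0 y
  have h3 : dist y 0 = ‖y‖ := dist_zero_right y
  rw [mem_closedBall]
  linarith

lemma GdS.gd {G : E n → E n} (h : GdS D G) : Gd D G :=
  ⟨h.ads.adW, fun x hx => h.near x (cb (by norm_num) hx), fun x hx => h.av x (cb (by norm_num) hx)⟩

lemma GdS.comp (hD : D.Good) {G : E n → E n} (h : GdS D G) : Gd D (fun x => G (D.τ 1 x)) := by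
  have hm : ∀ x ∈ closedBall (0 : E n) (5 / 2), D.τ 1 x ∈ closedBall (0 : E n) (11 / 4) := by
    intro x hx
    have := move (hD.τd 1) (by norm_num) hx
    norm_num at this
    exact mem_closedBall.2 (by simpa using this)
  refine ⟨h.ads.comp (hD.τc 1) (hD.τd 1), fun x hx => ?_, fun x hx hl => ?_⟩
  · have h1 := h.near _ (hm x hx)
    rwa [hD.Fτ 1 x (cb (by norm_num) hx)] at h1
  · refine h.av _ (hm x hx) ?_
    rw [hD.uτ 1 x (cb (by norm_num) hx)]
    exact hl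

/-! ### the regions -/

lemma RA_open (hD : D.Good) (i : ZMod p) (a : ℝ) : IsOpen (RA D i a) := by
  have h1 : ContinuousOn D.u (D.NA i) := hD.uc.mono ((hD.A2 i).trans
    (ball_subset_closedBall.trans (cb (by norm_num))))
  exact h1.isOpen_inter_preimage (hD.Ao i) isOpen_Iio

lemma RB_open (hD : D.Good) (i : ZMod p) (a : ℝ) : IsOpen (RB D i a) := by
  have h1 : ContinuousOn D.u (D.NB i) := hD.uc.mono ((hD.B2 i).trans
    (ball_subset_closedBall.trans (cb (by norm_num))))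
  exact h1.isOpen_inter_preimage (hD.Bo i) isOpen_Ioi

lemma RC_eq (i j : ZMod p) (a b : ℝ) : RC D i j a b = RA D i b ∩ RB D j a := by
  ext x
  simp only [RC, RA, RB, mem_ofPred_eq, mem_inter_iff]
  tauto

lemma RC_open (hD : D.Good) (i j : ZMod p) (a b : ℝ) : IsOpen (RC D i j a b) := by
  rw [RC_eq]
  exact (RA_open hD i b).inter (RB_open hD j a)

lemma RA_sub (hD : D.Good) (i : ZMod p) (a : ℝ) : RA D i a ⊆ ball 0 2 := fun _ hx => hD.A2 i hx.1
lemma RB_sub (hD : D.Good) (i : ZMod p) (a : ℝ) : RB D i a ⊆ ball 0 2 := fun _ hx => hD.B2 i hx.1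
lemma RC_sub (hD : D.Good) (i j : ZMod p) (a b : ℝ) : RC D i j a b ⊆ ball 0 2 := fun _ hx =>
  hD.A2 i hx.1.1

lemma cl2 {U : Set (E n)} (h : U ⊆ ball 0 2) : closure U ⊆ closedBall (0 : E n) 2 :=
  closure_minimal (h.trans ball_subset_closedBall) isClosed_closedBall

lemma cl_u_le (hD : D.Good) {U : Set (E n)} {a : ℝ} (h2 : U ⊆ ball 0 2)
    (h : ∀ x ∈ U, D.u x ≤ a) : ∀ x ∈ closure U, D.u x ≤ a := by
  have h1 : IsClosed (closedBall (0 : E n) 2 ∩ D.u ⁻¹' Iic a) :=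
    (hD.uc.mono (cb (by norm_num))).preimage_isClosed_of_isClosed isClosed_closedBall isClosed_Iic
  have h3 : U ⊆ closedBall (0 : E n) 2 ∩ D.u ⁻¹' Iic a := fun x hx =>
    ⟨ball_subset_closedBall (h2 hx), h x hx⟩
  exact fun x hx => (closure_minimal h3 h1 hx).2

lemma cl_u_ge (hD : D.Good) {U : Set (E n)} {a : ℝ} (h2 : U ⊆ ball 0 2)
    (h : ∀ x ∈ U, a ≤ D.u x) : ∀ x ∈ closure U, a ≤ D.u x := by
  have h1 : IsClosed (closedBall (0 : E n) 2 ∩ D.u ⁻¹' Ici a) :=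
    (hD.uc.mono (cb (by norm_num))).preimage_isClosed_of_isClosed isClosed_closedBall isClosed_Ici
  have h3 : U ⊆ closedBall (0 : E n) 2 ∩ D.u ⁻¹' Ici a := fun x hx =>
    ⟨ball_subset_closedBall (h2 hx), h x hx⟩
  exact fun x hx => (closure_minimal h3 h1 hx).2

lemma locA (hD : D.Good) {i : ZMod p} {a : ℝ} (ha : a ≤ D.t2) {x : E n}
    (hx : x ∈ closure (RA D i a)) (hF : dist (D.F x) D.y ≤ D.δ) (hu : D.u x ≠ a) :
    x ∈ RA D i a := by
  have h2 := cl2 (RA_sub hD i a) hx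
  have h3 : D.u x ≤ a := cl_u_le hD (RA_sub hD i a) (fun z hz => hz.2.le) x hx
  obtain ⟨j, hj⟩ := hD.Az x (cb (by norm_num) h2) hF (h3.trans ha)
  have h4 : x ∈ closure (D.NA i) := closure_mono (fun z hz => hz.1) hx
  have h5 : i = j := by
    by_contra hij
    exact Set.disjoint_left.1 ((hD.Ad i j hij).closure_left (hD.Ao j)) h4 hj
  rw [← h5] at hj
  exact ⟨hj, lt_of_le_of_ne h3 hu⟩

lemma locB (hD : D.Good) {i : ZMod p} {a : ℝ} (ha : D.t1 ≤ a) {x : E n}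
    (hx : x ∈ closure (RB D i a)) (hF : dist (D.F x) D.y ≤ D.δ) (hu : D.u x ≠ a) :
    x ∈ RB D i a := by
  have h2 := cl2 (RB_sub hD i a) hx
  have h3 : a ≤ D.u x := cl_u_ge hD (RB_sub hD i a) (fun z hz => hz.2.le) x hx
  obtain ⟨j, hj⟩ := hD.Bz x (cb (by norm_num) h2) hF (ha.trans h3)
  have h4 : x ∈ closure (D.NB i) := closure_mono (fun z hz => hz.1) hx
  have h5 : i = j := by
    by_contra hij
    exact Set.disjoint_left.1 ((hD.Bd i j hij).closure_left (hD.Bo j)) h4 hj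
  rw [← h5] at hj
  exact ⟨hj, lt_of_le_of_ne h3 hu.symm⟩

lemma locC (hD : D.Good) {i j : ZMod p} {a b : ℝ} (ha : D.t1 ≤ a) (hb : b ≤ D.t2) {x : E n}
    (hx : x ∈ closure (RC D i j a b)) (hF : dist (D.F x) D.y ≤ D.δ) (hu : D.u x ≠ a)
    (hu' : D.u x ≠ b) : x ∈ RC D i j a b := by
  rw [RC_eq] at hx ⊢
  exact ⟨locA hD hb (closure_mono inter_subset_left hx) hF hu',
    locB hD ha (closure_mono inter_subset_right hx) hF hu⟩

/-! ### homotopy invariance -/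

lemma near_line {G G' : E n → E n} (hG : Gd D G) (hG' : Gd D G') {x : E n}
    (hx : x ∈ closedBall (0 : E n) (5 / 2)) {t : ℝ} (ht : t ∈ Icc (0 : ℝ) 1) :
    dist (G x + t • (G' x - G x)) (D.F x) ≤ D.δ := by
  have h5 := hG.near x hx
  have h6 := hG'.near x hx
  rw [dist_eq_norm] at h5 h6 ⊢
  have h8 : G x + t • (G' x - G x) - D.F x = (1 - t) • (G x - D.F x) + t • (G' x - D.F x) := by
    module
  rw [h8]
  calc ‖(1 - t) • (G x - D.F x) + t • (G' x - D.F x)‖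
      ≤ ‖(1 - t) • (G x - D.F x)‖ + ‖t • (G' x - D.F x)‖ := norm_add_le _ _
    _ = (1 - t) * ‖G x - D.F x‖ + t * ‖G' x - D.F x‖ := by
        rw [norm_smul, norm_smul, Real.norm_of_nonneg (by linarith [ht.2]),
          Real.norm_of_nonneg ht.1]
    _ ≤ (1 - t) * D.δ + t * D.δ :=
        add_le_add (mul_le_mul_of_nonneg_left h5 (by linarith [ht.2]))
          (mul_le_mul_of_nonneg_left h6 ht.1)
    _ = D.δ := by ring

/-- the straight homotopy avoids the value at the points of the level `a` -/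
def LineAv (D : Dat n p) (G G' : E n → E n) (a : ℝ) : Prop :=
  ∀ x ∈ closedBall (0 : E n) 2, D.u x = a → ∀ t ∈ Icc (0 : ℝ) 1, G x + t • (G' x - G x) ≠ D.y

lemma lineAv_of_eq {G G' : E n → E n} (hG : Gd D G) {a : ℝ}
    (ha : a = D.t1 ∨ a = D.tm ∨ a = D.t2)
    (h : ∀ x ∈ closedBall (0 : E n) 2, D.u x = a → G x = G' x) : LineAv D G G' a := by
  intro x hx hux t _ hxy
  rw [← h x hx hux, sub_self, smul_zero, add_zero] at hxy
  refine hG.av x (cb (by norm_num) hx) ?_ hxy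
  rw [hux]
  exact ha

lemma dist_of_line {G G' : E n → E n} (hG : Gd D G) (hG' : Gd D G') {x : E n}
    (hx : x ∈ closedBall (0 : E n) 2) {t : ℝ} (ht : t ∈ Icc (0 : ℝ) 1)
    (hxy : G x + t • (G' x - G x) = D.y) : dist (D.F x) D.y ≤ D.δ := by
  have h1 := near_line hG hG' (cb (by norm_num) hx) ht
  rwa [hxy, dist_comm] at h1

lemma bdA (hD : D.Good) {G G' : E n → E n} (hG : Gd D G) (hG' : Gd D G') {i : ZMod p} {a : ℝ}
    (ha : a ≤ D.t2) (h : LineAv D G G' a) : dg D.y G (RA D i a) = dg D.y G' (RA D i a) := by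
  refine dg_hom hG.adw hG'.adw (RA_open hD i a) (RA_sub hD i a) fun x hx t ht hxy => ?_
  have h2 := cl2 (RA_sub hD i a) hx
  exact locA hD ha hx (dist_of_line hG hG' h2 ht hxy) fun hu => h x h2 hu t ht hxy

lemma bdB (hD : D.Good) {G G' : E n → E n} (hG : Gd D G) (hG' : Gd D G') {i : ZMod p} {a : ℝ}
    (ha : D.t1 ≤ a) (h : LineAv D G G' a) : dg D.y G (RB D i a) = dg D.y G' (RB D i a) := by
  refine dg_hom hG.adw hG'.adw (RB_open hD i a) (RB_sub hD i a) fun x hx t ht hxy => ?_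
  have h2 := cl2 (RB_sub hD i a) hx
  exact locB hD ha hx (dist_of_line hG hG' h2 ht hxy) fun hu => h x h2 hu t ht hxy

lemma bdC (hD : D.Good) {G G' : E n → E n} (hG : Gd D G) (hG' : Gd D G') {i j : ZMod p}
    {a b : ℝ} (ha : D.t1 ≤ a) (hb : b ≤ D.t2) (h : LineAv D G G' a) (h' : LineAv D G G' b) :
    dg D.y G (RC D i j a b) = dg D.y G' (RC D i j a b) := by
  refine dg_hom hG.adw hG'.adw (RC_open hD i j a b) (RC_sub hD i j a b) fun x hx t ht hxy => ?_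
  have h2 := cl2 (RC_sub hD i j a b) hx
  exact locC hD ha hb hx (dist_of_line hG hG' h2 ht hxy) (fun hu => h x h2 hu t ht hxy)
    fun hu => h' x h2 hu t ht hxy

lemma dist_of_zero {G : E n → E n} (hG : Gd D G) {x : E n}
    (hx : x ∈ closedBall (0 : E n) (5 / 2)) (hxy : G x = D.y) : dist (D.F x) D.y ≤ D.δ := by
  have h1 := hG.near x hx
  rwa [hxy, dist_comm] at h1

lemma okA (hD : D.Good) {G : E n → E n} (hG : Gd D G) {i : ZMod p} {a : ℝ}
    (ha : a = D.t1 ∨ a = D.tm ∨ a = D.t2) : Ok D.y G (RA D i a) := by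
  have hl1 := hD.l1
  have hl2 := hD.l2
  refine ⟨RA_open hD i a, RA_sub hD i a, fun x hx hxy => ?_⟩
  have h2 := cl2 (RA_sub hD i a) hx
  refine locA hD (by rcases ha with h | h | h <;> linarith) hx
    (dist_of_zero hG (cb (by norm_num) h2) hxy) fun hu => ?_
  exact hG.av x (cb (by norm_num) h2) (by rw [hu]; exact ha) hxy

lemma okB (hD : D.Good) {G : E n → E n} (hG : Gd D G) {i : ZMod p} {a : ℝ}
    (ha : a = D.t1 ∨ a = D.tm ∨ a = D.t2) : Ok D.y G (RB D i a) := by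
  have hl1 := hD.l1
  have hl2 := hD.l2
  refine ⟨RB_open hD i a, RB_sub hD i a, fun x hx hxy => ?_⟩
  have h2 := cl2 (RB_sub hD i a) hx
  refine locB hD (by rcases ha with h | h | h <;> linarith) hx
    (dist_of_zero hG (cb (by norm_num) h2) hxy) fun hu => ?_
  exact hG.av x (cb (by norm_num) h2) (by rw [hu]; exact ha) hxy

lemma okC (hD : D.Good) {G : E n → E n} (hG : Gd D G) {i j : ZMod p} {a b : ℝ}
    (ha : a = D.t1 ∨ a = D.tm ∨ a = D.t2) (hb : b = D.t1 ∨ b = D.tm ∨ b = D.t2) :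
    Ok D.y G (RC D i j a b) := by
  have hl1 := hD.l1
  have hl2 := hD.l2
  refine ⟨RC_open hD i j a b, RC_sub hD i j a b, fun x hx hxy => ?_⟩
  have h2 := cl2 (RC_sub hD i j a b) hx
  refine locC hD (by rcases ha with h | h | h <;> linarith)
    (by rcases hb with h | h | h <;> linarith) hx
    (dist_of_zero hG (cb (by norm_num) h2) hxy) (fun hu => ?_) fun hu => ?_
  · exact hG.av x (cb (by norm_num) h2) (by rw [hu]; exact ha) hxy
  · exact hG.av x (cb (by norm_num) h2) (by rw [hu]; exact hb) hxy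

/-! ### decompositions -/

variable [NeZero p]

lemma decA (hD : D.Good) {G : E n → E n} (hG : Gd D G) (i : ZMod p) :
    dg D.y G (RA D i D.t2) = dg D.y G (RA D i D.t1) + ∑ j, dg D.y G (RC D i j D.t1 D.t2) := by
  have hl1 := hD.l1
  have hl2 := hD.l2
  rw [dg_add hG.adw (ι := Option (ZMod p))
    (V := fun o => Option.elim o (RA D i D.t1) fun j => RC D i j D.t1 D.t2)
    (okA hD hG (Or.inr (Or.inr rfl)))]
  · rw [Fintype.sum_option]
    rfl
  · rintro (_ | j)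
    · exact RA_open hD i D.t1
    · exact RC_open hD i j D.t1 D.t2
  · rintro (_ | j)
    · exact fun x hx => ⟨hx.1, lt_trans hx.2 (by linarith)⟩
    · exact fun x hx => ⟨hx.1.1, hx.2.2⟩
  · rintro (_ | j) (_ | k) hjk
    · exact absurd rfl hjk
    · exact Set.disjoint_left.2 fun x h1 h2 => lt_asymm h1.2 h2.2.1
    · exact Set.disjoint_left.2 fun x h1 h2 => lt_asymm h2.2 h1.2.1
    · refine Set.disjoint_left.2 fun x h1 h2 => ?_
      exact Set.disjoint_left.1 (hD.Bd j k fun h => hjk (by rw [h])) h1.1.2 h2.1.2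
  · intro x hx hxy
    have h2 : x ∈ closedBall (0 : E n) (5 / 2) :=
      cb (by norm_num) (ball_subset_closedBall (hD.A2 i hx.1))
    rcases lt_trichotomy (D.u x) D.t1 with h | h | h
    · exact ⟨none, hx.1, h⟩
    · exact absurd hxy (hG.av x h2 (Or.inl h))
    · obtain ⟨j, hj⟩ := hD.Bz x h2 (dist_of_zero hG h2 hxy) h.le
      exact ⟨some j, ⟨hx.1, hj⟩, h, hx.2⟩

lemma decB (hD : D.Good) {G : E n → E n} (hG : Gd D G) (j : ZMod p) :
    dg D.y G (RB D j D.t1) = dg D.y G (RB D j D.t2) + ∑ i, dg D.y G (RC D i j D.t1 D.t2) := by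
  have hl1 := hD.l1
  have hl2 := hD.l2
  rw [dg_add hG.adw (ι := Option (ZMod p))
    (V := fun o => Option.elim o (RB D j D.t2) fun i => RC D i j D.t1 D.t2)
    (okB hD hG (Or.inl rfl))]
  · rw [Fintype.sum_option]
    rfl
  · rintro (_ | i)
    · exact RB_open hD j D.t2
    · exact RC_open hD i j D.t1 D.t2
  · rintro (_ | i)
    · exact fun x hx => ⟨hx.1, lt_trans (by linarith) hx.2⟩
    · exact fun x hx => ⟨hx.1.2, hx.2.1⟩
  · rintro (_ | i) (_ | k) hjk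
    · exact absurd rfl hjk
    · exact Set.disjoint_left.2 fun x h1 h2 => lt_asymm h1.2 h2.2.2
    · exact Set.disjoint_left.2 fun x h1 h2 => lt_asymm h2.2 h1.2.2
    · refine Set.disjoint_left.2 fun x h1 h2 => ?_
      exact Set.disjoint_left.1 (hD.Ad i k fun h => hjk (by rw [h])) h1.1.1 h2.1.1
  · intro x hx hxy
    have h2 : x ∈ closedBall (0 : E n) (5 / 2) :=
      cb (by norm_num) (ball_subset_closedBall (hD.B2 j hx.1))
    rcases lt_trichotomy (D.u x) D.t2 with h | h | h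
    · obtain ⟨i, hi⟩ := hD.Az x h2 (dist_of_zero hG h2 hxy) h.le
      exact ⟨some i, ⟨hi, hx.1⟩, hx.2, h⟩
    · exact absurd hxy (hG.av x h2 (Or.inr (Or.inr h)))
    · exact ⟨none, hx.1, h⟩

lemma decC (hD : D.Good) {G : E n → E n} (hG : Gd D G) (i j : ZMod p) :
    dg D.y G (RC D i j D.t1 D.t2) =
      dg D.y G (RC D i j D.t1 D.tm) + dg D.y G (RC D i j D.tm D.t2) := by
  have hl1 := hD.l1
  have hl2 := hD.l2
  rw [dg_add hG.adw (ι := Option Unit)
    (V := fun o => Option.elim o (RC D i j D.t1 D.tm) fun _ => RC D i j D.tm D.t2)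
    (okC hD hG (Or.inl rfl) (Or.inr (Or.inr rfl)))]
  · rw [Fintype.sum_option]
    simp
  · rintro (_ | _)
    · exact RC_open hD i j _ _
    · exact RC_open hD i j _ _
  · rintro (_ | _)
    · exact fun x hx => ⟨hx.1, hx.2.1, lt_trans hx.2.2 hl2⟩
    · exact fun x hx => ⟨hx.1, lt_trans hl1 hx.2.1, hx.2.2⟩
  · rintro (_ | _) (_ | _) hjk
    · exact absurd rfl hjk
    · exact Set.disjoint_left.2 fun x h1 h2 => lt_asymm h1.2.2 h2.2.1
    · exact Set.disjoint_left.2 fun x h1 h2 => lt_asymm h2.2.2 h1.2.1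
    · exact absurd rfl hjk
  · intro x hx hxy
    have h2 : x ∈ closedBall (0 : E n) (5 / 2) :=
      cb (by norm_num) (ball_subset_closedBall (hD.A2 i hx.1.1))
    rcases lt_trichotomy (D.u x) D.tm with h | h | h
    · exact ⟨none, hx.1, hx.2.1, h⟩
    · exact absurd hxy (hG.av x h2 (Or.inr (Or.inl h)))
    · exact ⟨some (), hx.1, h, hx.2.2⟩

lemma total (hD : D.Good) {G : E n → E n} (hG : Gd D G) :
    ∑ i, dg D.y G (RA D i D.t2) + ∑ j, dg D.y G (RB D j D.t2) = 1 := by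
  have hl1 := hD.l1
  have hl2 := hD.l2
  have h := dg_one hD.y1 hG.adw (ι := ZMod p ⊕ ZMod p)
    (V := fun o => Sum.elim (fun i => RA D i D.t2) (fun j => RB D j D.t2) o) ?_ ?_ ?_ ?_
  · rw [Fintype.sum_sum_type] at h
    exact h
  · rintro (i | j)
    · exact RA_open hD i _
    · exact RB_open hD j _
  · rintro (i | j)
    · exact RA_sub hD i _
    · exact RB_sub hD j _
  · rintro (i | j) (k | l) hne
    · exact Set.disjoint_left.2 fun x h1 h2 =>
        Set.disjoint_left.1 (hD.Ad i k fun h => hne (by rw [h])) h1.1 h2.1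
    · exact Set.disjoint_left.2 fun x h1 h2 => lt_asymm h1.2 h2.2
    · exact Set.disjoint_left.2 fun x h1 h2 => lt_asymm h2.2 h1.2
    · exact Set.disjoint_left.2 fun x h1 h2 =>
        Set.disjoint_left.1 (hD.Bd j l fun h => hne (by rw [h])) h1.1 h2.1
  · intro x hx hxy
    have h2 := zero_mem hD.y1 hG.adw hx hxy
    have h3 := dist_of_zero hG h2 hxy
    rcases lt_trichotomy (D.u x) D.t2 with h | h | h
    · obtain ⟨i, hi⟩ := hD.Az x h2 h3 h.le
      exact ⟨Sum.inl i, hi, h⟩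
    · exact absurd hxy (hG.av x h2 (Or.inr (Or.inr h)))
    · obtain ⟨j, hj⟩ := hD.Bz x h2 h3 (by linarith)
      exact ⟨Sum.inr j, hj, h⟩

end Pool.Agent.Q100.HK
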