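import Pool.Agent.Q100.HK.Two

/-!
# A fibre of a map close to the identity is not the union of two cyclically permuted families
-/

set_option autoImplicit false

open MeasureTheory Set Metric Filter Topology
open scoped ENNReal NNReal

noncomputable section

namespace Pool.Agent.Q100.HK

open Pool.Agent.Y485.HS Pool.Agent.Y489.SP

variable {n p : ℕ} {D : Dat n p}

/-! ### the maps -/

/-- the translates of the smooth map -/
def MG (D : Dat n p) (k : ℕ) (x : E n) : E n := D.F0 (D.τ k x)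

def ramp (a b t : ℝ) : ℝ := max 0 (min 1 ((t - a) / (b - a)))

lemma ramp_mem (a b t : ℝ) : ramp a b t ∈ Icc (0 : ℝ) 1 :=
  ⟨le_max_left _ _, max_le zero_le_one (min_le_left _ _)⟩

lemma ramp_zero {a b t : ℝ} (hab : a < b) (ht : t ≤ a) : ramp a b t = 0 := by
  have h1 : (t - a) / (b - a) ≤ 0 := div_nonpos_of_nonpos_of_nonneg (by linarith) (by linarith)
  exact max_eq_left ((min_le_right _ _).trans h1)

lemma ramp_one {a b t : ℝ} (hab : a < b) (ht : b ≤ t) : ramp a b t = 1 := by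
  have h1 : 1 ≤ (t - a) / (b - a) := by
    rw [le_div_iff₀ (by linarith)]
    linarith
  show max 0 (min 1 ((t - a) / (b - a))) = 1
  rw [min_eq_left h1, max_eq_right zero_le_one]

lemma ramp_cont (a b : ℝ) : Continuous (ramp a b) := by
  unfold ramp
  fun_prop

/-- the first mixture -/
def MM (D : Dat n p) (k : ℕ) (x : E n) : E n :=
  MG D k x + ramp D.t1 D.tm (D.u x) • (MG D 0 x - MG D k x)

/-- the second mixture -/
def MH (D : Dat n p) (k l : ℕ) (x : E n) : E n :=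
  MM D k x + ramp D.tm D.t2 (D.u x) • (MG D l x - MM D k x)

lemma MH_t1 (hD : D.Good) (k l : ℕ) {x : E n} (hx : D.u x ≤ D.t1) : MH D k l x = MG D k x := by
  have h1 := hD.l1
  have h2 := hD.l2
  unfold MH MM
  rw [ramp_zero h1 hx, ramp_zero h2 (hx.trans h1.le)]
  simp

lemma MH_tm (hD : D.Good) (k l : ℕ) {x : E n} (hx : D.u x = D.tm) : MH D k l x = MG D 0 x := by
  have h1 := hD.l1
  have h2 := hD.l2
  unfold MH MM
  rw [ramp_one h1 hx.ge, ramp_zero h2 hx.le]
  simp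

lemma MH_t2 (hD : D.Good) (k l : ℕ) {x : E n} (hx : D.t2 ≤ D.u x) : MH D k l x = MG D l x := by
  have h1 := hD.l1
  have h2 := hD.l2
  unfold MH MM
  rw [ramp_one h1 (h2.le.trans hx), ramp_one h2 hx]
  simp

lemma MH_zero (D : Dat n p) (x : E n) : MH D 0 0 x = MG D 0 x := by
  unfold MH MM
  simp

lemma τ_mem (hD : D.Good) (k : ℕ) {x : E n} (hx : x ∈ closedBall (0 : E n) (11 / 4)) :
    D.τ k x ∈ closedBall (0 : E n) 3 := by
  have := move (hD.τd k) (by norm_num) hx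
  exact cb (by norm_num) this

lemma MG_gds (hD : D.Good) (k : ℕ) : GdS D (MG D k) := by
  refine ⟨⟨?_, fun ε hε => ?_⟩, fun x hx => ?_, fun x hx hl => ?_⟩
  · have h1 : ContinuousOn (D.τ k) (closedBall 0 3) := (hD.τc k).mono (cb (by norm_num))
    exact hD.F0s.continuous.comp_continuousOn h1
  · obtain ⟨ε1, hε1, hu⟩ := Metric.uniformContinuousOn_iff.mp
      ((isCompact_closedBall (0 : E n) 4).uniformContinuousOn_of_continuous
        hD.F0s.continuous.continuousOn) ε hε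
    obtain ⟨τ0, hτ0s, hτ06, hτ0τ, hτ0d⟩ := Pool.Agent.Y739.SP.t_APX n (D.τ k) (hD.τc k)
      (hD.τd k) (ε1 / 2) (by positivity)
    refine ⟨fun x => D.F0 (τ0 x), ⟨hD.F0s.comp hτ0s, ?_, ?_⟩, ?_⟩
    · intro x hx
      show D.F0 (τ0 x) = x
      rw [hτ06 x (by linarith), hD.F0o x (by linarith)]
    · intro x
      have h1 := hD.F0d (τ0 x)
      have h2 := hτ0d x
      have h3 := dist_triangle (D.F0 (τ0 x)) (τ0 x) x
      show dist (D.F0 (τ0 x)) x ≤ 1
      linarith
    · intro x hx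
      have h1 := hτ0τ x hx
      have h2 : D.τ k x ∈ closedBall (0 : E n) 4 :=
        cb (by norm_num) (move (hD.τd k) (by norm_num) hx)
      have h3 : τ0 x ∈ closedBall (0 : E n) 4 := by
        have h10 := dist_triangle (τ0 x) x 0
        have h11 := hτ0d x
        rw [mem_closedBall] at hx ⊢
        linarith
      exact (hu (τ0 x) h3 (D.τ k x) h2 (by linarith)).le
  · have h1 := hD.F0F _ (τ_mem hD k hx)
    rwa [hD.Fτ k x hx] at h1
  · refine hD.av _ (τ_mem hD k hx) ?_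
    rw [hD.uτ k x hx]
    exact hl

lemma near_mix {G G' : E n → E n} {x : E n} (h5 : dist (G x) (D.F x) ≤ D.δ)
    (h6 : dist (G' x) (D.F x) ≤ D.δ) {t : ℝ} (ht : t ∈ Icc (0 : ℝ) 1) :
    dist (G x + t • (G' x - G x)) (D.F x) ≤ D.δ := by
  rw [dist_eq_norm] at h5 h6 ⊢
  have h8 : G x + t • (G' x - G x) - D.F x = (1 - t) • (G x - D.F x) + t • (G' x - D.F x) := by
    module
  rw [h8]
  calc ‖(1 - t) • (G x - D.F x) + t • (G' x - D.F x)‖
      ≤ ‖(1 - t) • (G x - D.F x)‖ + ‖t • (G' x - D.F x)‖ := norm_add_le _ _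
    _ = (1 - t) * ‖G x - D.F x‖ + t * ‖G' x - D.F x‖ := by
        rw [norm_smul, norm_smul, Real.norm_of_nonneg (by linarith [ht.2]),
          Real.norm_of_nonneg ht.1]
    _ ≤ (1 - t) * D.δ + t * D.δ :=
        add_le_add (mul_le_mul_of_nonneg_left h5 (by linarith [ht.2]))
          (mul_le_mul_of_nonneg_left h6 ht.1)
    _ = D.δ := by ring

lemma MH_gds (hD : D.Good) (k l : ℕ) : GdS D (MH D k l) := by
  have hu3 : ContinuousOn D.u (closedBall 0 3) := hD.uc.mono (cb (by norm_num))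
  have hM : AdS (MM D k) := mix (MG_gds hD k).ads (MG_gds hD 0).ads
    ((ramp_cont D.t1 D.tm).comp_continuousOn hu3) (fun x _ => ramp_mem _ _ _)
  refine ⟨mix hM (MG_gds hD l).ads ((ramp_cont D.tm D.t2).comp_continuousOn hu3)
    (fun x _ => ramp_mem _ _ _), fun x hx => ?_, fun x hx hl => ?_⟩
  · have h1 : dist (MM D k x) (D.F x) ≤ D.δ := near_mix ((MG_gds hD k).near x hx)
      ((MG_gds hD 0).near x hx) (ramp_mem D.t1 D.tm (D.u x))
    exact near_mix h1 ((MG_gds hD l).near x hx) (ramp_mem D.tm D.t2 (D.u x))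
  · rcases hl with h | h | h
    · rw [MH_t1 hD k l h.le]
      exact (MG_gds hD k).av x hx (Or.inl h)
    · rw [MH_tm hD k l h]
      exact (MG_gds hD 0).av x hx (Or.inr (Or.inl h))
    · rw [MH_t2 hD k l h.ge]
      exact (MG_gds hD l).av x hx (Or.inr (Or.inr h))

/-! ### the relations -/

variable [NeZero p]

lemma rel_split (hD : D.Good) (k l : ℕ) (i j : ZMod p) :
    dg D.y (MH D k l) (RC D i j D.t1 D.t2) =
      dg D.y (MH D k 0) (RC D i j D.t1 D.tm) + dg D.y (MH D 0 l) (RC D i j D.tm D.t2) := by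
  have h1 := hD.l1
  have h2 := hD.l2
  rw [decC hD (MH_gds hD k l).gd]
  congr 1
  · refine bdC hD (MH_gds hD k l).gd (MH_gds hD k 0).gd le_rfl h2.le
      (lineAv_of_eq (MH_gds hD k l).gd (Or.inl rfl) fun x _ hx => ?_)
      (lineAv_of_eq (MH_gds hD k l).gd (Or.inr (Or.inl rfl)) fun x _ hx => ?_)
    · rw [MH_t1 hD k l hx.le, MH_t1 hD k 0 hx.le]
    · rw [MH_tm hD k l hx, MH_tm hD k 0 hx]
  · refine bdC hD (MH_gds hD k l).gd (MH_gds hD 0 l).gd h1.le le_rfl
      (lineAv_of_eq (MH_gds hD k l).gd (Or.inr (Or.inl rfl)) fun x _ hx => ?_)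
      (lineAv_of_eq (MH_gds hD k l).gd (Or.inr (Or.inr rfl)) fun x _ hx => ?_)
    · rw [MH_tm hD k l hx, MH_tm hD 0 l hx]
    · rw [MH_t2 hD k l hx.ge, MH_t2 hD 0 l hx.ge]

lemma MG_comp (hD : D.Good) (k : ℕ) {x : E n} (hx : x ∈ closedBall (0 : E n) 2) :
    MG D k (D.τ 1 x) = MG D (k + 1) x := by
  unfold MG
  rw [hD.τs k x (cb (by norm_num) hx)]

lemma u_comp (hD : D.Good) {x : E n} (hx : x ∈ closedBall (0 : E n) 2) :
    D.u (D.τ 1 x) = D.u x := hD.uτ 1 x (cb (by norm_num) hx)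

lemma rel_shift (hD : D.Good) (k l : ℕ) (i j : ZMod p) :
    dg D.y (MH D (k + 1) (l + 1)) (RC D i j D.t1 D.t2) =
      dg D.y (MH D k l) (RC D (i + 1) (j + 1) D.t1 D.t2) := by
  have h1 := hD.l1
  have h2 := hD.l2
  have hG := MH_gds hD k l
  have hGc := hG.comp hD
  have e1 : dg D.y (MH D (k + 1) (l + 1)) (RC D i j D.t1 D.t2) =
      dg D.y (fun x => MH D k l (D.τ 1 x)) (RC D i j D.t1 D.t2) := by
    refine bdC hD (MH_gds hD (k + 1) (l + 1)).gd hGc le_rfl le_rfl
      (lineAv_of_eq (MH_gds hD (k + 1) (l + 1)).gd (Or.inl rfl) fun x hx2 hx => ?_)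
      (lineAv_of_eq (MH_gds hD (k + 1) (l + 1)).gd (Or.inr (Or.inr rfl)) fun x hx2 hx => ?_)
    · show MH D (k + 1) (l + 1) x = MH D k l (D.τ 1 x)
      rw [MH_t1 hD (k + 1) (l + 1) hx.le, MH_t1 hD k l (by rw [u_comp hD hx2]; exact hx.le),
        MG_comp hD k hx2]
    · show MH D (k + 1) (l + 1) x = MH D k l (D.τ 1 x)
      rw [MH_t2 hD (k + 1) (l + 1) hx.ge, MH_t2 hD k l (by rw [u_comp hD hx2]; exact hx.ge),
        MG_comp hD l hx2]
  rw [e1]
  refine dg_comp hD.y1 hG.ads (hD.τc 1) (hD.τd 1) (okC hD hGc (Or.inl rfl) (Or.inr (Or.inr rfl)))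
    (okC hD hG.gd (Or.inl rfl) (Or.inr (Or.inr rfl))) ?_
  intro x hx hxy
  have h3 := zero_mem hD.y1 hGc.adw hx hxy
  have h4 := dist_of_zero hGc h3 hxy
  have h5 : D.u (D.τ 1 x) = D.u x := hD.uτ 1 x hx
  simp only [RC, mem_ofPred_eq]
  rw [h5]
  constructor
  · rintro ⟨⟨h6, h7⟩, h8, h9⟩
    exact ⟨⟨(hD.Aτ x h3 h4 h9.le i).1 h6, (hD.Bτ x h3 h4 h8.le j).1 h7⟩, h8, h9⟩
  · rintro ⟨⟨h6, h7⟩, h8, h9⟩
    exact ⟨⟨(hD.Aτ x h3 h4 h9.le i).2 h6, (hD.Bτ x h3 h4 h8.le j).2 h7⟩, h8, h9⟩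

lemma rel_a (hD : D.Good) (k : ℕ) (i : ZMod p) :
    dg D.y (MG D (k + 1)) (RA D i D.t1) = dg D.y (MG D k) (RA D (i + 1) D.t1) := by
  have h1 := hD.l1
  have h2 := hD.l2
  have hG := MG_gds hD k
  have hGc := hG.comp hD
  have e1 : dg D.y (MG D (k + 1)) (RA D i D.t1) =
      dg D.y (fun x => MG D k (D.τ 1 x)) (RA D i D.t1) :=
    bdA hD (MG_gds hD (k + 1)).gd hGc (by linarith)
      (lineAv_of_eq (MG_gds hD (k + 1)).gd (Or.inl rfl) fun x hx2 _ => (MG_comp hD k hx2).symm)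
  rw [e1]
  refine dg_comp hD.y1 hG.ads (hD.τc 1) (hD.τd 1) (okA hD hGc (Or.inl rfl))
    (okA hD hG.gd (Or.inl rfl)) ?_
  intro x hx hxy
  have h3 := zero_mem hD.y1 hGc.adw hx hxy
  have h4 := dist_of_zero hGc h3 hxy
  have h5 : D.u (D.τ 1 x) = D.u x := hD.uτ 1 x hx
  simp only [RA, mem_ofPred_eq]
  rw [h5]
  constructor
  · rintro ⟨h6, h7⟩
    exact ⟨(hD.Aτ x h3 h4 (by linarith) i).1 h6, h7⟩
  · rintro ⟨h6, h7⟩
    exact ⟨(hD.Aτ x h3 h4 (by linarith) i).2 h6, h7⟩

lemma rel_b (hD : D.Good) (k : ℕ) (j : ZMod p) :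
    dg D.y (MG D (k + 1)) (RB D j D.t2) = dg D.y (MG D k) (RB D (j + 1) D.t2) := by
  have h1 := hD.l1
  have h2 := hD.l2
  have hG := MG_gds hD k
  have hGc := hG.comp hD
  have e1 : dg D.y (MG D (k + 1)) (RB D j D.t2) =
      dg D.y (fun x => MG D k (D.τ 1 x)) (RB D j D.t2) :=
    bdB hD (MG_gds hD (k + 1)).gd hGc (by linarith)
      (lineAv_of_eq (MG_gds hD (k + 1)).gd (Or.inr (Or.inr rfl))
        fun x hx2 _ => (MG_comp hD k hx2).symm)
  rw [e1]
  refine dg_comp hD.y1 hG.ads (hD.τc 1) (hD.τd 1) (okB hD hGc (Or.inr (Or.inr rfl)))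
    (okB hD hG.gd (Or.inr (Or.inr rfl))) ?_
  intro x hx hxy
  have h3 := zero_mem hD.y1 hGc.adw hx hxy
  have h4 := dist_of_zero hGc h3 hxy
  have h5 : D.u (D.τ 1 x) = D.u x := hD.uτ 1 x hx
  simp only [RB, mem_ofPred_eq]
  rw [h5]
  constructor
  · rintro ⟨h6, h7⟩
    exact ⟨(hD.Bτ x h3 h4 (by linarith) j).1 h6, h7⟩
  · rintro ⟨h6, h7⟩
    exact ⟨(hD.Bτ x h3 h4 (by linarith) j).2 h6, h7⟩

lemma rel_kappa (hD : D.Good) (k : ℕ) (i : ZMod p) :
    dg D.y (MG D k) (RA D i D.t1) + ∑ j, dg D.y (MH D k 0) (RC D i j D.t1 D.tm) =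
      dg D.y (MG D 0) (RA D i D.t2) - ∑ j, dg D.y (MH D 0 0) (RC D i j D.tm D.t2) := by
  have h1 := hD.l1
  have h2 := hD.l2
  have e1 : dg D.y (MH D k 0) (RA D i D.t2) = dg D.y (MG D 0) (RA D i D.t2) :=
    bdA hD (MH_gds hD k 0).gd (MG_gds hD 0).gd le_rfl
      (lineAv_of_eq (MH_gds hD k 0).gd (Or.inr (Or.inr rfl)) fun x _ hx => MH_t2 hD k 0 hx.ge)
  have e2 : dg D.y (MH D k 0) (RA D i D.t1) = dg D.y (MG D k) (RA D i D.t1) :=
    bdA hD (MH_gds hD k 0).gd (MG_gds hD k).gd (by linarith)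
      (lineAv_of_eq (MH_gds hD k 0).gd (Or.inl rfl) fun x _ hx => MH_t1 hD k 0 hx.le)
  have e3 := decA hD (MH_gds hD k 0).gd i
  rw [e1, e2, Finset.sum_congr rfl fun j _ => rel_split hD k 0 i j, Finset.sum_add_distrib] at e3
  linarith

lemma rel_mu (hD : D.Good) (l : ℕ) (j : ZMod p) :
    dg D.y (MG D l) (RB D j D.t2) + ∑ i, dg D.y (MH D 0 l) (RC D i j D.tm D.t2) =
      dg D.y (MG D 0) (RB D j D.t1) - ∑ i, dg D.y (MH D 0 0) (RC D i j D.t1 D.tm) := by
  have h1 := hD.l1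
  have h2 := hD.l2
  have e1 : dg D.y (MH D 0 l) (RB D j D.t1) = dg D.y (MG D 0) (RB D j D.t1) :=
    bdB hD (MH_gds hD 0 l).gd (MG_gds hD 0).gd le_rfl
      (lineAv_of_eq (MH_gds hD 0 l).gd (Or.inl rfl) fun x _ hx => MH_t1 hD 0 l hx.le)
  have e2 : dg D.y (MH D 0 l) (RB D j D.t2) = dg D.y (MG D l) (RB D j D.t2) :=
    bdB hD (MH_gds hD 0 l).gd (MG_gds hD l).gd (by linarith)
      (lineAv_of_eq (MH_gds hD 0 l).gd (Or.inr (Or.inr rfl)) fun x _ hx => MH_t2 hD 0 l hx.ge)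
  have e3 := decB hD (MH_gds hD 0 l).gd j
  rw [e1, e2, Finset.sum_congr rfl fun i _ => rel_split hD 0 l i j, Finset.sum_add_distrib] at e3
  linarith

lemma MH_zero_eq (D : Dat n p) : MH D 0 0 = MG D 0 := funext fun x => MH_zero D x

/-- the periodicity -/
lemma rel_period (hD : D.Good) : ∃ K : ℕ, ∀ i j : ZMod p,
    dg D.y (MH D 0 (p ^ (K + 1))) (RC D i j D.tm D.t2) =
      dg D.y (MH D 0 0) (RC D i j D.tm D.t2) := by
  have h1 := hD.l1
  have h2 := hD.l2
  have hcl : IsClosed (closedBall (0 : E n) 2 ∩ D.u ⁻¹' {D.t2}) :=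
    (hD.uc.mono (cb (by norm_num))).preimage_isClosed_of_isClosed isClosed_closedBall
      isClosed_singleton
  have hK : IsCompact (closedBall (0 : E n) 2 ∩ D.u ⁻¹' {D.t2}) :=
    (isCompact_closedBall (0 : E n) 2).of_isClosed_subset hcl inter_subset_left
  obtain ⟨m, hm, hmin⟩ := exists_min_pos hK (f := fun x => dist (D.F0 x) D.y)
    (hD.F0s.continuous.dist continuous_const).continuousOn (by
      rintro x ⟨hx, hu⟩
      rw [dist_pos]
      exact hD.av x (cb (by norm_num) hx) (Or.inr (Or.inr hu)))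
  obtain ⟨ε, hε, hunif⟩ := Metric.uniformContinuousOn_iff.mp
    ((isCompact_closedBall (0 : E n) 4).uniformContinuousOn_of_continuous
      hD.F0s.continuous.continuousOn) m hm
  obtain ⟨K, hKt⟩ := hD.τe ε hε
  refine ⟨K, fun i j => ?_⟩
  refine bdC hD (MH_gds hD 0 (p ^ (K + 1))).gd (MH_gds hD 0 0).gd h1.le le_rfl
    (lineAv_of_eq (MH_gds hD 0 (p ^ (K + 1))).gd (Or.inr (Or.inl rfl)) fun x _ hx => ?_) ?_
  · rw [MH_tm hD 0 _ hx, MH_tm hD 0 0 hx]
  · intro x hx hu t ht hxy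
    have hx3 : x ∈ closedBall (0 : E n) 3 := cb (by norm_num) hx
    have hx4 : x ∈ closedBall (0 : E n) 4 := cb (by norm_num) hx
    rw [MH_t2 hD 0 _ hu.ge, MH_t2 hD 0 0 hu.ge] at hxy
    have e1 : MG D 0 x = D.F0 x := by
      unfold MG
      rw [hD.τ0 x hx4]
    have h3 := hmin x ⟨hx, hu⟩
    have h4 := hKt x hx3
    have h5 := hunif (D.τ (p ^ (K + 1)) x)
      (cb (by norm_num) (τ_mem hD (p ^ (K + 1)) (cb (by norm_num) hx))) x hx4 h4
    rw [e1] at hxy
    have h6 : dist (D.F0 x) D.y ≤ dist (MG D (p ^ (K + 1)) x) (D.F0 x) := by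
      rw [← hxy, dist_eq_norm, dist_eq_norm]
      have h7 : D.F0 x - (MG D (p ^ (K + 1)) x + t • (D.F0 x - MG D (p ^ (K + 1)) x)) =
          (-(1 - t)) • (MG D (p ^ (K + 1)) x - D.F0 x) := by module
      rw [h7, norm_smul, norm_neg, Real.norm_of_nonneg (by linarith [ht.2])]
      have := norm_nonneg (MG D (p ^ (K + 1)) x - D.F0 x)
      nlinarith [ht.1]
    have h8 : dist (MG D (p ^ (K + 1)) x) (D.F0 x) < m := h5
    linarith

/-- the contradiction -/
theorem no_dat (hD : D.Good) (hp : p ≠ 1) : False := by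
  classical
  set al : ZMod p → ZMod p → ℕ → ℤ := fun i j k => dg D.y (MH D k 0) (RC D i j D.t1 D.tm)
    with hal
  set be : ZMod p → ZMod p → ℕ → ℤ := fun i j l => dg D.y (MH D 0 l) (RC D i j D.tm D.t2)
    with hbe
  set aa : ZMod p → ℕ → ℤ := fun i k => dg D.y (MG D k) (RA D i D.t1) with haa
  set bb : ZMod p → ℕ → ℤ := fun j l => dg D.y (MG D l) (RB D j D.t2) with hbb
  set c : ZMod p → ZMod p → ℤ := fun i j => al i j 1 - al (i + 1) (j + 1) 0 with hc
  have r2 : ∀ i j k l, al i j (k + 1) + be i j (l + 1) =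
      al (i + 1) (j + 1) k + be (i + 1) (j + 1) l := by
    intro i j k l
    have e1 := rel_split hD (k + 1) (l + 1) i j
    have e2 := rel_split hD k l (i + 1) (j + 1)
    have e3 := rel_shift hD k l i j
    rw [e1, e2] at e3
    exact e3
  have cb1 : ∀ i j l, be i j (l + 1) = be (i + 1) (j + 1) l - c i j := by
    intro i j l
    have := r2 i j 0 l
    simp only [hc]
    linarith
  have ca1 : ∀ i j k, al i j (k + 1) = al (i + 1) (j + 1) k + c i j := by
    intro i j k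
    have e1 := r2 i j k 0
    have e2 := r2 i j 0 0
    simp only [hc]
    linarith
  have a1 : ∀ i k, aa i (k + 1) = aa (i + 1) k := fun i k => rel_a hD k i
  have b1 : ∀ j k, bb j (k + 1) = bb (j + 1) k := fun j k => rel_b hD k j
  have k1 : ∀ i k, aa i k + ∑ j, al i j k = aa i 0 + ∑ j, al i j 0 := by
    intro i k
    have e1 := rel_kappa hD k i
    have e2 := rel_kappa hD 0 i
    simp only [haa, hal]
    rw [e1, e2]
  have m1 : ∀ j l, bb j l + ∑ i, be i j l = bb j 0 + ∑ i, be i j 0 := by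
    intro j l
    have e1 := rel_mu hD l j
    have e2 := rel_mu hD 0 j
    simp only [hbb, hbe]
    rw [e1, e2]
  -- the cocycle condition
  have hcyc : ∀ i j, ∑ s : ZMod p, c (i + s) (j + s) = 0 := by
    intro i j
    obtain ⟨K, hK⟩ := rel_period hD
    have h1 : ∀ L : ℕ, be i j L = be (i + (L : ZMod p)) (j + (L : ZMod p)) 0 -
        ∑ s ∈ Finset.range L, c (i + (s : ZMod p)) (j + (s : ZMod p)) := by
      have h2 : ∀ L : ℕ, ∀ m : ℕ, be i j (L + m) = be (i + (L : ZMod p)) (j + (L : ZMod p)) m -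
          ∑ s ∈ Finset.range L, c (i + (s : ZMod p)) (j + (s : ZMod p)) := by
        intro L
        induction L with
        | zero => intro m; simp
        | succ L ih =>
          intro m
          have e1 : L + 1 + m = L + (m + 1) := by ring
          rw [e1, ih (m + 1), cb1, Finset.sum_range_succ]
          have e2 : i + (L : ZMod p) + 1 = i + ((L + 1 : ℕ) : ZMod p) := by
            push_cast
            ring
          have e3 : j + (L : ZMod p) + 1 = j + ((L + 1 : ℕ) : ZMod p) := by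
            push_cast
            ring
          rw [e2, e3]
          ring
      intro L
      exact h2 L 0
    have h3 := h1 (p ^ (K + 1))
    have h4 : ((p ^ (K + 1) : ℕ) : ZMod p) = 0 := by
      rw [pow_succ]
      push_cast
      rw [ZMod.natCast_self, mul_zero]
    rw [h4, add_zero, add_zero] at h3
    have h5 : be i j (p ^ (K + 1)) = be i j 0 := hK i j
    rw [h5] at h3
    have h6 : ∑ s ∈ Finset.range (p ^ (K + 1)), c (i + (s : ZMod p)) (j + (s : ZMod p)) = 0 := by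
      linarith
    have h7 : ∀ N : ℕ, ∑ s ∈ Finset.range (p * N), c (i + (s : ZMod p)) (j + (s : ZMod p)) =
        N * ∑ s : ZMod p, c (i + s) (j + s) := by
      intro N
      induction N with
      | zero => simp
      | succ N ih =>
        have e1 : p * (N + 1) = p * N + p := by ring
        rw [e1, Finset.sum_range_add, ih]
        have e2 : ∑ x ∈ Finset.range p, c (i + ((p * N + x : ℕ) : ZMod p))
            (j + ((p * N + x : ℕ) : ZMod p)) = ∑ s : ZMod p, c (i + s) (j + s) := by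
          refine Finset.sum_bij (fun x _ => (x : ZMod p)) (fun _ _ => Finset.mem_univ _) ?_ ?_ ?_
          · intro a ha b hb hab
            rw [Finset.mem_range] at ha hb
            have := congrArg ZMod.val hab
            rwa [ZMod.val_cast_of_lt ha, ZMod.val_cast_of_lt hb] at this
          · intro b _
            exact ⟨b.val, Finset.mem_range.2 (ZMod.val_lt b), ZMod.natCast_zmod_val b⟩
          · intro a _
            have e3 : ((p * N + a : ℕ) : ZMod p) = (a : ZMod p) := by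
              push_cast
              rw [ZMod.natCast_self, zero_mul, zero_add]
            rw [e3]
        rw [e2]
        push_cast
        ring
    have h8 : p ^ (K + 1) = p * p ^ K := by ring
    rw [h8, h7] at h6
    have h9 : ((p ^ K : ℕ) : ℤ) ≠ 0 := by
      have : p ≠ 0 := NeZero.ne p
      positivity
    exact (mul_eq_zero.1 h6).resolve_left h9
  have hdiv := alg (fun i => aa i 0 + ∑ j, al i j 0) (fun j => bb j 0 + ∑ i, be i j 0) c
    (by
      intro i
      have e1 := k1 i 1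
      have e2 : ∑ j, al i j 1 = ∑ j, al (i + 1) j 0 + ∑ j, c i j := by
        have e3 : ∀ j, al i j 1 = al (i + 1) (j + 1) 0 + c i j := fun j => ca1 i j 0
        rw [Finset.sum_congr rfl fun j _ => e3 j, Finset.sum_add_distrib]
        congr 1
        exact Equiv.sum_comp (Equiv.addRight (1 : ZMod p)) fun j => al (i + 1) j 0
      have e4 : aa i 1 = aa (i + 1) 0 := a1 i 0
      show aa (i + 1) 0 + ∑ j, al (i + 1) j 0 - (aa i 0 + ∑ j, al i j 0) = -∑ j, c i j
      linarith)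
    (by
      intro j
      have e1 := m1 j 1
      have e2 : ∑ i, be i j 1 = ∑ i, be i (j + 1) 0 - ∑ i, c i j := by
        have e3 : ∀ i, be i j 1 = be (i + 1) (j + 1) 0 - c i j := fun i => cb1 i j 0
        rw [Finset.sum_congr rfl fun i _ => e3 i, Finset.sum_sub_distrib]
        congr 1
        exact Equiv.sum_comp (Equiv.addRight (1 : ZMod p)) fun i => be i (j + 1) 0
      have e4 : bb j 1 = bb (j + 1) 0 := b1 j 0
      show bb (j + 1) 0 + ∑ i, be i (j + 1) 0 - (bb j 0 + ∑ i, be i j 0) = ∑ i, c i j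
      linarith)
    hcyc
  -- the total
  have htot := total hD (MG_gds hD 0).gd
  have e1 : ∀ i, dg D.y (MG D 0) (RA D i D.t2) = aa i 0 + (∑ j, al i j 0 + ∑ j, be i j 0) := by
    intro i
    have e2 := rel_kappa hD 0 i
    simp only [haa, hal, hbe]
    linarith
  rw [Finset.sum_congr rfl fun i _ => e1 i] at htot
  have e5 : ∑ j, ∑ i, be i j 0 = ∑ i, ∑ j, be i j 0 := Finset.sum_comm
  have e6 : ∑ i, (aa i 0 + ∑ j, al i j 0) + ∑ j, (bb j 0 + ∑ i, be i j 0) = 1 := by
    rw [Finset.sum_add_distrib, Finset.sum_add_distrib, e5]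
    rw [Finset.sum_add_distrib, Finset.sum_add_distrib] at htot
    simp only [hbb]
    linarith
  rw [e6] at hdiv
  have h10 := Int.eq_one_of_dvd_one (by positivity) hdiv
  exact hp (by exact_mod_cast h10)

end Pool.Agent.Q100.HK
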