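import Pool.Agent.Q100.HK.Bai

/-!
# Uniform bounds at the points near which an open subgroup acts trivially
-/

set_option autoImplicit false

open MeasureTheory Set Metric Filter Topology
open scoped ENNReal NNReal

noncomputable section

namespace Pool.Agent.Q100.HK

open Pool.Agent.Y485.HS
open Pool.Agent.Q100.HS (netS closedBall_sub_three r_le_one ball_sub_BB rpow_mono)

theorem unif_triv {n : ℕ} {H : Type} [Group H] [TopologicalSpace H] [IsTopologicalGroup H]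
    [CompactSpace H] {T : H → E n → E n}
    (hT : LocAct n H T) (hP : ∀ h, SEn (T h)) {x0 : E n} (hx0 : x0 ∈ ball (0 : E n) 2)
    (htr : Triv T x0) :
    ∃ V ∈ 𝓝 x0, ∃ 𝒮 : Set (Set (E n)), 𝒮.Countable ∧ V ⊆ ⋃₀ 𝒮 ∧
      ∀ s ∈ 𝒮, ∃ N : ℕ, ∀ h : H, EnV (n + 1) N (T h) s := by
  classical
  obtain ⟨K0, hK0, hV⟩ := htr
  have hfin : Finite (H ⧸ K0) := Subgroup.quotient_finite_of_isOpen K0 hK0
  have hfi := Fintype.ofFinite (H ⧸ K0)
  choose S hSc hSu hSE using fun q : H ⧸ K0 => hP q.out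
  choose N hN using hSE
  have hx0' : ball (0 : E n) 2 ∈ 𝓝 x0 := isOpen_ball.mem_nhds hx0
  obtain ⟨δ, hδ, hb⟩ := Metric.eventually_nhds_iff_ball.1 (hV.and hx0')
  obtain ⟨M, hM⟩ := exists_nat_gt (2 / δ)
  have hM0 : 0 < M := by
    have h1 : (0 : ℝ) < M := lt_trans (by positivity) hM
    exact_mod_cast h1
  let P : ((H ⧸ K0) → ℕ) → Set (E n) := fun φ => ball x0 (δ / 2) ∩ ⋂ q, S q (φ q)
  refine ⟨ball x0 (δ / 2), ball_mem_nhds x0 (by positivity), range P, countable_range P, ?_, ?_⟩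
  · intro x hx
    have hx2 : x ∈ closedBall (0 : E n) 2 := by
      have h1 : x ∈ ball x0 δ := ball_subset_ball (by linarith) hx
      exact ball_subset_closedBall (hb x h1).2
    have h2 : ∀ q : H ⧸ K0, ∃ i, x ∈ S q i := fun q => mem_iUnion.1 (hSu q hx2)
    choose φ hφ using h2
    exact mem_sUnion.2 ⟨P φ, mem_range_self φ, hx, mem_iInter.2 hφ⟩
  · rintro _ ⟨φ, rfl⟩
    refine ⟨M + ∑ q, N q (φ q), fun h => ⟨by omega, fun r hr hNr A hA hAs => ?_⟩⟩
    have hMr : (M : ℝ) * r < 1 := by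
      refine lt_of_le_of_lt ?_ hNr
      gcongr
      simp
    have hrδ : r < δ / 2 := by
      rw [div_lt_iff₀ hδ] at hM
      have h1 : (M : ℝ) * r < (M : ℝ) * (δ / 2) := by linarith
      exact lt_of_mul_lt_mul_left h1 (by positivity)
    have hr1 : r ≤ 1 := r_le_one hM0 hr hMr
    set q : H ⧸ K0 := (h : H ⧸ K0) with hq
    obtain ⟨κ, hκ⟩ := QuotientGroup.mk_out_eq_mul K0 h
    have hk : h = (h : H ⧸ K0).out * (κ : H)⁻¹ := by
      rw [hκ]
      group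
    have hκ' : (κ : H)⁻¹ ∈ K0 := K0.inv_mem κ.2
    have key : ∀ w ∈ BB n, w ∈ ball x0 δ → T h w = T q.out w := by
      intro w hw hwx
      have h3 := (hb w hwx).1 _ hκ'
      calc T h w = T ((h : H ⧸ K0).out * (κ : H)⁻¹) w := by rw [← hk]
        _ = T (h : H ⧸ K0).out (T (κ : H)⁻¹ w) := hT.mul _ _ w hw (by rw [h3]; exact hw)
        _ = T (h : H ⧸ K0).out w := by rw [h3]
    have hle : N q (φ q) ≤ M + ∑ q, N q (φ q) := by
      have := Finset.single_le_sum (f := fun q => N q (φ q)) (fun q _ => Nat.zero_le _)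
        (Finset.mem_univ q)
      omega
    have h5 := (en_mono hle subset_rfl (hN q (φ q))).2 r hr hNr A
      (fun a ha => ⟨mem_iInter.1 (hA a ha).1.2 q, (hA a ha).2⟩) hAs
    calc ∑ a ∈ A, Metric.diam (T h '' closedBall a r) ^ (n + 1)
        = ∑ a ∈ A, Metric.diam (T q.out '' closedBall a r) ^ (n + 1) := by
          refine Finset.sum_congr rfl fun a ha => ?_
          congr 2
          refine image_congr fun x hx => key x (ball_sub_BB (hA a ha).2 hr1 hx) ?_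
          have h6 : dist a x0 < δ / 2 := (hA a ha).1.1
          rw [mem_closedBall] at hx
          rw [mem_ball]
          have := dist_triangle x a x0
          linarith
      _ ≤ _ := h5

/-- The points near which an open subgroup acts trivially are covered by countably many sets with
uniform bounds. -/
theorem unif_cover {n : ℕ} {H : Type} [Group H] [TopologicalSpace H] [IsTopologicalGroup H]
    [CompactSpace H] {T : H → E n → E n}
    (hT : LocAct n H T) (hP : ∀ h, SEn (T h)) :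
    ∃ 𝒮 : Set (Set (E n)), 𝒮.Countable ∧ {x | x ∈ ball (0 : E n) 2 ∧ Triv T x} ⊆ ⋃₀ 𝒮 ∧
      ∀ s ∈ 𝒮, ∃ N : ℕ, ∀ h : H, EnV (n + 1) N (T h) s := by
  obtain ⟨W, hW⟩ : ∃ W : Set (E n), W = {x | x ∈ ball (0 : E n) 2 ∧ Triv T x} := ⟨_, rfl⟩
  rw [← hW]
  have h1 : ∀ x : E n, ∃ (V : Set (E n)) (𝒮 : Set (Set (E n))), 𝒮.Countable ∧ V ⊆ ⋃₀ 𝒮 ∧
      (∀ s ∈ 𝒮, ∃ N : ℕ, ∀ h : H, EnV (n + 1) N (T h) s) ∧ (x ∈ W → V ∈ 𝓝 x) := by
    intro x
    by_cases hx : x ∈ W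
    · have hx' := hx
      rw [hW] at hx'
      obtain ⟨V, hV, 𝒮, h2, h3, h4⟩ := unif_triv hT hP hx'.1 hx'.2
      exact ⟨V, 𝒮, h2, h3, h4, fun _ => hV⟩
    · exact ⟨∅, ∅, countable_empty, empty_subset _, fun s hs => absurd hs (notMem_empty s),
        fun h => absurd h hx⟩
  choose V 𝒮 h𝒮c hV𝒮 h𝒮E hVn using h1
  obtain ⟨t, htW, htc, hcov⟩ := TopologicalSpace.countable_cover_nhdsWithin (f := V) (s := W)
    (fun x hx => mem_nhdsWithin_of_mem_nhds (hVn x hx))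
  refine ⟨⋃ x ∈ t, 𝒮 x, htc.biUnion fun x _ => h𝒮c x, ?_, ?_⟩
  · intro x hx
    obtain ⟨x1, hx1, hxV⟩ := mem_iUnion₂.1 (hcov hx)
    obtain ⟨s, hs, hxs⟩ := mem_sUnion.1 (hV𝒮 x1 hxV)
    exact mem_sUnion.2 ⟨s, mem_iUnion₂.2 ⟨x1, hx1, hs⟩, hxs⟩
  · intro s hs
    obtain ⟨x1, -, hs1⟩ := mem_iUnion₂.1 hs
    exact h𝒮E x1 s hs1

end Pool.Agent.Q100.HK
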